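import Pool.Agent.KOS.StmtsA

set_option autoImplicit false

namespace Pool.Agent.KOS

namespace LynFX

variable {r : ℕ}

lemma append_lt (a : List (Fin r)) : ∀ (b c d : List (Fin r)), a.length = b.length → a < b →
    a ++ c < b ++ d := by
  induction a with
  | nil =>
    intro b c d hl hlt
    have : b = [] := List.length_eq_zero_iff.mp (by simpa using hl.symm)
    subst this
    exact absurd hlt (lt_irrefl _)
  | cons x a ih =>
    intro b c d hl hlt
    cases b with
    | nil => simp at hl
    | cons y b =>
      simp only [List.cons_append]
      rw [List.cons_lt_cons_iff] at hlt ⊢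
      rcases hlt with h | ⟨h, h'⟩
      · exact Or.inl h
      · exact Or.inr ⟨h, ih b c d (by simpa using hl) h'⟩

lemma append_lt_iff (p : List (Fin r)) : ∀ (s t v : List (Fin r)), p.length = s.length →
    p ++ t < s ++ v → p < s ∨ (p = s ∧ t < v) := by
  induction p with
  | nil =>
    intro s t v hl h
    have : s = [] := List.length_eq_zero_iff.mp (by simpa using hl.symm)
    subst this
    exact Or.inr ⟨rfl, by simpa using h⟩
  | cons x p ih =>
    intro s t v hl h
    cases s with
    | nil => simp at hl
    | cons y s =>
      simp only [List.cons_append] at h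
      rw [List.cons_lt_cons_iff] at h ⊢
      rcases h with h | ⟨h, h'⟩
      · exact Or.inl (Or.inl h)
      · rcases ih s t v (by simpa using hl) h' with h2 | ⟨h2, h3⟩
        · exact Or.inl (Or.inr ⟨h, h2⟩)
        · exact Or.inr ⟨by rw [h, h2], h3⟩

lemma not_append_lt (l : List (Fin r)) : ∀ t : List (Fin r), ¬ (l ++ t < l) := by
  induction l with
  | nil => intro t; exact List.not_lt_nil _
  | cons x l ih =>
    intro t h
    rw [List.cons_append, List.cons_lt_cons_iff] at h
    rcases h with h | ⟨_, h⟩
    · exact lt_irrefl _ h
    · exact ih t h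

lemma le_append (l : List (Fin r)) (t : List (Fin r)) : l ≤ l ++ t :=
  not_lt.mp (not_append_lt l t)

lemma take_lt (v s : List (Fin r)) (h : v < s) : v.take s.length < s ∨ v.length < s.length := by
  by_cases hl : s.length ≤ v.length
  · left
    by_contra hcon
    push Not at hcon
    have h1 : v.take s.length ≤ v := by
      conv_rhs => rw [← List.take_append_drop s.length v]
      exact le_append _ _
    exact absurd (lt_of_lt_of_le h (le_trans hcon h1)) (lt_irrefl _)
  · right; omega

end LynFX

open LynFX in
theorem lynF_proof : Stmt_LynF := by
  intro r w hw hlen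
  obtain ⟨hne, hL⟩ := hw
  set n := w.length with hn
  -- smallest proper nonempty suffix
  obtain ⟨i₀, hi₀, hmin⟩ := Finset.exists_min_image (Finset.Ioo 0 n) (fun i => w.drop i)
    ⟨1, by simp; omega⟩
  rw [Finset.mem_Ioo] at hi₀
  obtain ⟨hi0, hin⟩ := hi₀
  have hmin' : ∀ i, 0 < i → i < n → w.drop i₀ ≤ w.drop i := fun i h1 h2 =>
    hmin i (by rw [Finset.mem_Ioo]; exact ⟨h1, h2⟩)
  refine ⟨w.take i₀, w.drop i₀, (List.take_append_drop _ _).symm, ?_, ?_, ?_⟩
  · -- Lyn u
    refine ⟨?_, ?_⟩
    · intro h0
      have := congrArg List.length h0
      rw [List.length_take, List.length_nil] at this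
      omega
    · intro j hj0 hj
      have hul : (w.take i₀).length = i₀ := by simp; omega
      rw [hul] at hj ⊢
      rw [List.take_take, min_eq_left (by omega)]
      have h1 := hL j hj0 (by omega)
      have e1 : w.drop j = (w.take i₀).drop j ++ w.drop i₀ := by
        conv_lhs => rw [← List.take_append_drop i₀ w]
        rw [List.drop_append]
        congr 1
        rw [hul]
        have : j - i₀ = 0 := by omega
        rw [this]; simp
      have e2 : w.take (n - j) = w.take (i₀ - j) ++ (w.drop (i₀ - j)).take (n - i₀) := by
        have : n - j = (i₀ - j) + (n - i₀) := by omega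
        rw [this, List.take_add]
      rw [e1, e2] at h1
      rcases append_lt_iff _ _ _ _ (by simp; omega) h1 with h2 | ⟨_, h3⟩
      · exact h2
      · exfalso
        have hle := hmin' (i₀ - j) (by omega) (by omega)
        have := append_lt _ _ ((w.drop (i₀ - j)).drop (n - i₀)) [] (by simp; omega) h3
        rw [List.take_append_drop, List.append_nil] at this
        exact absurd hle (not_le.mpr this)
  · -- Lyn v
    refine ⟨?_, ?_⟩
    · intro h0
      have := congrArg List.length h0
      rw [List.length_drop, List.length_nil] at this
      omega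
    · intro j hj0 hj
      have hvl : (w.drop i₀).length = n - i₀ := by simp [hn]
      rw [hvl] at hj ⊢
      have hle := hmin' (i₀ + j) (by omega) (by omega)
      have e3 : (w.drop i₀).drop j = w.drop (i₀ + j) := by rw [List.drop_drop]
      rw [e3]
      have hne' : w.drop i₀ ≠ w.drop (i₀ + j) := by
        intro h
        have := congrArg List.length h
        simp at this
        omega
      have hlt := lt_of_le_of_ne hle hne'
      have hsl : (w.drop (i₀ + j)).length = n - i₀ - j := by simp [hn]; omega
      rcases take_lt _ _ hlt with h | h
      · rw [hsl] at h; exact h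
      · exfalso; rw [hvl, hsl] at h; omega
  · have h1 := hL i₀ hi0 hin
    have := append_lt _ _ (w.drop (n - i₀)) (w.take i₀) (by simp; omega) h1
    rw [List.take_append_drop] at this
    rw [List.take_append_drop]
    exact this

end Pool.Agent.KOS
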