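import Pool.Agent.KOS.Defs

set_option autoImplicit false

namespace Pool.Agent.KOS

/-! ### 1. Words -/

/-- module WMIN (Zorn): a minimal factorial language is recurrent. -/
def Stmt_WMin : Prop := ∀ (r : ℕ) (F₀ : Set (List (Fin r))),
  (∀ u v w : List (Fin r), u ++ v ++ w ∈ F₀ → v ∈ F₀) →
  (∀ n : ℕ, ∃ w ∈ F₀, w.length = n) →
  ∃ F : Set (List (Fin r)), F ⊆ F₀ ∧
    (∀ u v w : List (Fin r), u ++ v ++ w ∈ F → v ∈ F) ∧
    (∀ n : ℕ, ∃ w ∈ F, w.length = n) ∧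
    ∀ u ∈ F, ∃ n : ℕ, ∀ w ∈ F, n ≤ w.length → ∃ a b : List (Fin r), w = a ++ u ++ b

/-- module WORD: the unavoidable patterns y y, y V y, V y V. -/
def Stmt_Word : Prop := ∀ (r : ℕ) (F : Set (List (Fin r))),
  (∀ u v w : List (Fin r), u ++ v ++ w ∈ F → v ∈ F) →
  (∀ n : ℕ, ∃ w ∈ F, w.length = n) →
  (∀ y : Fin r, [y, y] ∉ F) →
  (∀ (y : Fin r) (V : List (Fin r)), Lyn V → [y] ++ V ++ [y] ∉ F) →
  (∀ (y : Fin r) (V : List (Fin r)), Lyn V → V ++ [y] ++ V ∉ F) → False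

/-! ### 2. Lyndon brackets -/

/-- module LYNF: factorisation of Lyndon words. -/
def Stmt_LynF : Prop := ∀ (r : ℕ) (w : List (Fin r)), Lyn w → 2 ≤ w.length →
  ∃ u v : List (Fin r), w = u ++ v ∧ Lyn u ∧ Lyn v ∧ u ++ v < v ++ u

/-- module LYN: bracketing of Lyndon words. -/
def Stmt_Lyn : Prop := ∀ (K R : Type) [Field K] [Ring R] [Algebra K R] (r : ℕ) (g : Fin r → R)
  (w : List (Fin r)), Lyn w → ∃ c, Com g c ∧ c - ev g w ∈ Up K g w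

/-! ### 3. Sandwiches -/

/-- module SW. -/
def Stmt_SW : Prop := ∀ (K R : Type) [Field K] [Ring R] [Algebra K R] (r : ℕ) (g : Fin r → R),
  (∀ c, Com g c → c * c = 0) → (∀ c d, Com g c → Com g d → c * d * c = 0) →
  ∃ N : ℕ, ∀ w : List (Fin r), w.length = N → ev g w = 0

/-- module SAND. -/
def Stmt_Sand : Prop := ∀ (K L : Type) [Field K] [LieRing L] [LieAlgebra K L], (2 : K) ≠ 0 →
  ∀ (r : ℕ) (t : Fin r → L), (∀ i, adE K L (t i) ^ 2 = 0) →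
  ∃ N : ℕ, ∀ w : List (Fin r), w.length = N → ev (fun i => adE K L (t i)) w = 0

/-- module SUB. -/
def Stmt_Sub : Prop := ∀ (K L : Type) [Field K] [LieRing L] [LieAlgebra K L], (2 : K) ≠ 0 →
  ∀ T : Finset L, (∀ t ∈ T, adE K L t ^ 2 = 0) →
  ∃ M : ℕ, ∀ l : List L, l.length = M →
    (∀ x ∈ l, x ∈ LieSubalgebra.lieSpan K L (T : Set L)) → adP K L l = 0

/-! ### 7. End of Theorem E -/

/-- module ZORN. -/
def Stmt_Zorn : Prop := ∀ (K L : Type) [Field K] [LieRing L] [LieAlgebra K L],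
  FG K L → ¬ NilLie K L →
  ∃ J : LieIdeal K L, ¬ NilMod K L J ∧ ∀ J' : LieIdeal K L, J < J' → NilMod K L J'

/-- module JNN: a just non-nilpotent quotient. -/
def Stmt_JNN : Prop := ∀ (K L : Type) [Field K] [LieRing L] [LieAlgebra K L],
  FG K L → ¬ NilLie K L →
  ∃ (M : Type) (_ : LieRing M) (_ : LieAlgebra K M) (f : L →ₗ⁅K⁆ M), Function.Surjective f ∧
    FG K M ∧ ¬ NilLie K M ∧ ∀ J : LieIdeal K M, J ≠ ⊥ → NilMod K M J

/-- module COD1. -/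
def Stmt_Cod1 : Prop := ∀ (K L : Type) [Field K] [LieRing L] [LieAlgebra K L],
  FG K L → ∀ (H : LieIdeal K L) (x : L), (∀ y : L, ∃ c : K, y - c • x ∈ H) →
  (∃ n : ℕ, adE K L x ^ n = 0) → FG K H

/-- module FGI. -/
def Stmt_FGI : Prop := ∀ (K L : Type) [Field K] [LieRing L] [LieAlgebra K L],
  FG K L → (∀ x : L, ∃ n : ℕ, adE K L x ^ n = 0) → ∀ I : LieIdeal K L, NilMod K L I → FG K I

/-- module NIL: collection process. -/
def Stmt_Nil : Prop := ∀ (R : Type) [Ring R] (S : Subring R) (J : AddSubgroup R) (r : ℕ)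
  (g : Fin r → R) (c q : ℕ), (∀ i, g i ∈ S) → (∀ s ∈ S, ∀ j ∈ J, s * j ∈ J ∧ j * s ∈ J) →
  (∀ (m : ℕ) (a : R), c < m → ComW g m a → a ∈ J) → (∀ a, Com g a → a ^ q ∈ J) →
  ∃ N : ℕ, ∀ w : List (Fin r), w.length = N → ev g w ∈ J

/-- module EXT. -/
def Stmt_Ext : Prop := ∀ (K L : Type) [Field K] [LieRing L] [LieAlgebra K L],
  FG K L → (∃ n : ℕ, ∀ x : L, adE K L x ^ n = 0) → ∀ I : LieIdeal K L, NilMod K L I →
  (∃ M : ℕ, ∀ l : List L, l.length = M → (∀ x ∈ l, x ∈ I) → adP K L l = 0) → NilLie K L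

/-- output of sections 4 to 6 (module CHAIN). -/
def Stmt_Chain : Prop := ∀ (K L : Type) [Field K] [Infinite K] [LieRing L] [LieAlgebra K L]
  [Nontrivial L] (n : ℕ), (∀ k : ℕ, 1 ≤ k → k ≤ n → (k : K) ≠ 0) → (2 : K) ≠ 0 → (3 : K) ≠ 0 →
  (∀ x : L, adE K L x ^ n = 0) →
  ∃ I : LieIdeal K L, I ≠ ⊥ ∧
    ∀ x ∈ I, x ∈ Submodule.span K {t : L | t ∈ I ∧ adE K L t ^ 2 = 0}

/-- module MAINE: Theorem E. -/
def Stmt_MainE : Prop := ∀ (K L : Type) [Field K] [Infinite K] [LieRing L] [LieAlgebra K L]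
  (n : ℕ), (∀ k : ℕ, 1 ≤ k → k ≤ n → (k : K) ≠ 0) → (2 : K) ≠ 0 → (3 : K) ≠ 0 →
  FG K L → (∀ x : L, adE K L x ^ n = 0) → NilLie K L

/-! ### 8. Groups -/

/-- module ASSOC. -/
def Stmt_Assoc : Prop := ∀ (K U : Type) [Field K] [Infinite K] [Ring U] [Algebra K U] (p : ℕ)
  [Fact p.Prime] [CharP K p], 5 ≤ p → ∀ (r : ℕ) (x : Fin r → U),
  (∀ c : Fin p → U, (∀ i, Com x (c i)) →
    ∑ σ : Equiv.Perm (Fin p), (List.ofFn (fun i => c (σ i))).prod = 0) →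
  (∀ c, Com x c → c ^ p = 0) → ∃ N : ℕ, ∀ w : List (Fin r), w.length = N → ev x w = 0

/-- module DMUL. -/
def Stmt_DMul : Prop := ∀ (K G : Type) [Field K] [Group G],
  (∀ (m n : ℕ) (a b : MonoidAlgebra K G), a ∈ DD K G m → b ∈ DD K G n → a * b ∈ DD K G (m + n)) ∧
  (∀ (m n : ℕ), m ≤ n → DD K G n ≤ DD K G m)

/-- module DGEN: the powers of the augmentation ideal are generated by words. -/
def Stmt_DGen : Prop := ∀ (K G : Type) [Field K] [Group G] (r : ℕ) (g : Fin r → G),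
  Subgroup.closure (Set.range g) = ⊤ → ∀ n : ℕ,
  (∀ w : List (Fin r), w.length = n → ev (fun i => dlt K G (g i)) w ∈ DD K G (n + 1)) →
  ∀ m : ℕ, n ≤ m → DD K G m = DD K G n

/-- module MULTI. -/
def Stmt_Multi : Prop := ∀ (K G : Type) [Field K] [Group G] (p : ℕ) [Fact p.Prime] [CharP K p],
  (∀ g : G, g ^ p = 1) → ∀ (h : Fin p → G) (d : Fin p → ℕ), (∀ i, 1 ≤ d i) →
  (∀ i, dlt K G (h i) ∈ DD K G (d i)) →
  ∑ σ : Equiv.Perm (Fin p), (List.ofFn (fun i => dlt K G (h (σ i)))).prod ∈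
    DD K G ((∑ i, d i) + 1)

/-- module REES. -/
def Stmt_Rees : Prop := ∀ (K G : Type) [Field K] [Infinite K] [Group G] (p : ℕ) [Fact p.Prime]
  [CharP K p], 5 ≤ p → (∀ g : G, g ^ p = 1) → ∀ (r : ℕ) (g : Fin r → G),
  ∃ N : ℕ, ∀ w : List (Fin r), w.length = N →
    ev (fun i => dlt K G (g i)) w ∈ DD K G (N + 1)

/-- module FINP. -/
def Stmt_FinP : Prop := ∀ (K Q : Type) [Field K] [Group Q] [Finite Q] (p : ℕ) [Fact p.Prime]
  [CharP K p], IsPGroup p Q → ∃ M : ℕ, DD K Q M = ⊥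

/-- module DSUB: the dimension subgroups are normal of finite index. -/
def Stmt_DSub : Prop := ∀ (K G : Type) [Field K] [Group G] (p : ℕ) [Fact p.Prime] [CharP K p],
  Group.FG G → (∀ g : G, g ^ p = 1) → ∀ N : ℕ,
  ∃ R : Subgroup G, R.Normal ∧ R.FiniteIndex ∧ ∀ g : G, g ∈ R ↔ dlt K G g ∈ DD K G N

/-- the final theorem (module FINAL). -/
def Stmt_Kostrikin : Prop := ∀ p : ℕ, p.Prime → 5 ≤ p → ∀ (G : Type) [Group G], Group.FG G →
  (∀ g : G, g ^ p = 1) →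
  ∃ R : Subgroup G, R.Normal ∧ R.FiniteIndex ∧
    ∀ H : Subgroup G, H.Normal → H.FiniteIndex → R ≤ H

end Pool.Agent.KOS
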