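import Pool.Agent.KOS.StmtsA

set_option autoImplicit false

namespace Pool.Agent.KOS

theorem wMin_proof : Stmt_WMin := by
  intro r F₀ h1 h2
  let S : Set (Set (List (Fin r))) := {F | F ⊆ F₀ ∧
    (∀ u v w : List (Fin r), u ++ v ++ w ∈ F → v ∈ F) ∧ (∀ n : ℕ, ∃ w ∈ F, w.length = n)}
  have hF₀ : F₀ ∈ S := ⟨subset_rfl, h1, h2⟩
  obtain ⟨F, hF⟩ := zorn_superset S (by
    intro c hc hch
    rcases c.eq_empty_or_nonempty with rfl | hne
    · exact ⟨F₀, hF₀, by simp⟩
    refine ⟨⋂₀ c, ⟨?_, ?_, ?_⟩, fun s hs => Set.sInter_subset_of_mem hs⟩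
    · obtain ⟨G, hG⟩ := hne
      exact (Set.sInter_subset_of_mem hG).trans (hc hG).1
    · intro u v w huvw
      rw [Set.mem_sInter] at huvw ⊢
      intro G hG
      exact (hc hG).2.1 u v w (huvw G hG)
    · intro n
      have hfin : ∀ G : Set (List (Fin r)), (G ∩ {w | w.length = n}).Finite := fun G =>
        (List.finite_length_eq (Fin r) n).subset Set.inter_subset_right
      obtain ⟨G, hG, hmin⟩ : ∃ G ∈ c, ∀ G' ∈ c, (G ∩ {w | w.length = n}).ncard ≤
          (G' ∩ {w | w.length = n}).ncard := by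
        have hne' : ((fun G : Set (List (Fin r)) => (G ∩ {w | w.length = n}).ncard) '' c).Nonempty :=
          hne.image _
        obtain ⟨G, hG, hGe⟩ := Nat.sInf_mem hne'
        refine ⟨G, hG, fun G' hG' => ?_⟩
        have := Nat.sInf_le (Set.mem_image_of_mem
          (fun G : Set (List (Fin r)) => (G ∩ {w | w.length = n}).ncard) hG')
        simp only at hGe this
        omega
      obtain ⟨w, hw, hwn⟩ := (hc hG).2.2 n
      refine ⟨w, ?_, hwn⟩
      rw [Set.mem_sInter]
      intro G' hG'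
      rcases hch.total hG hG' with h | h
      · exact h hw
      · have hsub : G' ∩ {w | w.length = n} ⊆ G ∩ {w | w.length = n} :=
          Set.inter_subset_inter_left _ h
        have heq := Set.eq_of_subset_of_ncard_le hsub (hmin G' hG') (hfin G)
        have : w ∈ G ∩ {w | w.length = n} := ⟨hw, hwn⟩
        rw [← heq] at this
        exact this.1)
  have hFS : F ∈ S := hF.prop
  refine ⟨F, hFS.1, hFS.2.1, hFS.2.2, ?_⟩
  intro u hu
  by_contra hcon
  push Not at hcon
  have hF' : {w ∈ F | ∀ a b : List (Fin r), w ≠ a ++ u ++ b} ∈ S := by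
    refine ⟨fun w hw => hFS.1 hw.1, ?_, ?_⟩
    · rintro a v b ⟨h3, h4⟩
      refine ⟨hFS.2.1 a v b h3, ?_⟩
      rintro p q rfl
      exact h4 (a ++ p) (q ++ b) (by simp)
    · intro n
      obtain ⟨w, hw, hn, hne⟩ := hcon n
      refine ⟨w.take n, ⟨?_, ?_⟩, by simp [hn]⟩
      · apply hFS.2.1 [] (w.take n) (w.drop n)
        simpa using hw
      · intro p q hpq
        apply hne p (q ++ w.drop n)
        rw [← List.append_assoc, ← hpq, List.take_append_drop]
  have := hF.le_of_le hF' (fun w hw => hw.1)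
  have hu' := this hu
  exact hu'.2 [] [] (by simp)

end Pool.Agent.KOS
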