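import Pool.Agent.KOS.StmtsA

set_option autoImplicit false

namespace Pool.Agent.KOS

namespace WordX

variable {r : ℕ}

lemma append_lt (a : List (Fin r)) : ∀ (b c d : List (Fin r)), a.length = b.length → a < b →
    a ++ c < b ++ d := by
  induction a with
  | nil =>
    intro b c d hl hlt
    have : b = [] := List.length_eq_zero_iff.mp (by simpa using hl.symm)
    subst this
    exact absurd hlt (lt_irrefl _)
  | cons x a ih =>
    intro b c d hl hlt
    cases b with
    | nil => simp at hl
    | cons y b =>
      simp only [List.cons_append]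
      rw [List.cons_lt_cons_iff] at hlt ⊢
      rcases hlt with h | ⟨h, h'⟩
      · exact Or.inl h
      · exact Or.inr ⟨h, ih b c d (by simpa using hl) h'⟩

section
variable (F : Set (List (Fin r)))
  (hfac : ∀ u v w : List (Fin r), u ++ v ++ w ∈ F → v ∈ F)
  (hall : ∀ n : ℕ, ∃ w ∈ F, w.length = n)
  (hrec : ∀ u ∈ F, ∃ n : ℕ, ∀ w ∈ F, n ≤ w.length → ∃ a b : List (Fin r), w = a ++ u ++ b)

include hfac in
lemma pre (u v : List (Fin r)) (h : u ++ v ∈ F) : u ∈ F := by
  have := hfac [] u v (by simpa using h)
  exact this

include hfac in
lemma suf (u v : List (Fin r)) (h : u ++ v ∈ F) : v ∈ F := by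
  have := hfac u v [] (by simpa using h)
  exact this

include hfac hall hrec in
lemma extR (u : List (Fin r)) (hu : u ∈ F) (k : ℕ) : ∃ t : List (Fin r), t.length = k ∧ u ++ t ∈ F := by
  obtain ⟨n, hn⟩ := hrec u hu
  obtain ⟨w, hw, hwl⟩ := hall (n + k)
  have h1 : w = w.take n ++ w.drop n := (List.take_append_drop n w).symm
  have hp : w.take n ∈ F := pre F hfac _ (w.drop n) (by rw [← h1]; exact hw)
  obtain ⟨a, b, hab⟩ := hn _ hp (by simp; omega)
  have h2 : w = a ++ (u ++ (b ++ w.drop n)) := by
    conv_lhs => rw [h1, hab]
    simp
  have h3 : u ++ (b ++ w.drop n) ∈ F := suf F hfac a _ (by rw [← h2]; exact hw)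
  have hlen : k ≤ (b ++ w.drop n).length := by simp; omega
  refine ⟨(b ++ w.drop n).take k, by simp at hlen ⊢; omega, ?_⟩
  apply pre F hfac _ ((b ++ w.drop n).drop k)
  rw [List.append_assoc, List.take_append_drop]
  exact h3

include hfac hall hrec in
lemma extL (u : List (Fin r)) (hu : u ∈ F) : ∃ c : Fin r, c :: u ∈ F := by
  obtain ⟨n, hn⟩ := hrec u hu
  obtain ⟨w, hw, hwl⟩ := hall (n + 1)
  cases w with
  | nil => simp at hwl
  | cons c w =>
    have hp : w ∈ F := suf F hfac [c] w (by simpa using hw)
    obtain ⟨a, b, hab⟩ := hn _ hp (by simp at hwl; omega)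
    have hw2 : (c :: a) ++ (u ++ b) ∈ F := by
      have : c :: w = (c :: a) ++ (u ++ b) := by rw [hab]; simp
      rw [← this]; exact hw
    have hne : (c :: a) ≠ [] := by simp
    obtain ⟨a', d, had⟩ : ∃ a' d, c :: a = a' ++ [d] :=
      ⟨(c :: a).dropLast, (c :: a).getLast hne, (List.dropLast_append_getLast hne).symm⟩
    refine ⟨d, ?_⟩
    rw [had] at hw2
    apply hfac a' _ b
    simpa using hw2

include hall in
lemma exists_min (N : ℕ) : ∃ w ∈ F, w.length = N ∧ ∀ w' ∈ F, w'.length = N → w ≤ w' := by
  have hfin : {w : List (Fin r) | w ∈ F ∧ w.length = N}.Finite :=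
    (List.finite_length_eq (Fin r) N).subset (fun w hw => hw.2)
  obtain ⟨w₀, h0, h0l⟩ := hall N
  obtain ⟨w, hw, hmin⟩ := Set.exists_min_image _ (fun w => w) hfin ⟨w₀, h0, h0l⟩
  exact ⟨w, hw.1, hw.2, fun w' h1 h2 => hmin w' ⟨h1, h2⟩⟩

end

lemma main (F : Set (List (Fin r)))
    (hfac : ∀ u v w : List (Fin r), u ++ v ++ w ∈ F → v ∈ F)
    (hall : ∀ n : ℕ, ∃ w ∈ F, w.length = n)
    (hrec : ∀ u ∈ F, ∃ n : ℕ, ∀ w ∈ F, n ≤ w.length → ∃ a b : List (Fin r), w = a ++ u ++ b)
    (h1 : ∀ y : Fin r, [y, y] ∉ F)
    (h2 : ∀ (y : Fin r) (V : List (Fin r)), Lyn V → [y] ++ V ++ [y] ∉ F)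
    (h3 : ∀ (y : Fin r) (V : List (Fin r)), Lyn V → V ++ [y] ++ V ∉ F) : False := by
  choose m mF ml mmin using exists_min F hall
  -- prefix property
  have P2 : ∀ N k, (m (N + k)).take N = m N := by
    intro N k
    apply le_antisymm
    · by_contra hcon
      push Not at hcon
      obtain ⟨t, htl, ht⟩ := extR F hfac hall hrec (m N) (mF N) k
      have hle := mmin (N + k) _ ht (by simp [ml, htl])
      have hlt := append_lt (m N) ((m (N + k)).take N) t ((m (N + k)).drop N) (by simp [ml]) hcon
      rw [List.take_append_drop] at hlt
      exact absurd hle (not_le.mpr hlt)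
    · apply mmin N
      · apply pre F hfac _ ((m (N + k)).drop N)
        rw [List.take_append_drop]; exact mF _
      · simp [ml]
  have P2' : ∀ N M, N ≤ M → (m M).take N = m N := by
    intro N M h
    obtain ⟨k, rfl⟩ := Nat.exists_eq_add_of_le h
    exact P2 N k
  have P2'' : ∀ N M, N ≤ M → ∃ t, m M = m N ++ t := by
    intro N M h
    refine ⟨(m M).drop N, ?_⟩
    rw [← P2' N M h, List.take_append_drop]
  -- left letters
  have P3 : ∃ N0, 1 ≤ N0 ∧ ∀ N, N0 ≤ N → ∀ c, c :: m N ∈ F → ∀ M, c :: m M ∈ F := by
    have hc : ∀ c : Fin r, ∃ Mc, (∀ M, c :: m M ∈ F) ∨ c :: m Mc ∉ F := by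
      intro c
      by_cases h : ∀ M, c :: m M ∈ F
      · exact ⟨0, Or.inl h⟩
      · push Not at h
        obtain ⟨Mc, hMc⟩ := h
        exact ⟨Mc, Or.inr hMc⟩
    choose Mc hMc using hc
    refine ⟨(∑ c, Mc c) + 1, by omega, ?_⟩
    intro N hN c hcN
    rcases hMc c with h | h
    · exact h
    · exfalso
      apply h
      have hle : Mc c ≤ N := by
        have := Finset.single_le_sum (f := Mc) (fun i _ => Nat.zero_le _) (Finset.mem_univ c)
        omega
      obtain ⟨t, ht⟩ := P2'' (Mc c) N hle
      apply pre F hfac _ t
      rw [List.cons_append, ← ht]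
      exact hcN
  obtain ⟨N0, hN0, P3⟩ := P3
  -- main descent
  have key : ∀ k, ∀ V : List (Fin r), V.length = k → ∀ (y : Fin r) (N M : ℕ) (b : List (Fin r)),
      (∀ M', y :: m M' ∈ F) → N0 ≤ N → m M = V ++ (y :: m N) ++ b → False := by
    intro k
    induction k using Nat.strong_induction_on with
    | _ k ih =>
      intro V hV y N M b hy hN hM
      have hMlen : M = V.length + (N + 1) + b.length := by
        have := congrArg List.length hM
        simp [ml] at this
        omega
      by_cases hVe : V = []
      · subst hVe
        have ht := P2' 1 M (by simp at hMlen; omega)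
        rw [hM] at ht
        simp at ht
        have := hy 1
        rw [← ht] at this
        exact h1 y this
      · have hVpos : 0 < V.length := List.length_pos_iff.mpr hVe
        have hVm : V = m V.length := by
          have ht := P2' V.length M (by omega)
          rw [hM] at ht
          simpa using ht
        have hex : ∃ j, 0 < j ∧ j ≤ V.length ∧ V.drop (V.length - j) = m j :=
          ⟨V.length, hVpos, le_rfl, by simpa using hVm⟩
        classical
        obtain ⟨hj0, hjV, hjm⟩ := Nat.find_spec hex
        have hjmin := fun i (hi : i < Nat.find hex) => Nat.find_min hex hi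
        set j := Nat.find hex with hjdef
        -- Lyndon
        have hLyn : Lyn (m j) := by
          refine ⟨?_, ?_⟩
          · intro h0
            have := ml j
            rw [h0] at this
            simp at this
            omega
          · intro i hi0 hij
            rw [ml j] at hij ⊢
            rw [P2' (j - i) j (by omega)]
            have hdF : (m j).drop i ∈ F := by
              apply suf F hfac ((m j).take i)
              rw [List.take_append_drop]; exact mF j
            have hle := mmin (j - i) _ hdF (by simp [ml])
            refine lt_of_le_of_ne hle ?_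
            intro heq
            apply hjmin (j - i) (by omega)
            refine ⟨by omega, by omega, ?_⟩
            rw [heq, ← hjm, List.drop_drop]
            congr 1
            omega
        by_cases hjV' : j = V.length
        · -- y V y
          have hVL : Lyn V := by
            rw [hVm, ← hjV']; exact hLyn
          apply h2 y V hVL
          have hyy := hy (V.length + 1)
          have ht := P2' (V.length + 1) M (by omega)
          rw [hM] at ht
          have : (V ++ y :: m N ++ b).take (V.length + 1) = V ++ [y] := by
            rw [List.append_assoc, List.take_append]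
            simp
          rw [this] at ht
          rw [← ht] at hyy
          simpa using hyy
        · have hjlt : j < V.length := lt_of_le_of_ne hjV hjV'
          obtain ⟨V', c, hVc⟩ : ∃ V' c, V = V' ++ (c :: m j) := by
            have hA : V = V.take (V.length - j) ++ V.drop (V.length - j) :=
              (List.take_append_drop _ _).symm
            have hne : V.take (V.length - j) ≠ [] := by
              intro h0
              have := congrArg List.length h0
              simp at this
              omega
            refine ⟨(V.take (V.length - j)).dropLast, (V.take (V.length - j)).getLast hne, ?_⟩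
            conv_lhs => rw [hA, hjm, ← List.dropLast_append_getLast hne]
            simp
          have hV'len : V'.length < k := by
            rw [← hV, hVc]; simp
          by_cases hjN : j ≤ N
          · obtain ⟨t, ht⟩ := P2'' j N hjN
            apply h3 y (m j) hLyn
            apply hfac (V' ++ [c]) _ (t ++ b)
            have : V' ++ [c] ++ (m j ++ [y] ++ m j) ++ (t ++ b) = m M := by
              rw [hM, hVc, ht]; simp
            rw [this]
            exact mF M
          · have hcF : c :: m j ∈ F := by
              apply hfac V' _ ((y :: m N) ++ b)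
              have : V' ++ (c :: m j) ++ ((y :: m N) ++ b) = m M := by
                rw [hM, hVc]; simp
              rw [this]
              exact mF M
            have hcL := P3 j (by omega) c hcF
            refine ih V'.length hV'len V' rfl c j M ((y :: m N) ++ b) hcL (by omega) ?_
            rw [hM, hVc]; simp
  -- start
  obtain ⟨y, hy⟩ := extL F hfac hall hrec (m N0) (mF N0)
  have hyL := P3 N0 le_rfl y hy
  obtain ⟨n, hn⟩ := hrec _ hy
  obtain ⟨a, b, hab⟩ := hn (m n) (mF n) (by simp [ml])
  exact key a.length a rfl y N0 n b hyL le_rfl hab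

end WordX

theorem word_proof (hmin : Stmt_WMin) : Stmt_Word := by
  intro r F₀ hfac hall h1 h2 h3
  obtain ⟨F, hsub, hfac', hall', hrec⟩ := hmin r F₀ hfac hall
  exact WordX.main F hfac' hall' hrec (fun y h => h1 y (hsub h)) (fun y V hV h => h2 y V hV (hsub h))
    (fun y V hV h => h3 y V hV (hsub h))

end Pool.Agent.KOS
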