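import Pool.Agent.KOS.StmtsB

set_option autoImplicit false

/-! Squad KOS, module JD. -/

namespace Pool.Agent.KOS

namespace JDX

/-- expansion of `(H + t W)^n` to first order. -/
lemma expand {K R : Type*} [Field K] [Ring R] [Algebra K R] (H W : R) (n : ℕ) :
    ∃ (d : ℕ) (c : ℕ → R), 2 ≤ d ∧ c 0 = H ^ n ∧
      c 1 = ∑ i ∈ Finset.range n, H ^ (n - 1 - i) * W * H ^ i ∧
      ∀ t : K, (H + t • W) ^ n = ∑ i ∈ Finset.range d, t ^ i • c i := by
  induction n with
  | zero =>
    refine ⟨2, fun i => if i = 0 then 1 else 0, le_rfl, by simp, by simp, ?_⟩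
    intro t
    simp
  | succ n ih =>
    obtain ⟨d, c, hd, h0, h1, hc⟩ := ih
    refine ⟨d + 1, fun i => (if i < d then H * c i else 0) + (if i = 0 then 0 else W * c (i - 1)),
      by omega, ?_, ?_, ?_⟩
    · have : 0 < d := by omega
      simp [this, h0, pow_succ']
    · have : 1 < d := by omega
      simp only [this, if_true, one_ne_zero, if_false, Nat.sub_self, h0, h1]
      rw [Finset.sum_range_succ, Finset.mul_sum]
      congr 1
      · refine Finset.sum_congr rfl ?_
        intro i hi
        have hi' := Finset.mem_range.1 hi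
        have e : n + 1 - 1 - i = (n - 1 - i) + 1 := by omega
        rw [e, pow_succ']
        simp only [mul_assoc]
      · simp
    · intro t
      rw [pow_succ', hc t, add_mul, Finset.mul_sum, Finset.mul_sum]
      have e : ∀ i ∈ Finset.range (d + 1), t ^ i • ((if i < d then H * c i else 0) +
          (if i = 0 then 0 else W * c (i - 1))) =
          (if i < d then t ^ i • (H * c i) else 0) +
          (if i = 0 then 0 else t ^ i • (W * c (i - 1))) := by
        intro i _
        split_ifs <;> simp [smul_add]
      rw [Finset.sum_congr rfl e, Finset.sum_add_distrib]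
      congr 1
      · rw [Finset.sum_range_succ]
        simp only [lt_irrefl, if_false, add_zero]
        refine Finset.sum_congr rfl ?_
        intro i hi
        have hi' := Finset.mem_range.1 hi
        simp [hi']
      · rw [Finset.sum_range_succ']
        simp only [if_true, add_zero]
        refine Finset.sum_congr rfl ?_
        intro i hi
        simp [pow_succ', mul_smul]
        exact smul_comm _ _ _

end JDX

theorem jd_proof (hJet : Stmt_Jet) : Stmt_JD := by
  intro K L _ _ _ _ a k hP x y
  obtain ⟨d, c, hd, h0, h1, hc⟩ := JDX.expand (K := K) (adE K L ⁅a, x⁆) (adE K L ⁅a, y⁆) (k + 1)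
  have key := hJet K L ⊥ d (fun i => c i a) (by
    intro t
    have e1 : adE K L ⁅a, x⁆ + t • adE K L ⁅a, y⁆ = adE K L ⁅a, x + t • y⁆ := by
      simp [adE, lie_add, lie_smul, map_add, map_smul]
    have e2 := hc t
    rw [e1] at e2
    have e3 := congrArg (fun f : Module.End K L => f a) e2
    simp only [hP (x + t • y)] at e3
    rw [Submodule.mem_bot, e3]
    simp [LinearMap.sum_apply]) 1 (by omega)
  rw [Submodule.mem_bot] at key
  simp only [h1] at key
  rw [LinearMap.sum_apply] at key
  rw [← key]
  refine Finset.sum_congr rfl ?_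
  intro i _
  simp [adE, Module.End.mul_apply]

end Pool.Agent.KOS
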