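import Pool.Agent.KOS.StmtsB

set_option autoImplicit false

/-!
Squad KOS, section 5: from `(ad a)^3 = 0` to sandwiches.
-/

namespace Pool.Agent.KOS

namespace JLinX

section ring
variable {E : Type} [Ring E]

/-- F1 in the abstract ring. -/
def FF (A Y : E) : Prop := A * A * Y * A = A * Y * A * A

theorem zz {A Y : E} (h3 : A * A * A = 0) (h : FF A Y) : A * A * Y * A * A = 0 := by
  unfold FF at h
  linear_combination (norm := noncomm_ring) h * A + A * Y * h3

/-- the Jordan product -/
def M (A U V : E) : E := (U * A - A * U) * V - V * (U * A - A * U)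

/-- identity (3). -/
theorem three {A U V W : E} (h3 : A * A * A = 0) (hU : FF A U) (hV : FF A V) (hW : FF A W)
    (hUV : FF A (U * V - V * U)) :
    A * M A (M A U V) W * A * A = A * U * (A * M A V W) * A * A + A * V * (A * M A U W) * A * A
      + A * W * (A * M A U V) * A * A - A * U * (A * W) * (A * V) * A * A
      - A * V * (A * W) * (A * U) * A * A := by
  have zW := zz h3 hW
  unfold FF at hU hV hW hUV
  unfold M
  linear_combination (norm := noncomm_ring)
    -(hUV * (W * A * A)) - A * (U * V - V * U) * zW - hU * (V * W * A * A) - hV * (U * W * A * A)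
      - A * V * U * zW + h3 * (U * V * W * A * A) - A * W * U * A * V * h3 + A * W * A * U * V * h3
      + A * W * V * U * A * h3 - A * W * V * A * U * h3 + A * U * A * W * V * h3
      + A * V * A * W * U * h3

/-- right multiples: `F` and `G` agree before `A * A`. -/
theorem rmul {A V F G : E} (hV : FF A V) (h : F * A * A = G * A * A) :
    F * (A * V) * A * A = G * (A * V) * A * A := by
  unfold FF at hV
  linear_combination (norm := noncomm_ring) h * (V * A) - F * hV + G * hV

/-- the base case. -/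
theorem base2 {A X : E} (h3 : A * A * A = 0) (hX : FF A X)
    (h : A * A * X * A * X * X * A * A = A * A * X * X * A * X * A * A) :
    A * X * (A * M A X X) * A * A = A * M A X X * (A * X) * A * A := by
  have zX := zz h3 hX
  unfold FF at hX
  unfold M
  linear_combination (norm := noncomm_ring)
    hX * (X * X * A * A) - h + A * X * X * zX - A * X * A * X * X * h3

/-- the step of the recursion. -/
theorem step {A X W Y Z T : E} (hX : FF A X) (hW : FF A W)
    (c2 : A * X * (A * W) * A * A = A * W * (A * X) * A * A)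
    (cY : A * X * (A * Y) * A * A = A * Y * (A * X) * A * A)
    (cZ : A * X * (A * Z) * A * A = A * Z * (A * X) * A * A)
    (hR : A * T * A * A = 2 * (A * X) * (A * Z) * A * A + A * Y * (A * W) * A * A
      - A * X * (A * X) * (A * Y) * A * A - A * Y * (A * X) * (A * X) * A * A) :
    A * X * (A * T) * A * A = A * T * (A * X) * A * A := by
  have e0 : A * T * A * A = (2 * (A * X) * (A * Z) + A * Y * (A * W)
      - A * X * (A * X) * (A * Y) - A * Y * (A * X) * (A * X)) * A * A := by
    linear_combination (norm := noncomm_ring) hR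
  have e1 := rmul hX e0
  have e2 := rmul (F := A * X * (A * Y)) (G := A * Y * (A * X)) hW (by simpa using cY)
  have e3 := rmul (F := A * X * (A * Y)) (G := A * Y * (A * X)) hX (by simpa using cY)
  have e4 := rmul hX (F := A * X * (A * Y) * (A * X)) (G := A * Y * (A * X) * (A * X)) e3
  linear_combination (norm := noncomm_ring) A * X * hR - e1 + 2 * (A * X * cZ) + e2
    + A * Y * c2 - A * X * (A * X) * cY - e4

end ring

section lie
variable {K L : Type} [Field K] [LieRing L] [LieAlgebra K L]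

theorem ad_lie (x y : L) :
    adE K L ⁅x, y⁆ = adE K L x * adE K L y - adE K L y * adE K L x := by
  ext z
  simp [adE]

theorem cancel (n : ℕ) (hn : (n : K) ≠ 0) {X : Module.End K L} (h : n • X = 0) : X = 0 := by
  have : (n : K) • X = 0 := by rw [Nat.cast_smul_eq_nsmul]; exact h
  exact (smul_eq_zero.mp this).resolve_left hn

theorem A3 {a : L} (ha : adE K L a ^ 3 = 0) : adE K L a * adE K L a * adE K L a = 0 := by
  rw [← ha]; noncomm_ring

theorem F1 (h3 : (3:K) ≠ 0) {a : L} (ha : adE K L a ^ 3 = 0) (y : L) :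
    FF (adE K L a) (adE K L y) := by
  have h : adE K L ⁅a, ⁅a, ⁅a, y⁆⁆⁆ = 0 := by
    have h1 : ⁅a, ⁅a, ⁅a, y⁆⁆⁆ = (adE K L a ^ 3) y := by simp [pow_succ]
    rw [h1, ha]; simp
  rw [ad_lie, ad_lie, ad_lie] at h
  have hA := A3 ha
  unfold FF
  rw [← sub_eq_zero]
  apply cancel 3 (by exact_mod_cast h3)
  linear_combination (norm := noncomm_ring) -h + hA * adE K L y - adE K L y * hA

/-- the base relation in `E`. -/
theorem quart (h3 : (3:K) ≠ 0) {a : L} (ha : adE K L a ^ 3 = 0) (x : L) :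
    adE K L a * adE K L a * adE K L x * adE K L a * adE K L x * adE K L x * adE K L a * adE K L a
    = adE K L a * adE K L a * adE K L x * adE K L x * adE K L a * adE K L x * adE K L a
      * adE K L a := by
  have h := zz (A3 ha) (F1 h3 ha ⁅⁅⁅a, x⁆, x⁆, x⁆)
  rw [ad_lie, ad_lie, ad_lie] at h
  have hA := A3 ha
  rw [← sub_eq_zero]
  apply cancel 3 (by exact_mod_cast h3)
  generalize adE K L a = A at *
  generalize adE K L x = X at *
  linear_combination (norm := noncomm_ring) -h + hA * X * X * X * A * A - A * A * X * X * X * hA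

variable (a x : L)

/-- `x_1 = x`, `x_(j+1) = ⁅⁅x, a⁆, x_j⁆`; `xs j = x_(j+1)`. -/
def xs : ℕ → L
  | 0 => x
  | j + 1 => ⁅⁅x, a⁆, xs j⁆

theorem adM (u v : L) : adE K L ⁅⁅u, a⁆, v⁆ = M (adE K L a) (adE K L u) (adE K L v) := by
  rw [ad_lie, ad_lie]; rfl

/-- the operator `A * ad (u ∘ v) * A * A` is symmetric in `u`, `v`. -/
theorem symm (h3 : (3:K) ≠ 0) {a : L} (ha : adE K L a ^ 3 = 0) (u v : L) :
    adE K L a * adE K L ⁅⁅u, a⁆, v⁆ * adE K L a * adE K L a =
      adE K L a * adE K L ⁅⁅v, a⁆, u⁆ * adE K L a * adE K L a := by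
  have h := zz (A3 ha) (F1 h3 ha ⁅u, v⁆)
  have hA := A3 ha
  rw [ad_lie] at h
  rw [adM, adM]
  unfold M
  generalize adE K L a = A at *
  generalize adE K L u = U at *
  generalize adE K L v = V at *
  linear_combination (norm := noncomm_ring) -h + A * (U * V - V * U) * hA

/-- the commutation `com(j)`. -/
theorem com (h3 : (3:K) ≠ 0) {a : L} (ha : adE K L a ^ 3 = 0) (x : L) : ∀ j : ℕ,
    adE K L a * adE K L x * (adE K L a * adE K L (xs a x j)) * adE K L a * adE K L a =
    adE K L a * adE K L (xs a x j) * (adE K L a * adE K L x) * adE K L a * adE K L a := by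
  have c2 : adE K L a * adE K L x * (adE K L a * adE K L (xs a x 1)) * adE K L a * adE K L a =
    adE K L a * adE K L (xs a x 1) * (adE K L a * adE K L x) * adE K L a * adE K L a := by
    have : xs a x 1 = ⁅⁅x, a⁆, x⁆ := rfl
    rw [this, adM]
    exact base2 (A3 ha) (F1 h3 ha x) (quart h3 ha x)
  intro j
  induction j using Nat.strong_induction_on with
  | _ j ih =>
    match j with
    | 0 => rfl
    | 1 => exact c2
    | j + 2 =>
      have cY := ih j (by omega)
      have cZ := ih (j + 1) (by omega)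
      refine step (F1 h3 ha x) (F1 h3 ha (xs a x 1)) c2 cY cZ ?_
      have t := three (A3 ha) (F1 h3 ha x) (F1 h3 ha (xs a x j)) (F1 h3 ha x)
        (by rw [← ad_lie]; exact F1 h3 ha _)
      rw [← adM, ← adM, ← adM, ← adM] at t
      have s1 := symm h3 ha ⁅⁅x, a⁆, xs a x j⁆ x
      have s2 := symm h3 ha (xs a x j) x
      have e1 : xs a x (j + 2) = ⁅⁅x, a⁆, ⁅⁅x, a⁆, xs a x j⁆⁆ := rfl
      have e2 : xs a x (j + 1) = ⁅⁅x, a⁆, xs a x j⁆ := rfl
      have e3 : xs a x 1 = ⁅⁅x, a⁆, x⁆ := rfl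
      rw [e1, e2, e3]
      generalize adE K L a = A at *
      generalize adE K L x = X at *
      generalize adE K L (xs a x j) = Y at *
      generalize adE K L ⁅⁅x, a⁆, xs a x j⁆ = Z at *
      linear_combination (norm := noncomm_ring) t - s1 + A * X * s2

/-- `c_(j+1) = - A^2 x_j`. -/
theorem cform (h3 : (3:K) ≠ 0) {a : L} (ha : adE K L a ^ 3 = 0) (x : L) (j : ℕ) :
    (adE K L ⁅a, x⁆ ^ (j + 1)) a = -⁅a, ⁅a, xs a x j⁆⁆ := by
  induction j with
  | zero =>
    simp [xs]
  | succ j ih =>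
    rw [pow_succ', Module.End.mul_apply, ih]
    have hA := A3 ha
    have hF := F1 h3 ha x
    unfold FF at hF
    have e : adE K L ⁅a, x⁆ * (adE K L a * adE K L a)
        = - (adE K L a * adE K L a * adE K L ⁅a, x⁆) := by
      rw [ad_lie]
      linear_combination (norm := noncomm_ring) -hF + hA * adE K L x - adE K L x * hA
    have e' := LinearMap.congr_fun e (xs a x j)
    have e'' : ⁅⁅a, x⁆, ⁅a, ⁅a, xs a x j⁆⁆⁆ = -⁅a, ⁅a, ⁅⁅a, x⁆, xs a x j⁆⁆⁆ := by
      simpa [adE] using e'
    have e3 : xs a x (j + 1) = -⁅⁅a, x⁆, xs a x j⁆ := by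
      rw [xs, ← lie_skew a x]; simp
    change ⁅⁅a, x⁆, -⁅a, ⁅a, xs a x j⁆⁆⁆ = _
    rw [lie_neg, e'', e3]
    simp only [lie_neg]

/-- `C_j` -/
theorem Cform (h3 : (3:K) ≠ 0) {a : L} (ha : adE K L a ^ 3 = 0) (x : L) (j : ℕ) :
    adE K L ((adE K L ⁅a, x⁆ ^ (j + 1)) a) =
      -(adE K L a * (adE K L a * adE K L (xs a x j) - adE K L (xs a x j) * adE K L a)
        - (adE K L a * adE K L (xs a x j) - adE K L (xs a x j) * adE K L a) * adE K L a) := by
  rw [cform h3 ha x j, ← ad_lie]
  have : adE K L (-⁅a, ⁅a, xs a x j⁆⁆) = - adE K L ⁅a, ⁅a, xs a x j⁆⁆ := map_neg _ _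
  rw [this, ad_lie]

/-- the case `i = 0` of the identity `J(i,j)`. -/
theorem J0 (h3 : (3:K) ≠ 0) {a : L} (ha : adE K L a ^ 3 = 0) (x : L) (j : ℕ) :
    adE K L ⁅a, x⁆ * adE K L a * adE K L ((adE K L ⁅a, x⁆ ^ j) a)
      + adE K L a * adE K L ((adE K L ⁅a, x⁆ ^ j) a) * adE K L ⁅a, x⁆ = 0 := by
  have hA := A3 ha
  have hF := F1 h3 ha x
  match j with
  | 0 =>
    simp only [pow_zero, Module.End.one_apply]
    rw [ad_lie]
    unfold FF at hF
    linear_combination (norm := noncomm_ring) -hF + hA * adE K L x - adE K L x * hA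
  | j + 1 =>
    have hG := F1 h3 ha (xs a x j)
    have hc := com h3 ha x j
    have zG := zz hA hG
    rw [Cform h3 ha x j, ad_lie]
    unfold FF at hF hG
    generalize adE K L a = A at *
    generalize adE K L x = X at *
    generalize adE K L (xs a x j) = Y at *
    linear_combination (norm := noncomm_ring) hc + 2 * (A * X * hG) - 2 * (hG * (X * A))
      - A * Y * hF + X * zG + 2 * (zG * X) - A * X * hA * Y + X * A * hA * Y
      - 2 * (X * hA * Y * A) - hA * Y * A * X - A * Y * hA * X + hA * Y * X * A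

/-- the identity `J(i,j)`. -/
theorem JJ (h3 : (3:K) ≠ 0) {a : L} (ha : adE K L a ^ 3 = 0) (x : L) (i : ℕ) : ∀ j : ℕ,
    adE K L ⁅a, x⁆ * adE K L ((adE K L ⁅a, x⁆ ^ i) a) * adE K L ((adE K L ⁅a, x⁆ ^ j) a)
      + adE K L ((adE K L ⁅a, x⁆ ^ i) a) * adE K L ((adE K L ⁅a, x⁆ ^ j) a) * adE K L ⁅a, x⁆
      = 0 := by
  have hs : ∀ n : ℕ, adE K L ((adE K L ⁅a, x⁆ ^ (n + 1)) a) =
      adE K L ⁅a, x⁆ * adE K L ((adE K L ⁅a, x⁆ ^ n) a)
        - adE K L ((adE K L ⁅a, x⁆ ^ n) a) * adE K L ⁅a, x⁆ := by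
    intro n
    rw [← ad_lie, pow_succ']
    rfl
  induction i with
  | zero =>
    intro j
    have := J0 h3 ha x j
    simpa using this
  | succ i ih =>
    intro j
    have h1 := ih j
    have h2 := ih (j + 1)
    rw [hs] at h2 ⊢
    generalize adE K L ((adE K L ⁅a, x⁆ ^ i) a) = P at *
    generalize adE K L ((adE K L ⁅a, x⁆ ^ j) a) = Q at *
    generalize adE K L ⁅a, x⁆ = H at *
    linear_combination (norm := noncomm_ring) H * h1 - h1 * H - h2

/-- Lemma J. -/
theorem lemJ (h3 : (3:K) ≠ 0) {a : L} (ha : adE K L a ^ 3 = 0) (x : L) (i j : ℕ) :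
    2 • (adE K L ⁅a, x⁆ * (adE K L ((adE K L ⁅a, x⁆ ^ i) a)
      * adE K L ((adE K L ⁅a, x⁆ ^ j) a))) =
    adE K L ((adE K L ⁅a, x⁆ ^ (i + 1)) a) * adE K L ((adE K L ⁅a, x⁆ ^ j) a)
      + adE K L ((adE K L ⁅a, x⁆ ^ i) a) * adE K L ((adE K L ⁅a, x⁆ ^ (j + 1)) a) := by
  have hs : ∀ n : ℕ, adE K L ((adE K L ⁅a, x⁆ ^ (n + 1)) a) =
      adE K L ⁅a, x⁆ * adE K L ((adE K L ⁅a, x⁆ ^ n) a)
        - adE K L ((adE K L ⁅a, x⁆ ^ n) a) * adE K L ⁅a, x⁆ := by
    intro n
    rw [← ad_lie, pow_succ']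
    rfl
  have h1 := JJ h3 ha x i j
  rw [hs, hs]
  generalize adE K L ((adE K L ⁅a, x⁆ ^ i) a) = P at *
  generalize adE K L ((adE K L ⁅a, x⁆ ^ j) a) = Q at *
  generalize adE K L ⁅a, x⁆ = H at *
  linear_combination (norm := noncomm_ring) h1

end lie

section arith

/-- partial sums of a diagonal of Pascal's triangle. -/
def SS (m : ℕ) : ℕ → ℕ
  | 0 => 1
  | k + 1 => 2 * SS m k + (m + k + 1).choose (k + 1)

theorem SS_eq (m k : ℕ) : SS m k = ∑ r ∈ Finset.range (k + 1), (m + r).choose r * 2 ^ (k - r) := by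
  induction k with
  | zero => simp [SS]
  | succ k ih =>
    rw [Finset.sum_range_succ, SS, ih, Finset.mul_sum]
    congr 1
    · refine Finset.sum_congr rfl fun r hr => ?_
      have : k + 1 - r = (k - r) + 1 := by
        have := Finset.mem_range.mp hr
        omega
      rw [this, pow_succ]; ring
    · simp [add_assoc]

theorem SS_rec (m k : ℕ) : SS (m + 1) (k + 1) = SS m (k + 1) + SS (m + 1) k := by
  induction k with
  | zero =>
    simp [SS]; ring
  | succ k ih =>
    have h1 : SS (m + 1) (k + 1 + 1) = 2 * SS (m + 1) (k + 1) + (m + 1 + (k + 1) + 1).choose (k + 1 + 1) := rfl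
    have h2 : SS m (k + 1 + 1) = 2 * SS m (k + 1) + (m + (k + 1) + 1).choose (k + 1 + 1) := rfl
    have h3 : SS (m + 1) (k + 1) = 2 * SS (m + 1) k + (m + 1 + k + 1).choose (k + 1) := rfl
    have h4 : (m + 1 + (k + 1) + 1).choose (k + 1 + 1) = (m + (k + 1) + 1).choose (k + 1)
      + (m + (k + 1) + 1).choose (k + 1 + 1) := by
      have : m + 1 + (k + 1) + 1 = (m + (k + 1) + 1) + 1 := by ring
      rw [this, Nat.choose_succ_succ]
    have h5 : m + 1 + k + 1 = m + (k + 1) + 1 := by ring
    rw [h5] at h3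
    omega

theorem SS_diag (k : ℕ) : SS k k = 4 ^ k := by
  induction k with
  | zero => simp [SS]
  | succ k ih =>
    have h1 := SS_rec k k
    have h2 : SS k (k + 1) = 2 * SS k k + (k + k + 1).choose (k + 1) := rfl
    have h3 : SS (k + 1) (k + 1) = 2 * SS (k + 1) k + (k + 1 + k + 1).choose (k + 1) := rfl
    have h4 : (k + 1 + k + 1).choose (k + 1) = 2 * (k + k + 1).choose (k + 1) := by
      have e : k + 1 + k + 1 = (k + k + 1) + 1 := by ring
      rw [e, Nat.choose_succ_succ']
      have : (k + k + 1).choose k = (k + k + 1).choose (k + 1) := by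
        rw [← Nat.choose_symm_of_eq_add]
        ring
      omega
    rw [pow_succ]
    omega

end arith

section fin
variable {K L : Type} [Field K] [LieRing L] [LieAlgebra K L]

/-- powers of `H` on products `C_i C_j`, `i + j + n = 2 k`. -/
theorem powS (C : ℕ → Module.End K L) (H : Module.End K L)
    (hJ : ∀ i j, 2 • (H * (C i * C j)) = C (i + 1) * C j + C i * C (j + 1)) (k : ℕ)
    (hk : C (k + 1) = 0) (n : ℕ) : ∀ i j : ℕ, i ≤ k → j ≤ k → i + j + n = 2 * k →
    2 ^ n • (H ^ n * (C i * C j)) = (n.choose (k - i)) • (C k * C k) := by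
  induction n with
  | zero =>
    intro i j hi hj h
    have h1 : i = k := by omega
    have h2 : j = k := by omega
    subst h1
    subst h2
    simp
  | succ n ih =>
    intro i j hi hj h
    have e1 : 2 ^ (n + 1) • (H ^ (n + 1) * (C i * C j)) =
        2 ^ n • (H ^ n * (C (i + 1) * C j)) + 2 ^ n • (H ^ n * (C i * C (j + 1))) := by
      rw [← smul_add, ← mul_add, ← hJ, pow_succ, pow_succ, mul_smul, mul_smul_comm, mul_assoc]
    rw [e1]
    rcases Nat.lt_or_ge i k with hi' | hi'
    · rcases Nat.lt_or_ge j k with hj' | hj'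
      · rw [ih (i + 1) j (by omega) hj (by omega), ih i (j + 1) hi (by omega) (by omega)]
        have : k - i = (k - (i + 1)) + 1 := by omega
        rw [this, ← add_smul, ← Nat.choose_succ_succ']
      · have hj2 : j = k := by omega
        subst hj2
        rw [ih (i + 1) j (by omega) hj (by omega), hk]
        have : n + 1 = j - i := by omega
        have h3 : n = j - (i + 1) := by omega
        rw [← this, ← h3]
        simp
    · have hi2 : i = k := by omega
      subst hi2
      rw [hk, ih i (j + 1) hi (by omega) (by omega)]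
      simp

end fin

end JLinX

/-- Lemma JL. -/
theorem jLin_proof (hJD : Stmt_JD) : Stmt_JLin := by
  intro K L _ _ _ _ h2 h3 a ha k hk x
  have hD := hJD K L a k hk x
  obtain ⟨H, hH⟩ : ∃ H, H = adE K L ⁅a, x⁆ := ⟨_, rfl⟩
  obtain ⟨C, hC⟩ : ∃ C : ℕ → Module.End K L, ∀ i, C i = adE K L ((H ^ i) a) := ⟨_, fun _ => rfl⟩
  have hJ : ∀ i j, 2 • (H * (C i * C j)) = C (i + 1) * C j + C i * C (j + 1) := by
    intro i j
    rw [hC, hC, hC, hC, hH]
    exact JLinX.lemJ h3 ha x i j
  have hk1 : C (k + 1) = 0 := by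
    rw [hC, hH, hk]
    exact map_zero _
  have hZ : ∑ i ∈ Finset.range (k + 1), H ^ (k - i) * (C i * C 0) = 0 := by
    ext y
    have h := hD y
    rw [← hH] at h
    simp only [LinearMap.sum_apply, Module.End.mul_apply, LinearMap.zero_apply]
    rw [← neg_eq_zero, ← Finset.sum_neg_distrib, ← h]
    refine Finset.sum_congr rfl fun i _ => ?_
    rw [hC, hC, ← map_neg]
    congr 1
    change -⁅(H ^ i) a, ⁅a, y⁆⁆ = _
    rw [lie_skew]
  have hZ2 : ∑ r ∈ Finset.range (k + 1), H ^ (k + r) * (C (k - r) * C 0) = 0 := by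
    have := congrArg (fun z => H ^ k * z) hZ
    simp only [mul_zero, Finset.mul_sum] at this
    rw [← Finset.sum_range_reflect, ← this]
    refine Finset.sum_congr rfl fun i hi => ?_
    have hi' := Finset.mem_range.mp hi
    have e1 : k + (k + 1 - 1 - i) = k + (k - i) := by omega
    have e2 : k - (k + 1 - 1 - i) = i := by omega
    rw [e1, e2, pow_add, mul_assoc]
  have hZ3 : (4 ^ k : ℕ) • (C k * C k) = 0 := by
    rw [← JLinX.SS_diag, JLinX.SS_eq, Finset.sum_smul]
    have := congrArg (fun z => (2 ^ (2 * k) : ℕ) • z) hZ2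
    simp only [smul_zero, Finset.smul_sum] at this
    rw [← this]
    refine Finset.sum_congr rfl fun r hr => ?_
    have hr' := Finset.mem_range.mp hr
    have hS := JLinX.powS C H hJ k hk1 (k + r) (k - r) 0 (by omega) (by omega) (by omega)
    have e1 : k - (k - r) = r := by omega
    rw [e1] at hS
    rw [mul_comm ((k + r).choose r), mul_smul, ← hS, ← mul_smul, ← pow_add]
    congr 2
    omega
  have hfin : C k * C k = 0 := by
    apply JLinX.cancel (4 ^ k) _ hZ3
    have : (4 : K) = 2 * 2 := by norm_num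
    push_cast
    rw [this]
    exact pow_ne_zero _ (mul_ne_zero h2 h2)
  rw [hC] at hfin
  rw [pow_two, ← hH]
  exact hfin

end Pool.Agent.KOS
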