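import Pool.Agent.KOS.StmtsA

set_option autoImplicit false

namespace Pool.Agent.KOS

namespace DescX

open Finset

section ring
variable {K R : Type*} [Field K] [Ring R] [Algebra K R]

lemma D_pow (A Y : R) (k : ℕ) :
    ((LinearMap.mulLeft K A - LinearMap.mulRight K A) ^ k) Y =
      ∑ i ∈ range (k + 1), ((-1 : K) ^ i * (k.choose i : K)) • (A ^ (k - i) * Y * A ^ i) := by
  have hc : Commute (LinearMap.mulRight K (-A)) (LinearMap.mulLeft K A) :=
    (LinearMap.commute_mulLeft_right A (-A)).symm
  have hs : LinearMap.mulLeft K A - LinearMap.mulRight K A =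
      LinearMap.mulRight K (-A) + LinearMap.mulLeft K A := by
    ext z
    simp [sub_eq_neg_add]
  rw [hs, hc.add_pow, LinearMap.sum_apply]
  apply sum_congr rfl
  intro i _
  rw [LinearMap.pow_mulRight, LinearMap.pow_mulLeft]
  simp only [Module.End.mul_apply, LinearMap.mulLeft_apply, LinearMap.mulRight_apply]
  have h1 : ((k.choose i : ℕ) : Module.End K R) Y = (k.choose i : K) • Y := by
    rw [Module.End.natCast_apply, Nat.cast_smul_eq_nsmul]
  have h2 : (-A) ^ i = ((-1 : K) ^ i) • A ^ i := by
    rw [neg_pow]
    rcases Nat.even_or_odd i with h | h <;> simp [h.neg_one_pow]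
  rw [h1, h2, mul_smul_comm, mul_smul_comm, smul_mul_assoc, smul_smul]

end ring

section lie
variable {K L : Type*} [Field K] [LieRing L] [LieAlgebra K L]

lemma ad_D (a : L) (k : ℕ) (y : L) : adE K L ((adE K L a ^ k) y) =
    ((LinearMap.mulLeft K (adE K L a) - LinearMap.mulRight K (adE K L a)) ^ k) (adE K L y) := by
  induction k with
  | zero => simp
  | succ k ih =>
    rw [pow_succ', pow_succ', Module.End.mul_apply, Module.End.mul_apply, ← ih]
    simp [Ring.lie_def]

lemma ad_pow (a y : L) (k : ℕ) : adE K L ((adE K L a ^ k) y) =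
    ∑ i ∈ range (k + 1), ((-1 : K) ^ i * (k.choose i : K)) •
      (adE K L a ^ (k - i) * adE K L y * adE K L a ^ i) := by
  rw [ad_D, D_pow]

end lie

section rel
variable {K R : Type*} [Field K] [Ring R] [Algebra K R]

/-- the relation `D^(q+4) Y = 0`. -/
def Rel (K : Type*) {R : Type*} [Field K] [Ring R] [Algebra K R] (A : R) (q : ℕ) (Y : R) : Prop :=
  ∑ i ∈ range (q + 5), ((-1 : K) ^ i * ((q + 4).choose i : K)) • (A ^ (q + 4 - i) * Y * A ^ i) = 0

lemma relR (A : R) (q : ℕ) (hA : A ^ (q + 4) = 0) (Y : R) (hF : Rel K A q Y) (j : ℕ)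
    (hj : j ≤ q + 3) :
    ∑ i ∈ range (j + 1), ((-1 : K) ^ i * ((q + 4).choose i : K)) •
      (A ^ (q + 4 - i) * Y * A ^ (i + (q + 3 - j))) = 0 := by
  have h := congrArg (· * A ^ (q + 3 - j)) hF
  simp only [Finset.sum_mul, smul_mul_assoc, zero_mul] at h
  rw [← h]
  apply Finset.sum_subset_zero_on_sdiff
  · intro i hi
    simp at hi ⊢
    omega
  · intro i hi
    simp at hi
    have : A ^ i * A ^ (q + 3 - j) = 0 := by
      rw [← pow_add]
      have : i + (q + 3 - j) = (q + 4) + (i - j - 1) := by omega
      rw [this, pow_add, hA, zero_mul]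
    rw [mul_assoc _ (A ^ i), this, mul_zero, smul_zero]
  · intro i _
    rw [pow_add, mul_assoc, mul_assoc, mul_assoc]

lemma relL (A : R) (q : ℕ) (hA : A ^ (q + 4) = 0) (Y : R) (hF : Rel K A q Y) (j : ℕ)
    (hj : j ≤ q + 3) :
    ∑ i ∈ range (j + 1), ((-1 : K) ^ i * ((q + 4).choose i : K)) •
      (A ^ (i + (q + 3 - j)) * Y * A ^ (q + 4 - i)) = 0 := by
  have hF' : ∑ i ∈ range (q + 5), ((-1 : K) ^ i * ((q + 4).choose i : K)) •
      (A ^ i * Y * A ^ (q + 4 - i)) = 0 := by
    have h1 : ∑ i ∈ range (q + 5), ((-1 : K) ^ i * ((q + 4).choose i : K)) •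
      (A ^ i * Y * A ^ (q + 4 - i)) = ((-1 : K) ^ (q + 4)) • ∑ i ∈ range (q + 5),
        ((-1 : K) ^ i * ((q + 4).choose i : K)) • (A ^ (q + 4 - i) * Y * A ^ i) := by
      rw [← Finset.sum_range_reflect, Finset.smul_sum]
      apply Finset.sum_congr rfl
      intro i hi
      simp at hi
      have e1 : q + 5 - 1 - i = q + 4 - i := by omega
      have e2 : q + 4 - (q + 4 - i) = i := by omega
      rw [e1, e2, smul_smul, Nat.choose_symm (by omega)]
      congr 1
      rw [← mul_assoc, ← pow_add]
      congr 1
      have : q + 4 + i = (q + 4 - i) + 2 * i := by omega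
      rw [this, pow_add, pow_mul]
      simp
    rw [h1]
    rw [Rel] at hF
    rw [hF, smul_zero]
  have h := congrArg (A ^ (q + 3 - j) * ·) hF'
  simp only [Finset.mul_sum, mul_smul_comm, mul_zero] at h
  rw [← h]
  apply Finset.sum_subset_zero_on_sdiff
  · intro i hi
    simp at hi ⊢
    omega
  · intro i hi
    simp at hi
    have : A ^ (q + 3 - j) * A ^ i = 0 := by
      rw [← pow_add]
      have : (q + 3 - j) + i = (q + 4) + (i - j - 1) := by omega
      rw [this, pow_add, hA, zero_mul]
    rw [← mul_assoc, ← mul_assoc, this, zero_mul, zero_mul, smul_zero]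
  · intro i _
    rw [add_comm i, pow_add, mul_assoc, mul_assoc, mul_assoc]

end rel

section main
variable {K R : Type*} [Field K] [Ring R] [Algebra K R]

lemma choose2 (m : ℕ) : (m + 2).choose 2 * 2 = (m + 2) * (m + 1) := by
  have := Nat.descFactorial_eq_factorial_mul_choose (m + 2) 2
  simp [Nat.descFactorial_succ, Nat.factorial] at this
  linarith

lemma choose3 (m : ℕ) : (m + 3).choose 3 * 6 = (m + 3) * (m + 2) * (m + 1) := by
  have := Nat.descFactorial_eq_factorial_mul_choose (m + 3) 3
  simp [Nat.descFactorial_succ, Nat.factorial] at this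
  linarith

lemma r00 (A : R) (q : ℕ) (hK : ∀ k : ℕ, 1 ≤ k → k ≤ q + 4 → (k : K) ≠ 0) (hA : A ^ (q + 4) = 0)
    (Y : R) (hF : Rel K A q Y) : A ^ (q + 3) * Y * A ^ (q + 3) = 0 := by
  have h := relR A q hA Y hF 1 (by omega)
  rw [Finset.sum_range_succ, Finset.sum_range_succ, Finset.sum_range_zero] at h
  have e0 : A ^ (q + 4 - 0) = 0 := by simpa using hA
  rw [e0] at h
  simp only [zero_mul, smul_zero, zero_add] at h
  have e1 : q + 4 - 1 = q + 3 := rfl
  have e2 : 1 + (q + 3 - 1) = q + 3 := by omega
  rw [e1, e2, Nat.choose_one_right] at h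
  have hne : ((-1 : K) ^ 1 * ((q + 4 : ℕ) : K)) ≠ 0 := by
    have := hK (q + 4) (by omega) le_rfl
    rw [pow_one, neg_one_mul, neg_ne_zero]
    exact this
  exact (smul_eq_zero.mp h).resolve_left hne

lemma r2R (A : R) (q : ℕ) (hA : A ^ (q + 4) = 0)
    (Y : R) (hF : Rel K A q Y) : ((q + 4 : ℕ) : K) • (A ^ (q + 3) * Y * A ^ (q + 2)) =
      ((q + 4).choose 2 : K) • (A ^ (q + 2) * Y * A ^ (q + 3)) := by
  have h := relR A q hA Y hF 2 (by omega)
  rw [Finset.sum_range_succ, Finset.sum_range_succ, Finset.sum_range_succ,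
    Finset.sum_range_zero] at h
  have e0 : A ^ (q + 4 - 0) = 0 := by simpa using hA
  rw [e0] at h
  simp only [zero_mul, smul_zero, zero_add] at h
  have e1 : q + 4 - 1 = q + 3 := rfl
  have e2 : 1 + (q + 3 - 2) = q + 2 := by omega
  have e3 : q + 4 - 2 = q + 2 := rfl
  have e4 : 2 + (q + 3 - 2) = q + 3 := by omega
  rw [e1, e2, e3, e4, Nat.choose_one_right] at h
  simp only [pow_one, neg_mul, one_mul, even_two, Even.neg_pow, one_pow, neg_smul] at h
  rw [neg_add_eq_zero] at h
  exact h

lemma r2L (A : R) (q : ℕ) (hA : A ^ (q + 4) = 0)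
    (Y : R) (hF : Rel K A q Y) : ((q + 4 : ℕ) : K) • (A ^ (q + 2) * Y * A ^ (q + 3)) =
      ((q + 4).choose 2 : K) • (A ^ (q + 3) * Y * A ^ (q + 2)) := by
  have h := relL A q hA Y hF 2 (by omega)
  rw [Finset.sum_range_succ, Finset.sum_range_succ, Finset.sum_range_succ,
    Finset.sum_range_zero] at h
  have e0 : A ^ (q + 4 - 0) = 0 := by simpa using hA
  rw [e0] at h
  simp only [mul_zero, smul_zero, zero_add] at h
  have e1 : q + 4 - 1 = q + 3 := rfl
  have e2 : 1 + (q + 3 - 2) = q + 2 := by omega
  have e3 : q + 4 - 2 = q + 2 := rfl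
  have e4 : 2 + (q + 3 - 2) = q + 3 := by omega
  rw [e1, e2, e3, e4, Nat.choose_one_right] at h
  simp only [pow_one, neg_mul, one_mul, even_two, Even.neg_pow, one_pow, neg_smul] at h
  rw [neg_add_eq_zero] at h
  exact h

lemma r3R (A : R) (q : ℕ) (hA : A ^ (q + 4) = 0)
    (Y : R) (hF : Rel K A q Y) :
    -(((q + 4 : ℕ) : K) • (A ^ (q + 3) * Y * A ^ (q + 1))) +
      ((q + 4).choose 2 : K) • (A ^ (q + 2) * Y * A ^ (q + 2)) +
      -(((q + 4).choose 3 : K) • (A ^ (q + 1) * Y * A ^ (q + 3))) = 0 := by
  have h := relR A q hA Y hF 3 (by omega)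
  rw [Finset.sum_range_succ, Finset.sum_range_succ, Finset.sum_range_succ,
    Finset.sum_range_succ, Finset.sum_range_zero] at h
  have e0 : A ^ (q + 4 - 0) = 0 := by simpa using hA
  rw [e0] at h
  simp only [zero_mul, smul_zero, zero_add] at h
  have e1 : q + 4 - 1 = q + 3 := rfl
  have e2 : 1 + (q + 3 - 3) = q + 1 := by omega
  have e3 : q + 4 - 2 = q + 2 := rfl
  have e4 : 2 + (q + 3 - 3) = q + 2 := by omega
  have e5 : q + 4 - 3 = q + 1 := rfl
  have e6 : 3 + (q + 3 - 3) = q + 3 := by omega
  rw [e1, e2, e3, e4, e5, e6, Nat.choose_one_right] at h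
  have n3 : (-1 : K) ^ 3 = -1 := by norm_num
  rw [n3] at h
  simp only [pow_one, neg_mul, one_mul, even_two, Even.neg_pow, one_pow, neg_smul] at h
  exact h

/-- `κ = (m-1)/2`. -/
lemma kap (A : R) (q : ℕ) (hK : ∀ k : ℕ, 1 ≤ k → k ≤ q + 4 → (k : K) ≠ 0) (hA : A ^ (q + 4) = 0)
    (Y : R) (hF : Rel K A q Y) :
    A ^ (q + 3) * Y * A ^ (q + 2) = (((q : K) + 3) / 2) • (A ^ (q + 2) * Y * A ^ (q + 3)) ∧
    A ^ (q + 2) * Y * A ^ (q + 3) = (((q : K) + 3) / 2) • (A ^ (q + 3) * Y * A ^ (q + 2)) := by
  have hm : ((q + 4 : ℕ) : K) ≠ 0 := hK (q + 4) (by omega) le_rfl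
  have h2 : (2 : K) ≠ 0 := by
    have := hK 2 (by omega) (by omega)
    exact_mod_cast this
  have hc : ((q + 4).choose 2 : K) = ((q + 4 : ℕ) : K) * (((q : K) + 3) / 2) := by
    have := congrArg (Nat.cast (R := K)) (choose2 (q + 2))
    push_cast at this
    field_simp
    have e : ((q : K) + 2 + 2) = (q : K) + 4 := by ring
    push_cast
    rw [e] at this
    have e' : ((q : K) + 2 + 1) = (q : K) + 3 := by ring
    rw [e'] at this
    exact this
  constructor
  · have h := r2R A q hA Y hF
    rw [hc, mul_smul] at h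
    exact smul_right_injective R hm h
  · have h := r2L A q hA Y hF
    rw [hc, mul_smul] at h
    exact smul_right_injective R hm h

end main

section triple
variable {K R : Type*} [Field K] [Ring R] [Algebra K R]

/-- relation (c) divided by `m`. -/
lemma rc (A : R) (q : ℕ) (hK : ∀ k : ℕ, 1 ≤ k → k ≤ q + 4 → (k : K) ≠ 0) (hA : A ^ (q + 4) = 0)
    (Y : R) (hF : Rel K A q Y) :
    A ^ (q + 3) * Y * A ^ (q + 1) = (((q : K) + 3) / 2) • (A ^ (q + 2) * Y * A ^ (q + 2)) -
      ((((q : K) + 3) * ((q : K) + 2)) / 6) • (A ^ (q + 1) * Y * A ^ (q + 3)) := by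
  have hm : ((q + 4 : ℕ) : K) ≠ 0 := hK (q + 4) (by omega) le_rfl
  have h2 : (2 : K) ≠ 0 := by
    have := hK 2 (by omega) (by omega)
    exact_mod_cast this
  have h3 : (3 : K) ≠ 0 := by
    have := hK 3 (by omega) (by omega)
    exact_mod_cast this
  have h6 : (6 : K) ≠ 0 := by
    have : (6 : K) = 2 * 3 := by norm_num
    rw [this]; exact mul_ne_zero h2 h3
  have hc : ((q + 4).choose 2 : K) = ((q + 4 : ℕ) : K) * (((q : K) + 3) / 2) := by
    have := congrArg (Nat.cast (R := K)) (choose2 (q + 2))
    push_cast at this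
    field_simp
    have e : ((q : K) + 2 + 2) = (q : K) + 4 := by ring
    push_cast
    rw [e] at this
    have e' : ((q : K) + 2 + 1) = (q : K) + 3 := by ring
    rw [e'] at this
    exact this
  have hc3 : ((q + 4).choose 3 : K) =
      ((q + 4 : ℕ) : K) * ((((q : K) + 3) * ((q : K) + 2)) / 6) := by
    have := congrArg (Nat.cast (R := K)) (choose3 (q + 1))
    push_cast at this
    field_simp
    push_cast
    have e : ((q : K) + 1 + 3) = (q : K) + 4 := by ring
    have e' : ((q : K) + 1 + 2) = (q : K) + 3 := by ring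
    have e'' : ((q : K) + 1 + 1) = (q : K) + 2 := by ring
    rw [e, e', e''] at this
    rw [this]
  have h := r3R A q hA Y hF
  rw [hc, hc3, mul_smul, mul_smul] at h
  apply smul_right_injective R hm
  simp only
  rw [smul_sub]
  have := h
  rw [← sub_eq_zero]
  rw [← neg_eq_zero, ← this]
  abel

lemma f020 (A X : R) (q : ℕ) (hK : ∀ k : ℕ, 1 ≤ k → k ≤ q + 4 → (k : K) ≠ 0)
    (hA : A ^ (q + 4) = 0) (hX : Rel K A q X)
    (hY : Rel K A q
      (((LinearMap.mulLeft K A - LinearMap.mulRight K A) ^ (q + 1)) X * X -
        X * ((LinearMap.mulLeft K A - LinearMap.mulRight K A) ^ (q + 1)) X)) :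
    A ^ (q + 3) * X * A ^ (q + 1) * X * A ^ (q + 3) = 0 := by
  have h2 : (2 : K) ≠ 0 := by
    have := hK 2 (by omega) (by omega)
    exact_mod_cast this
  have h3 : (3 : K) ≠ 0 := by
    have := hK 3 (by omega) (by omega)
    exact_mod_cast this
  have h6 : (6 : K) ≠ 0 := by
    have : (6 : K) = 2 * 3 := by norm_num
    rw [this]; exact mul_ne_zero h2 h3
  have hq3 : ((q : K) + 3) ≠ 0 := by
    have := hK (q + 3) (by omega) (by omega)
    push_cast at this; exact this
  have hq2 : ((q : K) + 2) ≠ 0 := by
    have := hK (q + 2) (by omega) (by omega)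
    push_cast at this; exact this
  have hq1 : ((q : K) + 1) ≠ 0 := by
    have := hK (q + 1) (by omega) (by omega)
    push_cast at this; exact this
  have h00 := r00 (K := K) A q hK hA X hX
  by_cases h5 : ((q : K) + 5) = 0
  · -- m + 1 = 0 in K
    have hodd : Odd (q + 1) := by
      by_contra hcon
      rw [Nat.not_odd_iff_even] at hcon
      obtain ⟨s, hs⟩ := hcon
      have h1 : ((s + 2 : ℕ) : K) ≠ 0 := hK (s + 2) (by omega) (by omega)
      apply h1
      have h4 : (2 : K) * ((s + 2 : ℕ) : K) = 0 := by
        have : ((2 * (s + 2) : ℕ) : K) = ((q + 5 : ℕ) : K) := by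
          congr 1; omega
        push_cast at this ⊢
        rw [this]; exact h5
      exact (mul_eq_zero.mp h4).resolve_left h2
    have hz := r00 (K := K) A q hK hA _ hY
    rw [mul_sub, sub_mul] at hz
    have hL : A ^ (q + 3) * ((LinearMap.mulLeft K A - LinearMap.mulRight K A) ^ (q + 1)) X =
        -(A ^ (q + 3) * X * A ^ (q + 1)) := by
      rw [D_pow, Finset.mul_sum, Finset.sum_range_succ, Finset.sum_eq_zero]
      · rw [Nat.choose_self, hodd.neg_one_pow, Nat.sub_self]
        simp
        rw [mul_assoc]
      · intro i hi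
        simp only [Finset.mem_range] at hi
        have : A ^ (q + 3) * A ^ (q + 1 - i) = 0 := by
          rw [← pow_add]
          have : q + 3 + (q + 1 - i) = (q + 4) + (q - i) := by omega
          rw [this, pow_add, hA, zero_mul]
        rw [mul_smul_comm, ← mul_assoc, ← mul_assoc, this, zero_mul, zero_mul, smul_zero]
    have hR : ((LinearMap.mulLeft K A - LinearMap.mulRight K A) ^ (q + 1)) X * A ^ (q + 3) =
        A ^ (q + 1) * X * A ^ (q + 3) := by
      rw [D_pow, Finset.sum_mul, Finset.sum_range_succ', Finset.sum_eq_zero]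
      · simp
      · intro i _
        have : A ^ (i + 1) * A ^ (q + 3) = 0 := by
          rw [← pow_add]
          have : i + 1 + (q + 3) = (q + 4) + i := by omega
          rw [this, pow_add, hA, zero_mul]
        rw [smul_mul_assoc, mul_assoc _ (A ^ (i + 1)), this, mul_zero, smul_zero]
    have e1 : A ^ (q + 3) * (((LinearMap.mulLeft K A - LinearMap.mulRight K A) ^ (q + 1)) X * X) *
        A ^ (q + 3) = -(A ^ (q + 3) * X * A ^ (q + 1) * X * A ^ (q + 3)) := by
      rw [← mul_assoc, hL, neg_mul, neg_mul]
    have e2 : A ^ (q + 3) * (X * ((LinearMap.mulLeft K A - LinearMap.mulRight K A) ^ (q + 1)) X) *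
        A ^ (q + 3) = A ^ (q + 3) * X * A ^ (q + 1) * X * A ^ (q + 3) := by
      rw [mul_assoc, mul_assoc, hR]
      simp only [mul_assoc]
    rw [e1, e2] at hz
    set w := A ^ (q + 3) * X * A ^ (q + 1) * X * A ^ (q + 3) with hw
    have : (2 : K) • w = 0 := by
      rw [two_smul]
      have h' : -w - w = 0 := hz
      have : w + w = -(-w - w) := by abel
      rw [this, h', neg_zero]
    exact (smul_eq_zero.mp this).resolve_left h2
  · obtain ⟨hk1, hk2⟩ := kap (K := K) A q hK hA X hX
    set κ : K := ((q : K) + 3) / 2 with hκ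
    have hx : A ^ (q + 3) * X * A ^ (q + 2) = 0 := by
      have h := hk1
      rw [hk2, smul_smul] at h
      have h' : (1 - κ * κ) • (A ^ (q + 3) * X * A ^ (q + 2)) = 0 := by
        rw [sub_smul, one_smul, ← h, sub_self]
      have hne : (1 - κ * κ) ≠ 0 := by
        have : (1 - κ * κ) = -(((q : K) + 1) * ((q : K) + 5)) / 4 := by
          rw [hκ]
          have h4 : (4 : K) ≠ 0 := by
            have : (4 : K) = 2 * 2 := by norm_num
            rw [this]; exact mul_ne_zero h2 h2
          field_simp
          ring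
        rw [this]
        have h4 : (4 : K) ≠ 0 := by
          have : (4 : K) = 2 * 2 := by norm_num
          rw [this]; exact mul_ne_zero h2 h2
        exact div_ne_zero (neg_ne_zero.mpr (mul_ne_zero hq1 h5)) h4
      exact (smul_eq_zero.mp h').resolve_left hne
    have h := congrArg (A ^ (q + 3) * X * ·) (rc (K := K) A q hK hA X hX)
    simp only [mul_sub, mul_smul_comm] at h
    have z1 : A ^ (q + 3) * X * (A ^ (q + 3) * X * A ^ (q + 1)) = 0 := by
      rw [← mul_assoc, ← mul_assoc, h00, zero_mul, zero_mul]
    have z2 : A ^ (q + 3) * X * (A ^ (q + 2) * X * A ^ (q + 2)) = 0 := by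
      rw [← mul_assoc, ← mul_assoc, hx, zero_mul, zero_mul]
    rw [z1, z2, smul_zero, zero_sub, eq_comm, neg_eq_zero] at h
    have hne : ((((q : K) + 3) * ((q : K) + 2)) / 6) ≠ 0 :=
      div_ne_zero (mul_ne_zero hq3 hq2) h6
    have := (smul_eq_zero.mp h).resolve_left hne
    simpa only [mul_assoc] using this

end triple

section fin
variable {K R : Type*} [Field K] [Ring R] [Algebra K R]

/-- slot with deficit `d`. -/
def E (A : R) (q d : ℕ) : R := A ^ (q + 3 - d)

/-- product of the `X * E d`. -/
def P (A X : R) (q : ℕ) (l : List ℕ) : R := (l.map (fun d => X * E A q d)).prod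

/-- the word `[d0, d1, ...]`. -/
def wd (A X : R) (q : ℕ) : List ℕ → R
  | [] => 1
  | d :: l => E A q d * P A X q l

lemma wd_cons (A X : R) (q d e : ℕ) (l : List ℕ) :
    wd A X q (d :: e :: l) = E A q d * X * wd A X q (e :: l) := by
  simp [wd, P, mul_assoc]

/-- all the relations. -/
structure Pack (K : Type*) {R : Type*} [Field K] [Ring R] [Algebra K R] (A X : R) (q : ℕ) :
    Prop where
  r00 : E A q 0 * X * E A q 0 = 0
  r01 : ∃ κ : K, E A q 0 * X * E A q 1 = κ • (E A q 1 * X * E A q 0) ∧
    E A q 1 * X * E A q 0 = κ • (E A q 0 * X * E A q 1)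
  r020 : E A q 0 * X * E A q 2 * X * E A q 0 = 0
  r011 : E A q 0 * X * E A q 1 * X * E A q 1 = 0
  r110 : E A q 1 * X * E A q 1 * X * E A q 0 = 0

lemma pack (A X : R) (q : ℕ) (hK : ∀ k : ℕ, 1 ≤ k → k ≤ q + 4 → (k : K) ≠ 0)
    (hA : A ^ (q + 4) = 0) (hX : Rel K A q X)
    (hY : Rel K A q
      (((LinearMap.mulLeft K A - LinearMap.mulRight K A) ^ (q + 1)) X * X -
        X * ((LinearMap.mulLeft K A - LinearMap.mulRight K A) ^ (q + 1)) X)) :
    Pack K A X q := by
  have h00 := r00 (K := K) A q hK hA X hX
  have h020 := f020 (K := K) A X q hK hA hX hY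
  have hk := kap (K := K) A q hK hA X hX
  have hc := rc (K := K) A q hK hA X hX
  have h2 : (2 : K) ≠ 0 := by
    have := hK 2 (by omega) (by omega)
    exact_mod_cast this
  have hq3 : ((q : K) + 3) ≠ 0 := by
    have := hK (q + 3) (by omega) (by omega)
    push_cast at this; exact this
  have hκ : ((q : K) + 3) / 2 ≠ 0 := div_ne_zero hq3 h2
  refine ⟨h00, ⟨_, hk⟩, h020, ?_, ?_⟩
  · have h := congrArg (A ^ (q + 3) * X * ·) hc
    simp only [mul_sub, mul_smul_comm] at h
    have z1 : A ^ (q + 3) * X * (A ^ (q + 3) * X * A ^ (q + 1)) = 0 := by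
      rw [← mul_assoc, ← mul_assoc, h00, zero_mul, zero_mul]
    have z2 : A ^ (q + 3) * X * (A ^ (q + 1) * X * A ^ (q + 3)) = 0 := by
      rw [← mul_assoc, ← mul_assoc]; exact h020
    rw [z1, z2, smul_zero, sub_zero, eq_comm] at h
    have := (smul_eq_zero.mp h).resolve_left hκ
    show A ^ (q + 3) * X * A ^ (q + 2) * X * A ^ (q + 2) = 0
    simpa only [mul_assoc] using this
  · have h := congrArg (· * (X * A ^ (q + 3))) hc
    simp only [sub_mul, smul_mul_assoc] at h
    have z1 : A ^ (q + 3) * X * A ^ (q + 1) * (X * A ^ (q + 3)) = 0 := by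
      rw [← mul_assoc]; exact h020
    have z2 : A ^ (q + 1) * X * A ^ (q + 3) * (X * A ^ (q + 3)) = 0 := by
      rw [mul_assoc (A ^ (q + 1) * X), ← mul_assoc (A ^ (q + 3)), h00, mul_zero]
    rw [z1, z2, smul_zero, sub_zero, eq_comm] at h
    have := (smul_eq_zero.mp h).resolve_left hκ
    show A ^ (q + 2) * X * A ^ (q + 2) * X * A ^ (q + 3) = 0
    simpa only [mul_assoc] using this

lemma claim3 (A X : R) (q : ℕ) (h : Pack K A X q) (a b c : ℕ) (hs : a + b + c ≤ 2) :
    E A q a * X * E A q b * X * E A q c = 0 := by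
  obtain ⟨κ, h01, h10⟩ := h.r01
  have r00 := h.r00
  rcases a with _ | a
  · rcases b with _ | b
    · rw [r00, zero_mul, zero_mul]
    · rcases b with _ | b
      · rcases c with _ | c
        · show E A q 0 * X * E A q 1 * X * E A q 0 = 0
          rw [h01, smul_mul_assoc, smul_mul_assoc, mul_assoc (E A q 1 * X),
            mul_assoc (E A q 1 * X), r00, mul_zero, smul_zero]
        · have : c = 0 := by omega
          subst this
          exact h.r011
      · have h1 : b = 0 := by omega
        have h2 : c = 0 := by omega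
        subst h1; subst h2
        exact h.r020
  · rcases a with _ | a
    · rcases b with _ | b
      · rcases c with _ | c
        · show E A q 1 * X * E A q 0 * X * E A q 0 = 0
          rw [mul_assoc, mul_assoc, ← mul_assoc (E A q 0), r00, mul_zero]
        · have : c = 0 := by omega
          subst this
          show E A q 1 * X * E A q 0 * X * E A q 1 = 0
          rw [mul_assoc, mul_assoc, ← mul_assoc (E A q 0), h01, mul_smul_comm, ← mul_assoc,
            ← mul_assoc, h.r110, smul_zero]
      · have h1 : b = 0 := by omega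
        have h2 : c = 0 := by omega
        subst h1; subst h2
        exact h.r110
    · have h0 : a = 0 := by omega
      have h1 : b = 0 := by omega
      have h2 : c = 0 := by omega
      subst h0; subst h1; subst h2
      show E A q 2 * X * E A q 0 * X * E A q 0 = 0
      rw [mul_assoc, mul_assoc, ← mul_assoc (E A q 0), r00, mul_zero]

lemma claim (A X : R) (q : ℕ) (h : Pack K A X q) : ∀ n, 3 ≤ n → ∀ l : List ℕ, l.length = n →
    l.sum ≤ n - 1 → wd A X q l = 0 := by
  intro n
  induction n using Nat.strong_induction_on with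
  | _ n ih =>
    intro hn l hl hs
    obtain ⟨κ, h01, h10⟩ := h.r01
    by_cases h3 : n = 3
    · subst h3
      match l, hl with
      | [a, b, c], _ =>
        simp at hs
        have := claim3 A X q h a b c (by omega)
        simp only [wd, P, List.map_cons, List.map_nil, List.prod_cons, List.prod_nil, mul_one]
        simpa only [mul_assoc] using this
    · rcases l with _ | ⟨a, _ | ⟨b, t⟩⟩
      · simp at hl; omega
      · simp at hl; omega
      · simp at hl hs
        rcases a with _ | a
        · rcases b with _ | b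
          · rw [wd_cons]
            simp only [wd]
            rw [← mul_assoc, h.r00, zero_mul]
          · rcases b with _ | b
            · -- (0,1) -> (1,0)
              have ht := ih (n - 1) (by omega) (by omega) (0 :: t) (by simp; omega)
                (by simp; omega)
              rw [wd_cons]
              simp only [wd] at ht ⊢
              rw [← mul_assoc, show E A q 0 * X * E A q (0 + 1) = κ • (E A q 1 * X * E A q 0) from h01,
                smul_mul_assoc, mul_assoc, ht, mul_zero, smul_zero]
            · by_cases h4 : n = 4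
              · -- t = [c, d]
                rcases t with _ | ⟨c, _ | ⟨d, _ | ⟨e, t⟩⟩⟩
                · simp at hl; omega
                · simp at hl; omega
                swap
                · simp at hl; omega
                · simp at hs
                  rcases c with _ | c
                  · -- c = 0
                    rcases b with _ | b
                    · have h020 := h.r020
                      simp only [wd, P, List.map_cons, List.map_nil, List.prod_cons,
                        List.prod_nil, mul_one]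
                      have e : E A q 0 * (X * E A q (0 + 1 + 1) * (X * E A q 0 * (X * E A q d))) =
                        (E A q 0 * X * E A q 2 * X * E A q 0) * (X * E A q d) := by
                        simp only [mul_assoc]
                      rw [e, h020, zero_mul]
                    · have hd : d = 0 := by omega
                      subst hd
                      simp only [wd, P, List.map_cons, List.map_nil, List.prod_cons,
                        List.prod_nil, mul_one]
                      have e : E A q 0 * (X * E A q (b + 1 + 1 + 1) *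
                          (X * E A q 0 * (X * E A q 0))) =
                        (E A q 0 * X * E A q (b + 1 + 1 + 1) * X) * (E A q 0 * X * E A q 0) := by
                        simp only [mul_assoc]
                      rw [e, h.r00, mul_zero]
                  · have hc : c = 0 := by omega
                    have hd : d = 0 := by omega
                    have hb : b = 0 := by omega
                    subst hc; subst hd; subst hb
                    simp only [wd, P, List.map_cons, List.map_nil, List.prod_cons,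
                        List.prod_nil, mul_one]
                    have e : E A q 0 * (X * E A q (0 + 1 + 1) *
                        (X * E A q (0 + 1) * (X * E A q 0))) =
                      (E A q 0 * X * E A q 2 * X) * (E A q 1 * X * E A q 0) := by
                      simp only [mul_assoc]
                    rw [e, h10, mul_smul_comm]
                    have e' : (E A q 0 * X * E A q 2 * X) * (E A q 0 * X * E A q 1) =
                      (E A q 0 * X * E A q 2 * X * E A q 0) * (X * E A q 1) := by
                      simp only [mul_assoc]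
                    rw [e', h.r020, zero_mul, smul_zero]
              · rcases t with _ | ⟨c, t⟩
                · simp at hl; omega
                · simp at hl hs
                  have ht := ih (n - 2) (by omega) (by omega) (c :: t) (by simp; omega)
                    (by simp; omega)
                  rw [wd_cons, wd_cons, ht, mul_zero, mul_zero]
        · have ht := ih (n - 1) (by omega) (by omega) (b :: t) (by simp; omega)
            (by simp; omega)
          rw [wd_cons, ht, mul_zero]

lemma span_pow (A X : R) (q : ℕ) (hA : A ^ (q + 4) = 0) (j : ℕ) :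
    ((((LinearMap.mulLeft K A - LinearMap.mulRight K A) ^ (q + 3)) X) ^ j) ∈
      Submodule.span K {w : R | ∃ l : List ℕ, l.length = j + 1 ∧ l.sum = q + 3 ∧
        w = wd A X q l} := by
  induction j with
  | zero =>
    apply Submodule.subset_span
    refine ⟨[q + 3], rfl, by simp, ?_⟩
    simp [wd, E, P]
  | succ j ih =>
    rw [pow_succ']
    set b := ((LinearMap.mulLeft K A - LinearMap.mulRight K A) ^ (q + 3)) X with hb
    refine Submodule.span_induction (p := fun w _ => b * w ∈ Submodule.span K
      {w : R | ∃ l : List ℕ, l.length = j + 1 + 1 ∧ l.sum = q + 3 ∧ w = wd A X q l})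
      ?_ ?_ ?_ ?_ ih
    · rintro w ⟨l, hl, hs, rfl⟩
      match l, hl with
      | d :: t, hl =>
        rw [hb, D_pow, Finset.sum_mul]
        apply Submodule.sum_mem
        intro i hi
        simp only [Finset.mem_range] at hi
        rw [smul_mul_assoc]
        apply Submodule.smul_mem
        simp at hl hs
        by_cases hid : i ≤ d
        · apply Submodule.subset_span
          refine ⟨i :: (d - i) :: t, by simp; omega, by simp; omega, ?_⟩
          rw [wd_cons]
          simp only [wd, E]
          have e : A ^ i * A ^ (q + 3 - d) = A ^ (q + 3 - (d - i)) := by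
            rw [← pow_add]
            congr 1
            omega
          rw [← e]
          simp only [mul_assoc]
        · have e : A ^ i * A ^ (q + 3 - d) = 0 := by
            rw [← pow_add]
            have : i + (q + 3 - d) = (q + 4) + (i - d - 1) := by omega
            rw [this, pow_add, hA, zero_mul]
          have : A ^ (q + 3 - i) * X * A ^ i * wd A X q (d :: t) = 0 := by
            simp only [wd, E]
            have e2 : A ^ (q + 3 - i) * X * A ^ i * (A ^ (q + 3 - d) * P A X q t) =
              A ^ (q + 3 - i) * X * (A ^ i * A ^ (q + 3 - d)) * P A X q t := by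
              simp only [mul_assoc]
            rw [e2, e, mul_zero, zero_mul]
          rw [this]
          exact Submodule.zero_mem _
    · rw [mul_zero]; exact Submodule.zero_mem _
    · intro x y _ _ hx hy
      rw [mul_add]; exact Submodule.add_mem _ hx hy
    · intro c x _ hx
      rw [mul_smul_comm]; exact Submodule.smul_mem _ _ hx

theorem ring_desc (A X : R) (q : ℕ) (hK : ∀ k : ℕ, 1 ≤ k → k ≤ q + 4 → (k : K) ≠ 0)
    (hA : A ^ (q + 4) = 0) (hX : Rel K A q X)
    (hY : Rel K A q
      (((LinearMap.mulLeft K A - LinearMap.mulRight K A) ^ (q + 1)) X * X -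
        X * ((LinearMap.mulLeft K A - LinearMap.mulRight K A) ^ (q + 1)) X)) :
    (((LinearMap.mulLeft K A - LinearMap.mulRight K A) ^ (q + 3)) X) ^ (q + 3) = 0 := by
  have hp := pack (K := K) A X q hK hA hX hY
  have hs := span_pow (K := K) A X q hA (q + 3)
  have h0 : {w : R | ∃ l : List ℕ, l.length = q + 3 + 1 ∧ l.sum = q + 3 ∧ w = wd A X q l} ⊆
      ((⊥ : Submodule K R) : Set R) := by
    rintro w ⟨l, hl, hs, rfl⟩
    have := claim A X q hp (q + 4) (by omega) l hl (by omega)
    rw [this]
    simp
  have := Submodule.span_le.mpr h0 hs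
  simpa using this

end fin

end DescX

theorem desc_proof : ∀ (K L : Type) [Field K] [LieRing L] [LieAlgebra K L] (m : ℕ), 4 ≤ m →
    (∀ k : ℕ, 1 ≤ k → k ≤ m → (k : K) ≠ 0) → ∀ a : L, adE K L a ^ m = 0 → ∀ x : L,
    adE K L ((adE K L a ^ (m - 1)) x) ^ (m - 1) = 0 := by
  intro K L _ _ _ m hm hK a ha x
  obtain ⟨q, rfl⟩ : ∃ q, m = q + 4 := ⟨m - 4, by omega⟩
  have hrel : ∀ y : L, DescX.Rel K (adE K L a) q (adE K L y) := by
    intro y
    have := DescX.ad_pow (K := K) a y (q + 4)
    rw [ha] at this
    rw [DescX.Rel, ← this]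
    simp
  have hb : adE K L ((adE K L a ^ (q + 3)) x) =
      ((LinearMap.mulLeft K (adE K L a) - LinearMap.mulRight K (adE K L a)) ^ (q + 3))
        (adE K L x) := DescX.ad_D a (q + 3) x
  have hY := hrel ⁅(adE K L a ^ (q + 1)) x, x⁆
  have hY' : adE K L ⁅(adE K L a ^ (q + 1)) x, x⁆ =
      ((LinearMap.mulLeft K (adE K L a) - LinearMap.mulRight K (adE K L a)) ^ (q + 1))
        (adE K L x) * adE K L x - adE K L x *
      ((LinearMap.mulLeft K (adE K L a) - LinearMap.mulRight K (adE K L a)) ^ (q + 1))
        (adE K L x) := by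
    rw [← DescX.ad_D a (q + 1) x]
    simp [Ring.lie_def]
  rw [hY'] at hY
  show adE K L ((adE K L a ^ (q + 3)) x) ^ (q + 3) = 0
  rw [hb]
  exact DescX.ring_desc (K := K) _ _ q hK ha (hrel x) hY

end Pool.Agent.KOS
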