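import Pool.Agent.KOS.StmtsB

set_option autoImplicit false

/-! Squad KOS, module PJ: bracket of polynomial curves. -/

namespace Pool.Agent.KOS

theorem pj_proof : Stmt_PJ := by
  intro K L _ _ _
  refine ⟨?_, ?_⟩
  · intro x y
    refine ⟨2, fun i => if i = 0 then x else y, le_rfl, by simp, by simp, ?_⟩
    intro t
    simp [Finset.sum_range_succ]
  · rintro q r u w u' w' ⟨d, c, hd, h0, h1, hc⟩ ⟨d', c', hd', h0', h1', hc'⟩
    -- padded coefficients
    let C : ℕ → L := fun i => if i < d then c i else 0
    let C' : ℕ → L := fun i => if i < d' then c' i else 0
    refine ⟨d + d', fun n => ∑ p ∈ Finset.HasAntidiagonal.antidiagonal n, ⁅C p.1, C' p.2⁆, by omega, ?_, ?_, ?_⟩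
    · have e1 : 0 < d := by omega
      have e2 : 0 < d' := by omega
      simp [C, C', e1, e2, h0, h0']
    · have e1 : 0 < d := by omega
      have e2 : 0 < d' := by omega
      have e3 : 1 < d := by omega
      have e4 : 1 < d' := by omega
      have : Finset.HasAntidiagonal.antidiagonal 1 = {((0 : ℕ), 1), (1, 0)} := by decide
      simp only [this]
      rw [Finset.sum_pair (by decide)]
      simp [C, C', e1, e2, e3, e4, h0, h0', h1, h1', add_comm]
    · intro t
      have hq : q t = ∑ i ∈ Finset.range d, t ^ i • C i := by
        rw [hc t]
        refine Finset.sum_congr rfl ?_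
        intro i hi
        simp [C, Finset.mem_range.1 hi]
      have hr : r t = ∑ i ∈ Finset.range d', t ^ i • C' i := by
        rw [hc' t]
        refine Finset.sum_congr rfl ?_
        intro i hi
        simp [C', Finset.mem_range.1 hi]
      show ⁅q t, r t⁆ = _
      rw [hq, hr]
      rw [sum_lie_sum, ← Finset.sum_product']
      rw [← Finset.sum_fiberwise_of_maps_to (s := Finset.range d ×ˢ Finset.range d')
        (t := Finset.range (d + d')) (g := fun p => p.1 + p.2)]
      · refine Finset.sum_congr rfl ?_
        intro n _
        rw [Finset.smul_sum]
        have hs : (Finset.range d ×ˢ Finset.range d').filter (fun p => p.1 + p.2 = n) ⊆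
            Finset.HasAntidiagonal.antidiagonal n := by
          intro p hp
          simp only [Finset.mem_filter] at hp
          simpa using hp.2
        rw [← Finset.sum_subset hs]
        · refine Finset.sum_congr rfl ?_
          intro p hp
          simp only [Finset.mem_filter] at hp
          rw [smul_lie, lie_smul, smul_smul, ← pow_add, hp.2]
        · intro p hp hp'
          rw [Finset.HasAntidiagonal.mem_antidiagonal] at hp
          simp only [Finset.mem_filter, Finset.mem_product, Finset.mem_range, not_and] at hp'
          by_cases h1 : p.1 < d
          · by_cases h2 : p.2 < d'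
            · exact absurd hp (hp' ⟨h1, h2⟩)
            · simp [C', h2]
          · simp [C, h1]
      · intro p hp
        simp only [Finset.mem_product, Finset.mem_range] at hp ⊢
        omega

end Pool.Agent.KOS
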