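import Pool.Agent.KOS.StmtsB
import Pool.Agent.KOS.PJ
import Pool.Agent.KOS.Desc

set_option autoImplicit false

/-! Modules STAB and CHAIN0 (written by helper61 as a backup). -/

namespace Pool.Agent.KOS.Stab0X

variable {K L : Type} [Field K] [LieRing L] [LieAlgebra K L]

theorem adE_apply (a x : L) : adE K L a x = ⁅a, x⁆ := rfl

theorem jet_lie (hPJ : Stmt_PJ) {q r : K → L} {u v y : L} (h1 : PJ K q u ⁅u, y⁆)
    (h2 : PJ K r v ⁅v, y⁆) : PJ K (fun t : K => ⁅q t, r t⁆) ⁅u, v⁆ ⁅⁅u, v⁆, y⁆ := by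
  have h := (hPJ K L).2 q r u ⁅u, y⁆ v ⁅v, y⁆ h1 h2
  have e : ⁅⁅u, y⁆, v⁆ + ⁅u, ⁅v, y⁆⁆ = ⁅⁅u, v⁆, y⁆ := by
    rw [leibniz_lie u v y]
    have h3 : ⁅⁅u, y⁆, v⁆ = -⁅v, ⁅u, y⁆⁆ := (lie_skew ⁅u, y⁆ v).symm
    rw [h3]
    abel
  rwa [e] at h

theorem jet_pow (hPJ : Stmt_PJ) {q r : K → L} {u v y : L} (h1 : PJ K q u ⁅u, y⁆)
    (h2 : PJ K r v ⁅v, y⁆) (k : ℕ) :
    PJ K (fun t : K => (adE K L (q t) ^ k) (r t)) ((adE K L u ^ k) v) ⁅(adE K L u ^ k) v, y⁆ := by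
  induction k with
  | zero => simpa using h2
  | succ k ih =>
    have h3 := jet_lie hPJ h1 ih
    have e : ∀ (a x : L), (adE K L a ^ (k + 1)) x = ⁅a, (adE K L a ^ k) x⁆ := by
      intro a x
      rw [pow_succ']
      rfl
    simp only [e]
    exact h3

theorem stab_proof' (hPJ : Stmt_PJ) : Stmt_Stab := by
  intro K L _ _ _
  have hline : ∀ v y : L, PJ K (fun t : K => v + t • ⁅v, y⁆) v ⁅v, y⁆ := fun v y =>
    (hPJ K L).1 v ⁅v, y⁆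
  refine ⟨fun v _ y => ⟨_, fun t => Set.mem_univ _, hline v y⟩, ?_⟩
  intro V hV k
  constructor
  · rintro z ⟨a, ha, x, rfl⟩ y
    obtain ⟨q, hq, hq1⟩ := hV a ha y
    exact ⟨_, fun t => ⟨q t, hq t, _, rfl⟩, jet_pow hPJ hq1 (hline x y) k⟩
  · rintro z ⟨a, ha, x, rfl⟩ y
    obtain ⟨q, hq, hq1⟩ := hV a ha y
    exact ⟨_, fun t => ⟨q t, hq t, _, rfl⟩, jet_pow hPJ (jet_lie hPJ hq1 (hline x y)) hq1 k⟩

theorem chain0_aux (hS : Stmt_Stab) (n : ℕ) : ∀ m : ℕ, m ≤ n →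
    (∀ k : ℕ, 1 ≤ k → k ≤ n → (k : K) ≠ 0) →
    (∃ V : Set L, Stab K V ∧ (∃ v ∈ V, v ≠ 0) ∧ ∀ v ∈ V, adE K L v ^ m = 0) →
    ∃ V : Set L, Stab K V ∧ (∃ v ∈ V, v ≠ 0) ∧ ∀ v ∈ V, adE K L v ^ 3 = 0 := by
  intro m
  induction m with
  | zero =>
    rintro _ _ ⟨V, h1, h2, h3⟩
    refine ⟨V, h1, h2, fun v hv => ?_⟩
    have h4 := h3 v hv
    rw [pow_zero] at h4
    calc adE K L v ^ 3 = adE K L v ^ 3 * 1 := (mul_one _).symm
      _ = 0 := by rw [h4, mul_zero]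
  | succ m ih =>
    rintro hm hk ⟨V, h1, h2, h3⟩
    by_cases hm3 : m + 1 ≤ 3
    · refine ⟨V, h1, h2, fun v hv => ?_⟩
      have e : adE K L v ^ 3 = adE K L v ^ (3 - (m + 1)) * adE K L v ^ (m + 1) := by
        rw [← pow_add]
        congr 1
        omega
      rw [e, h3 v hv, mul_zero]
    · by_cases hall : ∀ v ∈ V, adE K L v ^ m = 0
      · exact ih (by omega) hk ⟨V, h1, h2, hall⟩
      · push Not at hall
        obtain ⟨a, ha, hne⟩ := hall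
        refine ih (by omega) hk ⟨_, ((hS K L).2 V h1 m).1, ?_, ?_⟩
        · by_contra hc
          apply hne
          ext x
          by_contra hx
          exact hc ⟨_, ⟨a, ha, x, rfl⟩, hx⟩
        · rintro z ⟨b, hb, x, rfl⟩
          have h5 := desc_proof K L (m + 1) (by omega) (fun k hk1 hk2 => hk k hk1 (by omega)) b
            (h3 b hb) x
          simpa using h5

theorem chain0_proof' (hS : Stmt_Stab) : Stmt_Chain0 := by
  intro K L _ _ _ _ n hk hn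
  obtain ⟨v, hv⟩ := exists_ne (0 : L)
  exact chain0_aux hS n n le_rfl hk ⟨Set.univ, (hS K L).1, ⟨v, Set.mem_univ _, hv⟩,
    fun v _ => hn v⟩

end Pool.Agent.KOS.Stab0X
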