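import Pool.Agent.KOS.AllA
import Pool.Agent.KOS.Stab0
import Pool.Agent.KOS.JLin
import Pool.Agent.KOS.JD

set_option autoImplicit false

/-! Kostrikin's theorem (positive solution of the restricted Burnside problem for prime exponent
`p ≥ 5`), complete proof of squad KOS. -/

namespace Pool.Agent.KOS

theorem allStab : Stmt_Stab := Stab0X.stab_proof' pj_proof

theorem allChain' : Stmt_Chain :=
  allChain (Stab0X.chain0_proof' allStab) allStab (jLin_proof (jd_proof jet_proof))

/-- Kostrikin's theorem -/
theorem kostrikin : Stmt_Kostrikin := allKostrikin allChain'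

/-- the interface used by the reduction for MP_f313b9_al -/
theorem kos_sch (p : ℕ) (hp : p.Prime) (h5 : 5 ≤ p) : Pool.Agent.SCH.Stmt_Kos p :=
  toSch kostrikin p hp h5

end Pool.Agent.KOS
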