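import Pool.Agent.KOS.StmtsA

set_option autoImplicit false

namespace Pool.Agent.KOS

attribute [local instance 100] LieRing.ofAssociativeRing

namespace AssocX

section Multi
variable {K U : Type} [Field K] [Ring U] [Algebra K U]

/-- a multilinear map which vanishes on a set vanishes on its span. -/
theorem multi_span {n : ℕ} (f : MultilinearMap K (fun _ : Fin n => U) U) (S : Set U)
    (h : ∀ c : Fin n → U, (∀ i, c i ∈ S) → f c = 0) :
    ∀ c : Fin n → U, (∀ i, c i ∈ Submodule.span K S) → f c = 0 := by
  classical
  have key : ∀ s : Finset (Fin n), ∀ c : Fin n → U, (∀ i ∈ s, c i ∈ Submodule.span K S) →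
      (∀ i, i ∉ s → c i ∈ S) → f c = 0 := by
    intro s
    induction s using Finset.induction_on with
    | empty => intro c _ h2; exact h c (fun i => h2 i (by simp))
    | insert j s hj ih =>
      intro c h1 h2
      have h3 : ∀ v ∈ Submodule.span K S, f (Function.update c j v) = 0 := by
        intro v hv
        induction hv using Submodule.span_induction with
        | mem v hv =>
          refine ih _ ?_ ?_
          · intro i hi
            have hij : i ≠ j := fun e => hj (e ▸ hi)
            rw [Function.update_of_ne hij]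
            exact h1 i (Finset.mem_insert_of_mem hi)
          · intro i hi
            by_cases hij : i = j
            · subst hij
              rw [Function.update_self]
              exact hv
            · rw [Function.update_of_ne hij]
              exact h2 i (by simp [hij, hi])
        | zero => exact MultilinearMap.map_update_zero f c j
        | add a b _ _ ha hb => rw [MultilinearMap.map_update_add, ha, hb, add_zero]
        | smul k a _ ha => rw [MultilinearMap.map_update_smul, ha, smul_zero]
      have h4 := h3 (c j) (h1 j (Finset.mem_insert_self _ _))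
      rwa [Function.update_eq_self] at h4
  intro c hc
  exact key Finset.univ c (fun i _ => hc i) (fun i hi => absurd (Finset.mem_univ i) hi)

/-- the symmetrised product as a multilinear map. -/
noncomputable def symP (K U : Type) [Field K] [Ring U] [Algebra K U] (n : ℕ) :
    MultilinearMap K (fun _ : Fin n => U) U :=
  ∑ σ : Equiv.Perm (Fin n), (MultilinearMap.mkPiAlgebraFin K n U).domDomCongr σ

theorem symP_apply (n : ℕ) (c : Fin n → U) :
    symP K U n c = ∑ σ : Equiv.Perm (Fin n), (List.ofFn (fun i => c (σ i))).prod := by
  unfold symP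
  rw [sum_apply]
  rfl

end Multi

section Prod
variable {U : Type} [Ring U]

theorem prod_ite (u y : U) : ∀ (n : ℕ) (k : ℕ), k ≤ n →
    (List.ofFn (fun i : Fin (n + 1) => if (i : ℕ) = k then y else u)).prod =
      u ^ k * y * u ^ (n - k) := by
  intro n
  induction n with
  | zero =>
    intro k hk
    obtain rfl : k = 0 := by omega
    simp
  | succ n ih =>
    intro k hk
    rw [List.ofFn_succ, List.prod_cons]
    cases k with
    | zero =>
      have h1 : (fun i : Fin (n + 1) => if ((i.succ : Fin (n + 1 + 1)) : ℕ) = 0 then y else u) =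
          fun _ => u := by
        funext i
        simp
      rw [h1]
      simp [pow_succ']
    | succ k =>
      have h1 : (fun i : Fin (n + 1) => if ((i.succ : Fin (n + 1 + 1)) : ℕ) = k + 1 then y else u) =
          fun i : Fin (n + 1) => if (i : ℕ) = k then y else u := by
        funext i
        simp
      rw [h1, ih k (by omega)]
      have h2 : ((0 : Fin (n + 1 + 1)) : ℕ) ≠ k + 1 := by simp
      rw [if_neg h2, pow_succ', Nat.add_sub_add_right]
      noncomm_ring

end Prod

section Sym
variable {U : Type} [Ring U]

theorem sym_uy (n : ℕ) (u y : U) :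
    ∑ σ : Equiv.Perm (Fin (n + 1)), (List.ofFn (fun i => if σ i = 0 then y else u)).prod =
      (n.factorial : U) * ∑ k ∈ Finset.range (n + 1), u ^ k * y * u ^ (n - k) := by
  have h1 : ∀ σ : Equiv.Perm (Fin (n + 1)),
      (List.ofFn (fun i => if σ i = 0 then y else u)).prod =
        (fun k : Fin (n + 1) => u ^ (k : ℕ) * y * u ^ (n - k)) (σ.symm 0) := by
    intro σ
    have h2 : (fun i => if σ i = 0 then y else u) =
        fun i : Fin (n + 1) => if (i : ℕ) = ((σ.symm 0 : Fin (n + 1)) : ℕ) then y else u := by
      funext i
      have : σ i = 0 ↔ (i : ℕ) = ((σ.symm 0 : Fin (n + 1)) : ℕ) := by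
        rw [← Fin.ext_iff, Equiv.eq_symm_apply]
      simp only [this]
    rw [h2, prod_ite u y n _ (by omega)]
  rw [Finset.sum_congr rfl (fun σ _ => h1 σ)]
  have h3 : ∑ σ : Equiv.Perm (Fin (n + 1)),
      (fun k : Fin (n + 1) => u ^ (k : ℕ) * y * u ^ (n - k)) (σ.symm 0) =
      ∑ σ : Equiv.Perm (Fin (n + 1)),
      (fun k : Fin (n + 1) => u ^ (k : ℕ) * y * u ^ (n - k)) (σ 0) :=
    Equiv.sum_comp (Equiv.inv (Equiv.Perm (Fin (n + 1))))
      (fun σ => (fun k : Fin (n + 1) => u ^ (k : ℕ) * y * u ^ (n - k)) (σ 0))
  rw [h3, ← Equiv.sum_comp (Equiv.Perm.decomposeFin (n := n)).symm, Fintype.sum_prod_type]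
  simp only [Equiv.Perm.decomposeFin_symm_apply_zero]
  simp only [Finset.sum_const, Finset.card_univ, Fintype.card_perm, Fintype.card_fin]
  rw [← Finset.smul_sum, nsmul_eq_mul, Finset.sum_range]

end Sym

section Ad
variable {K U : Type} [Field K] [Ring U] [Algebra K U]

theorem choose_cast (p : ℕ) [Fact p.Prime] [CharP K p] : ∀ a : ℕ, a ≤ p - 1 →
    (((p - 1).choose a : ℕ) : K) = (-1) ^ a := by
  have hp := (Fact.out : p.Prime)
  intro a
  induction a with
  | zero => intro _; simp
  | succ a ih =>
    intro ha
    have h1 : p.choose (a + 1) = (p - 1).choose a + (p - 1).choose (a + 1) := by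
      have : p = (p - 1) + 1 := by have := hp.one_lt; omega
      conv_lhs => rw [this]
      exact Nat.choose_succ_succ _ _
    have h2 : ((p.choose (a + 1) : ℕ) : K) = 0 := by
      rw [CharP.cast_eq_zero_iff K p]
      exact hp.dvd_choose_self (by omega) (by have := hp.one_lt; omega)
    rw [h1, Nat.cast_add, ih (by omega)] at h2
    rw [pow_succ]
    linear_combination h2

theorem ad_pow (p : ℕ) [Fact p.Prime] [CharP K p] (u y : U) :
    (LieAlgebra.ad K U u ^ (p - 1)) y =
      ∑ k ∈ Finset.range (p - 1 + 1), u ^ k * y * u ^ (p - 1 - k) := by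
  have hp := (Fact.out : p.Prime)
  have h1 : LieAlgebra.ad K U u = LinearMap.mulLeft K u + -LinearMap.mulRight K u := by
    ext z
    simp [LieRing.of_associative_ring_bracket, sub_eq_add_neg]
  have h2 : Commute (LinearMap.mulLeft K u) (-LinearMap.mulRight K u) :=
    (LinearMap.commute_mulLeft_right (R := K) u u).neg_right
  rw [h1, h2.add_pow, LinearMap.sum_apply]
  refine Finset.sum_congr rfl ?_
  intro k hk
  rw [Finset.mem_range] at hk
  have h3 : (-LinearMap.mulRight K u) ^ (p - 1 - k) =
      ((-1 : K) ^ (p - 1 - k)) • LinearMap.mulRight K (u ^ (p - 1 - k)) := by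
    rw [← LinearMap.pow_mulRight, neg_eq_neg_one_mul]
    have : (-1 : Module.End K U) * LinearMap.mulRight K u = (-1 : K) • LinearMap.mulRight K u := by
      simp
    rw [this, smul_pow]
  rw [h3, LinearMap.pow_mulLeft]
  have h5 : (((p - 1).choose k : ℕ) : K) = (-1) ^ (p - 1 - k) := by
    rw [← Nat.choose_symm (by omega : k ≤ p - 1)]
    exact choose_cast p _ (by omega)
  have h6 : ∀ z : U, ((((p - 1).choose k : ℕ) : Module.End K U)) z = ((-1 : K) ^ (p - 1 - k)) • z := by
    intro z
    rw [← h5, Module.End.natCast_apply, Nat.cast_smul_eq_nsmul]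
  rw [Module.End.mul_apply, Module.End.mul_apply, h6]
  simp only [LinearMap.smul_apply, LinearMap.mulRight_apply, LinearMap.mulLeft_apply]
  rw [smul_mul_assoc, smul_smul, ← mul_pow]
  simp [mul_assoc]

end Ad

section Lc
variable {K U : Type} [Field K] [Ring U] [Algebra K U] {r : ℕ} (x : Fin r → U)

/-- left normed commutators. -/
def ln (w : List (Fin r)) (j : Fin r) : U := w.foldr (fun i z => x i * z - z * x i) (x j)

/-- spanned by the left normed commutators of weight `m`. -/
def WW (K : Type) {U : Type} [Field K] [Ring U] [Algebra K U] {r : ℕ} (x : Fin r → U) (m : ℕ) :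
    Submodule K U :=
  Submodule.span K {z | ∃ (w : List (Fin r)) (j : Fin r), w.length + 1 = m ∧ z = ln x w j}

theorem WW_gen_lie (i : Fin r) (n : ℕ) (b : U) (hb : b ∈ WW K x n) :
    x i * b - b * x i ∈ WW K x (n + 1) := by
  induction hb using Submodule.span_induction with
  | mem b hb =>
    obtain ⟨w, j, hw, rfl⟩ := hb
    refine Submodule.subset_span ⟨i :: w, j, ?_, rfl⟩
    simp only [List.length_cons]; omega
  | zero => simp
  | add a b _ _ ha hb =>
    have : x i * (a + b) - (a + b) * x i = (x i * a - a * x i) + (x i * b - b * x i) := by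
      noncomm_ring
    rw [this]
    exact Submodule.add_mem _ ha hb
  | smul k a _ ha =>
    have : x i * (k • a) - (k • a) * x i = k • (x i * a - a * x i) := by
      rw [mul_smul_comm, smul_mul_assoc, smul_sub]
    rw [this]
    exact Submodule.smul_mem _ _ ha

theorem WW_lie : ∀ (m n : ℕ) (a b : U), a ∈ WW K x m → b ∈ WW K x n →
    a * b - b * a ∈ WW K x (m + n) := by
  intro m
  induction m with
  | zero =>
    intro n a b ha hb
    have h0 : WW K x 0 = ⊥ := by
      unfold WW
      rw [Submodule.span_eq_bot]
      rintro z ⟨w, j, hw, -⟩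
      omega
    rw [h0, Submodule.mem_bot] at ha
    subst ha
    simp
  | succ m ih =>
    intro n a b ha hb
    induction ha using Submodule.span_induction with
    | mem a ha =>
      obtain ⟨w, j, hw, rfl⟩ := ha
      cases w with
      | nil =>
        have hm : m = 0 := by simpa using hw.symm
        subst hm
        have h1 := WW_gen_lie (K := K) x j n b hb
        rw [show 0 + 1 + n = n + 1 by omega]
        exact h1
      | cons i w =>
        have hw' : w.length + 1 = m := by simpa using hw
        have ha' : ln x w j ∈ WW K x m := Submodule.subset_span ⟨w, j, hw', rfl⟩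
        have e : ln x (i :: w) j = x i * ln x w j - ln x w j * x i := rfl
        rw [e]
        set z := ln x w j with hz
        have h1 := WW_gen_lie (K := K) x i _ _ (ih n z b ha' hb)
        have h2 := ih (n + 1) z (x i * b - b * x i) ha' (WW_gen_lie (K := K) x i n b hb)
        have e2 : (x i * z - z * x i) * b - b * (x i * z - z * x i) =
            (x i * (z * b - b * z) - (z * b - b * z) * x i) -
              (z * (x i * b - b * x i) - (x i * b - b * x i) * z) := by
          noncomm_ring
        rw [e2]
        refine Submodule.sub_mem _ ?_ ?_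
        · rw [show m + 1 + n = m + n + 1 by omega]; exact h1
        · rw [show m + 1 + n = m + (n + 1) by omega]; exact h2
    | zero => simp
    | add a a' _ _ ha ha' =>
      have : (a + a') * b - b * (a + a') = (a * b - b * a) + (a' * b - b * a') := by
        noncomm_ring
      rw [this]
      exact Submodule.add_mem _ ha ha'
    | smul k a _ ha =>
      have : (k • a) * b - b * (k • a) = k • (a * b - b * a) := by
        rw [mul_smul_comm, smul_mul_assoc, smul_sub]
      rw [this]
      exact Submodule.smul_mem _ _ ha

theorem comW_WW {m : ℕ} {a : U} (h : ComW x m a) : a ∈ WW K x m := by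
  induction h with
  | gen i => exact Submodule.subset_span ⟨[], i, rfl, rfl⟩
  | br m n a b _ _ iha ihb => exact WW_lie x m n a b iha ihb

end Lc

end AssocX

open AssocX in
theorem assoc_proof (hE : Stmt_MainE) (hN : Stmt_Nil) : Stmt_Assoc := by
  classical
  intro K U _ _ _ _ p _ _ hp5 r x hsym hpow
  have hp := (Fact.out : p.Prime)
  set Lu : LieSubalgebra K U := LieSubalgebra.lieSpan K U (Set.range x) with hLu
  have hxL : ∀ i, x i ∈ Lu := fun i => LieSubalgebra.subset_lieSpan ⟨i, rfl⟩
  -- spanned by commutators
  have hspan : ∀ u ∈ Lu, u ∈ Submodule.span K {c : U | Com x c} := by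
    intro u hu
    induction hu using LieSubalgebra.lieSpan_induction with
    | mem u hu =>
      obtain ⟨i, rfl⟩ := hu
      exact Submodule.subset_span (Com.gen i)
    | zero => exact Submodule.zero_mem _
    | add a b _ _ ha hb => exact Submodule.add_mem _ ha hb
    | smul k a _ ha => exact Submodule.smul_mem _ _ ha
    | lie a b ma mb ha hb =>
      rw [LieRing.of_associative_ring_bracket]
      clear ma mb
      induction ha, hb using Submodule.span_induction₂ with
      | mem_mem a b ha hb => exact Submodule.subset_span (Com.br a b ha hb)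
      | zero_left y hy => simp
      | zero_right x hx => simp
      | add_left a b z _ _ _ ha hb =>
        have : (a + b) * z - z * (a + b) = (a * z - z * a) + (b * z - z * b) := by noncomm_ring
        rw [this]; exact Submodule.add_mem _ ha hb
      | add_right a b z _ _ _ ha hb =>
        have : a * (b + z) - (b + z) * a = (a * b - b * a) + (a * z - z * a) := by noncomm_ring
        rw [this]; exact Submodule.add_mem _ ha hb
      | smul_left k a b _ _ h =>
        have : (k • a) * b - b * (k • a) = k • (a * b - b * a) := by
          rw [mul_smul_comm, smul_mul_assoc, smul_sub]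
        rw [this]; exact Submodule.smul_mem _ _ h
      | smul_right k a b _ _ h =>
        have : a * (k • b) - (k • b) * a = k • (a * b - b * a) := by
          rw [mul_smul_comm, smul_mul_assoc, smul_sub]
        rw [this]; exact Submodule.smul_mem _ _ h
  obtain ⟨n, rfl⟩ : ∃ n, p = n + 1 := ⟨p - 1, by omega⟩
  have hn : n + 1 - 1 = n := by omega
  have hfac : (n.factorial : K) ≠ 0 := by
    rw [Ne, CharP.cast_eq_zero_iff K (n + 1), hp.dvd_factorial]
    omega
  -- the Engel identity
  have hengel : ∀ u ∈ Lu, ∀ y ∈ Lu, (LieAlgebra.ad K U u ^ n) y = 0 := by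
    intro u hu y hy
    have h1 : symP K U (n + 1) (fun i => if i = 0 then y else u) = 0 := by
      refine multi_span (symP K U (n + 1)) {c : U | Com x c} ?_ _ ?_
      · intro c hc
        rw [symP_apply]
        exact hsym c hc
      · intro i
        by_cases hi : i = 0
        · rw [if_pos hi]; exact hspan y hy
        · rw [if_neg hi]; exact hspan u hu
    rw [symP_apply, sym_uy n u y] at h1
    have h2 := ad_pow (K := K) (n + 1) u y
    rw [hn] at h2
    rw [h2]
    have h3 : (n.factorial : K) • (∑ k ∈ Finset.range (n + 1), u ^ k * y * u ^ (n - k)) = 0 := by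
      rw [Nat.cast_smul_eq_nsmul, nsmul_eq_mul]
      exact h1
    exact (smul_eq_zero.1 h3).resolve_left hfac
  have hnat : ∀ k : ℕ, 1 ≤ k → k ≤ n → (k : K) ≠ 0 := by
    intro k h1 h2
    rw [Ne, CharP.cast_eq_zero_iff K (n + 1)]
    intro h3
    have := Nat.le_of_dvd (by omega) h3
    omega
  have h2K : (2 : K) ≠ 0 := by exact_mod_cast hnat 2 (by omega) (by omega)
  have h3K : (3 : K) ≠ 0 := by exact_mod_cast hnat 3 (by omega) (by omega)
  have hFG : FG K Lu := by
    refine ⟨(Finset.univ.image fun i => (⟨x i, hxL i⟩ : Lu)), ?_⟩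
    have h1 : ((Finset.univ.image fun i => (⟨x i, hxL i⟩ : Lu)) : Set Lu) =
        ((↑) : Lu → U) ⁻¹' (Set.range x) := by
      ext z
      simp only [Finset.coe_image, Finset.coe_univ, Set.image_univ, Set.mem_range,
        Set.mem_preimage]
      constructor
      · rintro ⟨i, rfl⟩; exact ⟨i, rfl⟩
      · rintro ⟨i, hi⟩; exact ⟨i, Subtype.ext hi⟩
    rw [h1]
    exact LieSubalgebra.lieSpan_lieSpan_coe_preimage
  have hcoe : ∀ (z : Lu) (m : ℕ) (y : Lu),
      (((adE K Lu z ^ m) y : Lu) : U) = (LieAlgebra.ad K U (z : U) ^ m) (y : U) := by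
    intro z m
    induction m with
    | zero => intro y; simp
    | succ m ih =>
      intro y
      rw [pow_succ, pow_succ, Module.End.mul_apply, Module.End.mul_apply, ih]
      simp
  obtain ⟨N, hNil⟩ := hE K Lu n hnat h2K h3K hFG (by
    intro z
    ext y
    rw [hcoe, hengel z z.2 y y.2]
    simp)
  -- left normed commutators vanish
  have hln : ∀ (w : List (Fin r)) (j : Fin r),
      ln x w j = ((adP K Lu (w.map fun i => (⟨x i, hxL i⟩ : Lu)) (⟨x j, hxL j⟩ : Lu) : Lu) : U) := by
    intro w j
    induction w with
    | nil => simp [ln, adP]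
    | cons i w ih =>
      have e : ln x (i :: w) j = x i * ln x w j - ln x w j * x i := rfl
      rw [e, ih]
      simp [adP, LieRing.of_associative_ring_bracket]
  have hln0 : ∀ (w : List (Fin r)) (j : Fin r), N ≤ w.length → ln x w j = 0 := by
    intro w j hw
    rw [hln]
    have h1 : adP K Lu (w.map fun i => (⟨x i, hxL i⟩ : Lu)) = 0 := by
      rw [← List.take_append_drop N (w.map fun i => (⟨x i, hxL i⟩ : Lu))]
      have h2 := hNil ((w.map fun i => (⟨x i, hxL i⟩ : Lu)).take N) (by simp [hw])
      unfold adP at h2 ⊢
      rw [List.map_append, List.prod_append, h2, zero_mul]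
    rw [h1]
    simp
  obtain ⟨M, hM⟩ := hN U ⊤ ⊥ r x N (n + 1) (fun i => Subring.mem_top _)
    (by
      intro s _ j hj
      rw [AddSubgroup.mem_bot] at hj
      subst hj
      simp)
    (by
      intro m a hm ha
      have h1 := comW_WW (K := K) x ha
      have h2 : WW K x m = ⊥ := by
        unfold WW
        rw [Submodule.span_eq_bot]
        rintro z ⟨w, j, hw, rfl⟩
        exact hln0 w j (by omega)
      rw [h2, Submodule.mem_bot] at h1
      rw [AddSubgroup.mem_bot]
      exact h1)
    (by
      intro a ha
      rw [AddSubgroup.mem_bot]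
      exact hpow a ha)
  refine ⟨M, fun w hw => ?_⟩
  have := hM w hw
  rwa [AddSubgroup.mem_bot] at this

end Pool.Agent.KOS
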