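import Pool.Agent.KOS.Defs

set_option autoImplicit false

/-! Squad KOS, sections 4, 5, 6 (descent, from 3 to 2, curves, chain). Text: /team-store/KOSTRIKIN_B.md -/

namespace Pool.Agent.KOS

/-- signed binomial coefficient -/
def cc (n j : ℕ) : ℤ := (-1) ^ (n - j) * (n.choose j : ℤ)

/-! ### 4. Descent -/

/-- module BINOM -/
def Stmt_Binom : Prop := ∀ (K L : Type) [Field K] [LieRing L] [LieAlgebra K L] (a x : L) (k : ℕ),
  adE K L ((adE K L a ^ k) x) = ∑ j ∈ Finset.range (k + 1),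
    cc k j • (adE K L a ^ j * adE K L x * adE K L a ^ (k - j))

/-- module DREL: the relations between the short words. -/
def Stmt_DRel : Prop := ∀ (K L : Type) [Field K] [LieRing L] [LieAlgebra K L] (N : ℕ), 3 ≤ N →
  (∀ k : ℕ, 1 ≤ k → k ≤ N + 1 → (k : K) ≠ 0) → ∀ a : L, adE K L a ^ (N + 1) = 0 →
  ∀ (x : L) (A X : Module.End K L), A = adE K L a → X = adE K L x →
  ∃ k : K, A ^ N * X * A ^ N = 0 ∧
    A ^ (N - 1) * X * A ^ N = k • (A ^ N * X * A ^ (N - 1)) ∧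
    A ^ N * X * A ^ (N - 1) = k • (A ^ (N - 1) * X * A ^ N) ∧
    A ^ N * X * A ^ (N - 2) * X * A ^ N = 0 ∧
    A ^ N * X * A ^ (N - 1) * X * A ^ (N - 1) = 0

/-- module DWORD: the word argument, in an associative algebra. -/
def Stmt_DWord : Prop := ∀ (K R : Type) [Field K] [Ring R] [Algebra K R] (N : ℕ), 3 ≤ N →
  ∀ (A X : R) (k : K), A ^ (N + 1) = 0 → A ^ N * X * A ^ N = 0 →
    A ^ (N - 1) * X * A ^ N = k • (A ^ N * X * A ^ (N - 1)) →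
    A ^ N * X * A ^ (N - 1) = k • (A ^ (N - 1) * X * A ^ N) →
    A ^ N * X * A ^ (N - 2) * X * A ^ N = 0 →
    A ^ N * X * A ^ (N - 1) * X * A ^ (N - 1) = 0 →
    (∑ j ∈ Finset.range (N + 1), cc N j • (A ^ j * X * A ^ (N - j))) ^ N = 0

/-- module DESC (from BINOM, DREL, DWORD): descent from m to m - 1. -/
def Stmt_Desc : Prop := ∀ (K L : Type) [Field K] [LieRing L] [LieAlgebra K L] (m : ℕ), 4 ≤ m →
  (∀ k : ℕ, 1 ≤ k → k ≤ m → (k : K) ≠ 0) → ∀ a : L, adE K L a ^ m = 0 →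
  ∀ x : L, adE K L ((adE K L a ^ (m - 1)) x) ^ (m - 1) = 0

/-! ### 5. From 3 to 2.  `A = ad a`, `A ^ 3 = 0`, `U = ad u` ... -/

/-- module JF: first consequences of `A ^ 3 = 0`. -/
def Stmt_JF : Prop := ∀ (K L : Type) [Field K] [LieRing L] [LieAlgebra K L],
  (2 : K) ≠ 0 → (3 : K) ≠ 0 → ∀ (a : L) (A : Module.End K L), A = adE K L a → A ^ 3 = 0 →
  (∀ u : L, A ^ 2 * adE K L u * A ^ 2 = 0) ∧
  (∀ u : L, A ^ 2 * adE K L u * A = A * adE K L u * A ^ 2) ∧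
  (∀ u v : L, A ^ 2 * adE K L u * adE K L v * A ^ 2 = A ^ 2 * adE K L v * adE K L u * A ^ 2) ∧
  (∀ u : L, adE K L ⁅a, u⁆ * A ^ 2 = A * adE K L u * A ^ 2) ∧
  (∀ u : L, A ^ 2 * adE K L ⁅a, u⁆ = - (A * adE K L u * A ^ 2)) ∧
  (∀ u v : L, (A * adE K L u * A ^ 2) v = (A * adE K L v * A ^ 2) u) ∧
  (∀ u : L, adE K L ((A ^ 2) u) ^ 2 = A ^ 2 * adE K L u * adE K L u * A ^ 2) ∧
  (∀ u : L, A * adE K L ((A ^ 2) u) = - (A ^ 2 * adE K L u * A))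

/-- module JJ: the Jordan identities on `A ^ 2 L`, with `u ∘ v = ⁅⁅u, a⁆, v⁆`. -/
def Stmt_JJ : Prop := ∀ (K L : Type) [Field K] [LieRing L] [LieAlgebra K L],
  (2 : K) ≠ 0 → (3 : K) ≠ 0 → ∀ (a : L) (A : Module.End K L), A = adE K L a → A ^ 3 = 0 →
  (∀ u v : L, A * adE K L ⁅⁅u, a⁆, v⁆ * A ^ 2 =
    A * adE K L u * A * adE K L v * A ^ 2 + A * adE K L v * A * adE K L u * A ^ 2 -
      A ^ 2 * adE K L u * adE K L v * A ^ 2) ∧
  (∀ u v w : L, A ^ 2 * adE K L ⁅⁅u, a⁆, v⁆ * adE K L w * A ^ 2 =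
    A * adE K L u * A ^ 2 * adE K L v * adE K L w * A ^ 2 +
      A * adE K L v * A ^ 2 * adE K L u * adE K L w * A ^ 2 -
      A ^ 2 * adE K L u * adE K L v * A * adE K L w * A ^ 2) ∧
  (∀ u : L, A * adE K L u * A ^ 2 * adE K L u * adE K L u * A ^ 2 =
    A ^ 2 * adE K L u * adE K L u * A * adE K L u * A ^ 2)

/-- module JC: identities in a commutative ring. -/
def Stmt_JC : Prop := ∀ (R : Type) [CommRing R] (v u : R) (V P : ℕ → R),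
  V 0 = 1 → V 1 = v → (∀ k, V (k + 2) = 2 * v * V (k + 1) - u * V k) →
  P 0 = 0 → (∀ k, P (k + 1) = v * P k + V k) →
  (∀ k, V k * P (k + 1) - V (k + 1) * P k = u ^ k) ∧
  ∀ i d, v * (u ^ (i + 1) * V (d + 1)) + V (i + 1) * (u * V (i + 1 + d)) -
    u * V i * V (i + 2 + d) = u ^ (i + 2) * V d

/-- module JU: `(ad x_k)` on `A ^ 2 L`: if `A^2 x_(k+1) = 0` and the derivative vanishes then
`A^2 X_k X_k A^2 = 0`.  Here `x_1 = x`, `x_(j+1) = ⁅⁅x, a⁆, x_j⁆` (`xs j = x_(j+1)`). -/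
def Stmt_JU : Prop := ∀ (K L : Type) [Field K] [LieRing L] [LieAlgebra K L],
  (2 : K) ≠ 0 → (3 : K) ≠ 0 → ∀ (a : L) (A : Module.End K L), A = adE K L a → A ^ 3 = 0 →
  ∀ (x : L) (xs : ℕ → L), xs 0 = x → (∀ j, xs (j + 1) = ⁅⁅x, a⁆, xs j⁆) →
  ∀ k : ℕ, (A ^ 2) (xs (k + 1)) = 0 →
    adE K L ⁅a, x⁆ ^ (k + 1) * A ^ 2 + ∑ i ∈ Finset.range (k + 1),
      adE K L ⁅a, x⁆ ^ (k - i) * (A * adE K L (xs i) * A ^ 2) = 0 →
    A ^ 2 * adE K L (xs k) * adE K L (xs k) * A ^ 2 = 0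

/-- module JET: a polynomial map with values in a subspace has its coefficients there. -/
def Stmt_Jet : Prop := ∀ (K V : Type) [Field K] [Infinite K] [AddCommGroup V] [Module K V]
  (S : Submodule K V) (d : ℕ) (c : ℕ → V),
  (∀ t : K, ∑ i ∈ Finset.range d, t ^ i • c i ∈ S) → ∀ i < d, c i ∈ S

/-- module JD (from JET): the derivative of `(ad ⁅a, x⁆)^(k+1) a = 0`. -/
def Stmt_JD : Prop := ∀ (K L : Type) [Field K] [Infinite K] [LieRing L] [LieAlgebra K L] (a : L)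
  (k : ℕ), (∀ x : L, (adE K L ⁅a, x⁆ ^ (k + 1)) a = 0) → ∀ x y : L,
  ∑ i ∈ Finset.range (k + 1),
    (adE K L ⁅a, x⁆ ^ (k - i)) ⁅⁅a, y⁆, (adE K L ⁅a, x⁆ ^ i) a⁆ = 0

/-- module JLIN (from JF, JU, JD): Lemma JL. -/
def Stmt_JLin : Prop := ∀ (K L : Type) [Field K] [Infinite K] [LieRing L] [LieAlgebra K L],
  (2 : K) ≠ 0 → (3 : K) ≠ 0 → ∀ (a : L), adE K L a ^ 3 = 0 →
  ∀ k : ℕ, (∀ x : L, (adE K L ⁅a, x⁆ ^ (k + 1)) a = 0) →
  ∀ x : L, adE K L ((adE K L ⁅a, x⁆ ^ k) a) ^ 2 = 0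

/-! ### 6. Curves -/

section
variable (K : Type) {L : Type} [Field K] [LieRing L] [LieAlgebra K L]

/-- `q` is a polynomial map `K → L` with value `u` and derivative `w` at `0`. -/
def PJ (q : K → L) (u w : L) : Prop :=
  ∃ (d : ℕ) (c : ℕ → L), 2 ≤ d ∧ c 0 = u ∧ c 1 = w ∧ ∀ t : K, q t = ∑ i ∈ Finset.range d, t ^ i • c i

/-- `V` is stable: for `v ∈ V` and `y` there is a polynomial curve in `V` with 1-jet `(v, ⁅v, y⁆)`. -/
def Stab (V : Set L) : Prop := ∀ v ∈ V, ∀ y : L, ∃ q : K → L, (∀ t, q t ∈ V) ∧ PJ K q v ⁅v, y⁆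

end

/-- module PJ: calculus of curves. -/
def Stmt_PJ : Prop := ∀ (K L : Type) [Field K] [LieRing L] [LieAlgebra K L],
  (∀ x y : L, PJ K (fun t : K => x + t • y) x y) ∧
  (∀ (q r : K → L) (u w u' w' : L), PJ K q u w → PJ K r u' w' →
    PJ K (fun t => ⁅q t, r t⁆) ⁅u, u'⁆ (⁅w, u'⁆ + ⁅u, w'⁆))

/-- module SSPAN (from JET): the span of a stable set is an ideal. -/
def Stmt_SSpan : Prop := ∀ (K L : Type) [Field K] [Infinite K] [LieRing L] [LieAlgebra K L]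
  (V : Set L), Stab K V → ∀ z ∈ Submodule.span K V, ∀ y : L, ⁅y, z⁆ ∈ Submodule.span K V

/-- module STAB (from PJ): stable sets. -/
def Stmt_Stab : Prop := ∀ (K L : Type) [Field K] [LieRing L] [LieAlgebra K L],
  Stab K (Set.univ : Set L) ∧ ∀ V : Set L, Stab K V → ∀ k : ℕ,
    Stab K {z : L | ∃ a ∈ V, ∃ x : L, z = (adE K L a ^ k) x} ∧
    Stab K {z : L | ∃ a ∈ V, ∃ x : L, z = (adE K L ⁅a, x⁆ ^ k) a}

/-- module CHAIN0 (from DESC, STAB): a nonzero stable set with `(ad a)^3 = 0`. -/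
def Stmt_Chain0 : Prop := ∀ (K L : Type) [Field K] [LieRing L] [LieAlgebra K L]
  [Nontrivial L] (n : ℕ), (∀ k : ℕ, 1 ≤ k → k ≤ n → (k : K) ≠ 0) →
  (∀ x : L, adE K L x ^ n = 0) →
  ∃ V : Set L, Stab K V ∧ (∃ v ∈ V, v ≠ 0) ∧ ∀ v ∈ V, adE K L v ^ 3 = 0

/-- module CHAIN1 (from CHAIN0, STAB, JLIN): a nonzero stable set of sandwiches. -/
def Stmt_Chain1 : Prop := ∀ (K L : Type) [Field K] [Infinite K] [LieRing L] [LieAlgebra K L]
  [Nontrivial L] (n : ℕ), (∀ k : ℕ, 1 ≤ k → k ≤ n → (k : K) ≠ 0) → (2 : K) ≠ 0 → (3 : K) ≠ 0 →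
  (∀ x : L, adE K L x ^ n = 0) →
  ∃ V : Set L, Stab K V ∧ (∃ v ∈ V, v ≠ 0) ∧ ∀ v ∈ V, adE K L v ^ 2 = 0

/- module CHAIN (from CHAIN1, SSPAN): `Stmt_Chain` of StmtsA. -/

end Pool.Agent.KOS
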