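import Pool.Agent.KOS.StmtsA
import Pool.Agent.KOS.StmtsB

set_option autoImplicit false

namespace Pool.Agent.KOS

theorem chain1_proof (h0 : Stmt_Chain0) (hS : Stmt_Stab) (hJ : Stmt_JLin) : Stmt_Chain1 := by
  intro K L _ _ _ _ _ n hn h2 h3 hEng
  obtain ⟨V, hV, ⟨v, hvV, hv0⟩, hV3⟩ := h0 K L n hn hEng
  obtain ⟨-, hSt⟩ := hS K L
  -- the sets V_k
  let W : ℕ → Set L := fun k => {z : L | ∃ a ∈ V, ∃ x : L, z = (adE K L ⁅a, x⁆ ^ k) a}
  have hW0 : v ∈ W 0 := ⟨v, hvV, 0, by simp⟩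
  have hWn : ∀ z ∈ W n, z = 0 := by
    rintro z ⟨a, _, x, rfl⟩
    rw [hEng]; simp
  have hex : ∃ k, ∀ z ∈ W k, z = 0 := ⟨n, hWn⟩
  classical
  set m := Nat.find hex with hm
  have hmspec : ∀ z ∈ W m, z = 0 := Nat.find_spec hex
  have hm0 : m ≠ 0 := by
    intro h
    have := hmspec v (by rw [h]; exact hW0)
    exact hv0 this
  obtain ⟨k, hk⟩ := Nat.exists_eq_succ_of_ne_zero hm0
  have hkn : ¬ ∀ z ∈ W k, z = 0 := Nat.find_min hex (by omega)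
  push Not at hkn
  obtain ⟨z, hz, hz0⟩ := hkn
  refine ⟨W k, ((hSt V hV k).2), ⟨z, hz, hz0⟩, ?_⟩
  rintro w ⟨a, ha, x, rfl⟩
  apply hJ K L h2 h3 a (hV3 a ha) k
  intro y
  apply hmspec
  rw [hk]
  exact ⟨a, ha, y, rfl⟩

theorem chain_proof (h1 : Stmt_Chain1) (hsp : Stmt_SSpan) : Stmt_Chain := by
  intro K L _ _ _ _ _ n hn h2 h3 hEng
  obtain ⟨V, hV, ⟨v, hvV, hv0⟩, hV2⟩ := h1 K L n hn h2 h3 hEng
  have hs := hsp K L V hV
  let I : LieIdeal K L :=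
    { Submodule.span K V with
      lie_mem := fun {x m} hm => hs m hm x }
  have hI : ∀ x, x ∈ I ↔ x ∈ Submodule.span K V := fun x => Iff.rfl
  refine ⟨I, ?_, ?_⟩
  · intro hbot
    have : v ∈ I := (hI v).mpr (Submodule.subset_span hvV)
    rw [hbot] at this
    exact hv0 (by simpa using this)
  · intro x hx
    rw [hI] at hx
    apply Submodule.span_mono _ hx
    intro t ht
    exact ⟨(hI t).mpr (Submodule.subset_span ht), hV2 t ht⟩

end Pool.Agent.KOS
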