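import Pool.Agent.KOS.StmtsA

set_option autoImplicit false

/-! Module DGEN. -/

namespace Pool.Agent.KOS

namespace DGenX

variable {K G : Type} [Field K] [Group G]

lemma dlt_mul (g h : G) : dlt K G (g * h) = MonoidAlgebra.of K G g * dlt K G h + dlt K G g := by
  unfold dlt
  rw [map_mul, mul_sub, mul_one]
  abel

lemma dlt_one : dlt K G 1 = 0 := by
  unfold dlt; rw [map_one, sub_self]

lemma dlt_inv (g : G) : dlt K G g⁻¹ = -(MonoidAlgebra.of K G g⁻¹ * dlt K G g) := by
  have h := dlt_mul (K := K) g⁻¹ g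
  rw [inv_mul_cancel, dlt_one] at h
  exact (neg_eq_of_add_eq_zero_right h.symm).symm

/-- the algebra is spanned by the group elements -/
lemma of_induction {P : MonoidAlgebra K G → Prop} (x : MonoidAlgebra K G)
    (hof : ∀ g, P (MonoidAlgebra.of K G g)) (hadd : ∀ a b, P a → P b → P (a + b))
    (hsmul : ∀ (c : K) a, P a → P (c • a)) : P x :=
  MonoidAlgebra.induction_on x hof hadd hsmul

/-- the left ideal generated by the `dlt (g i)` -/
noncomputable def LL {r : ℕ} (g : Fin r → G) : Submodule K (MonoidAlgebra K G) :=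
  Submodule.span K {x | ∃ (a : MonoidAlgebra K G) (i : Fin r), x = a * dlt K G (g i)}

lemma LL_left {r : ℕ} (g : Fin r → G) (a x : MonoidAlgebra K G) (hx : x ∈ LL (K := K) g) :
    a * x ∈ LL (K := K) g := by
  refine Submodule.span_induction (p := fun x _ => a * x ∈ LL (K := K) g) ?_ ?_ ?_ ?_ hx
  · rintro x ⟨b, i, rfl⟩
    exact Submodule.subset_span ⟨a * b, i, by rw [mul_assoc]⟩
  · simp
  · intro x y _ _ hx hy
    rw [mul_add]; exact add_mem hx hy
  · intro c x _ hx
    rw [mul_smul_comm]; exact Submodule.smul_mem _ c hx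

lemma dlt_mem_LL {r : ℕ} (g : Fin r → G) (hg : Subgroup.closure (Set.range g) = ⊤) (x : G) :
    dlt K G x ∈ LL (K := K) g := by
  have hx : x ∈ Subgroup.closure (Set.range g) := by rw [hg]; exact Subgroup.mem_top x
  refine Subgroup.closure_induction (p := fun x _ => dlt K G x ∈ LL (K := K) g) ?_ ?_ ?_ ?_ hx
  · rintro _ ⟨i, rfl⟩
    exact Submodule.subset_span ⟨1, i, by rw [one_mul]⟩
  · rw [dlt_one]; exact zero_mem _
  · intro a b _ _ ha hb
    rw [dlt_mul]
    exact add_mem (LL_left g _ _ hb) ha
  · intro a _ ha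
    rw [dlt_inv]
    exact neg_mem (LL_left g _ _ ha)

lemma aug_mul_mem_LL {r : ℕ} (g : Fin r → G) (hg : Subgroup.closure (Set.range g) = ⊤)
    (a c : MonoidAlgebra K G) (ha : a ∈ Aug K G) : a * c ∈ LL (K := K) g := by
  refine Submodule.span_induction (p := fun a _ => a * c ∈ LL (K := K) g) ?_ ?_ ?_ ?_ ha
  · rintro _ ⟨x, rfl⟩
    refine of_induction (P := fun c => dlt K G x * c ∈ LL (K := K) g) c ?_ ?_ ?_
    · intro y
      have : dlt K G x * MonoidAlgebra.of K G y = dlt K G (x * y) - dlt K G y := by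
        unfold dlt
        rw [map_mul, sub_mul, one_mul]
        abel
      rw [this]
      exact sub_mem (dlt_mem_LL g hg _) (dlt_mem_LL g hg _)
    · intro a b ha hb
      rw [mul_add]; exact add_mem ha hb
    · intro k a ha
      rw [mul_smul_comm]; exact Submodule.smul_mem _ k ha
  · simp
  · intro x y _ _ hx hy
    rw [add_mul]; exact add_mem hx hy
  · intro k x _ hx
    rw [smul_mul_assoc]; exact Submodule.smul_mem _ k hx

/-- left ideal generated by words of length `n` -/
noncomputable def WW {r : ℕ} (g : Fin r → G) (n : ℕ) : Submodule K (MonoidAlgebra K G) :=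
  Submodule.span K {x | ∃ (a : MonoidAlgebra K G) (w : List (Fin r)), w.length = n ∧
    x = a * ev (fun i => dlt K G (g i)) w}

lemma DD_le_WW {r : ℕ} (g : Fin r → G) (hg : Subgroup.closure (Set.range g) = ⊤) (n : ℕ) :
    DD K G n ≤ WW (K := K) g n := by
  induction n with
  | zero =>
    intro x _
    exact Submodule.subset_span ⟨x, [], rfl, by simp [ev]⟩
  | succ n ih =>
    refine Submodule.mul_le.2 fun a ha b hb => ?_
    refine Submodule.span_induction (p := fun b _ => a * b ∈ WW (K := K) g (n + 1))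
      ?_ ?_ ?_ ?_ (ih hb)
    · rintro _ ⟨c, w, hw, rfl⟩
      have h1 := aug_mul_mem_LL g hg a c ha
      rw [← mul_assoc]
      refine Submodule.span_induction
        (p := fun z _ => z * ev (fun i => dlt K G (g i)) w ∈ WW (K := K) g (n + 1))
        ?_ ?_ ?_ ?_ h1
      · rintro _ ⟨a', i, rfl⟩
        refine Submodule.subset_span ⟨a', i :: w, by simp [hw], ?_⟩
        simp [ev, mul_assoc]
      · simp
      · intro x y _ _ hx hy
        rw [add_mul]; exact add_mem hx hy
      · intro k x _ hx
        rw [smul_mul_assoc]; exact Submodule.smul_mem _ k hx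
    · simp
    · intro x y _ _ hx hy
      rw [mul_add]; exact add_mem hx hy
    · intro k x _ hx
      rw [mul_smul_comm]; exact Submodule.smul_mem _ k hx

end DGenX

open DGenX

theorem dgen_proof (hD : Stmt_DMul) : Stmt_DGen := by
  intro K G _ _ r g hg n hw
  have h1 : DD K G n ≤ DD K G (n + 1) := by
    refine (DD_le_WW g hg n).trans (Submodule.span_le.2 ?_)
    rintro _ ⟨a, w, hwn, rfl⟩
    have := (hD K G).1 0 (n + 1) a _ Submodule.mem_top (hw w hwn)
    rwa [zero_add] at this
  have h2 : DD K G (n + 1) = DD K G n := le_antisymm ((hD K G).2 _ _ (Nat.le_succ n)) h1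
  intro m hm
  induction m, hm using Nat.le_induction with
  | base => rfl
  | succ m _ ih =>
    change Aug K G * DD K G m = _
    rw [ih]
    exact h2

end Pool.Agent.KOS
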