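import Pool.Agent.KOS.StmtsA

set_option autoImplicit false

namespace Pool.Agent.KOS

namespace DMulX

variable (K G : Type) [Field K] [Group G]

theorem dlt_mem (g : G) : dlt K G g ∈ Aug K G := Submodule.subset_span ⟨g, rfl⟩

theorem of_mul_dlt (h g : G) : MonoidAlgebra.of K G h * dlt K G g =
    dlt K G (h * g) - dlt K G h := by
  unfold dlt
  rw [mul_sub, mul_one, ← map_mul]
  abel

theorem left_ideal (x y : MonoidAlgebra K G) (hy : y ∈ Aug K G) : x * y ∈ Aug K G := by
  induction hy using Submodule.span_induction with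
  | mem y hy =>
    obtain ⟨g, rfl⟩ := hy
    induction x using MonoidAlgebra.induction_on with
    | of h =>
      rw [of_mul_dlt]
      exact Submodule.sub_mem _ (dlt_mem K G _) (dlt_mem K G _)
    | add a b ha hb =>
      rw [add_mul]
      exact Submodule.add_mem _ ha hb
    | smul r a ha =>
      rw [smul_mul_assoc]
      exact Submodule.smul_mem _ _ ha
  | zero => simp
  | add a b _ _ ha hb =>
    rw [mul_add]
    exact Submodule.add_mem _ ha hb
  | smul r a _ ha =>
    rw [mul_smul_comm]
    exact Submodule.smul_mem _ _ ha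

theorem top_mul_aug : (⊤ : Submodule K (MonoidAlgebra K G)) * Aug K G ≤ Aug K G := by
  rw [Submodule.mul_le]
  intro x _ y hy
  exact left_ideal K G x y hy

theorem top_mul_DD (n : ℕ) : (⊤ : Submodule K (MonoidAlgebra K G)) * DD K G n ≤ DD K G n := by
  cases n with
  | zero => exact le_top
  | succ n =>
    show ⊤ * (Aug K G * DD K G n) ≤ Aug K G * DD K G n
    rw [← mul_assoc]
    exact mul_le_mul' (top_mul_aug K G) le_rfl

theorem DD_mul (m n : ℕ) : DD K G m * DD K G n ≤ DD K G (m + n) := by
  induction m with
  | zero =>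
    rw [Nat.zero_add]
    exact top_mul_DD K G n
  | succ m ih =>
    have h : m + 1 + n = (m + n) + 1 := by omega
    rw [h]
    show Aug K G * DD K G m * DD K G n ≤ Aug K G * DD K G (m + n)
    rw [mul_assoc]
    exact mul_le_mul' le_rfl ih

theorem DD_succ_le (n : ℕ) : DD K G (n + 1) ≤ DD K G n := by
  induction n with
  | zero => exact le_top
  | succ n ih =>
    show Aug K G * DD K G (n + 1) ≤ Aug K G * DD K G n
    exact mul_le_mul' le_rfl ih

end DMulX

theorem dmul_proof : Stmt_DMul := by
  intro K G _ _
  refine ⟨?_, ?_⟩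
  · intro m n a b ha hb
    exact DMulX.DD_mul K G m n (Submodule.mul_mem_mul ha hb)
  · intro m n hmn
    exact antitone_nat_of_succ_le (DMulX.DD_succ_le K G) hmn

end Pool.Agent.KOS
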