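import Pool.Agent.KOS.StmtsA

set_option autoImplicit false

/-! Module DSUB. -/

namespace Pool.Agent.KOS

namespace DSubX

variable {K G : Type} [Field K] [Group G]

lemma dlt_mul (g h : G) : dlt K G (g * h) = MonoidAlgebra.of K G g * dlt K G h + dlt K G g := by
  unfold dlt
  rw [map_mul, mul_sub, mul_one]
  abel

lemma dlt_one : dlt K G 1 = 0 := by
  unfold dlt; rw [map_one, sub_self]

lemma dlt_inv (g : G) : dlt K G g⁻¹ = -(MonoidAlgebra.of K G g⁻¹ * dlt K G g) := by
  have h := dlt_mul (K := K) g⁻¹ g
  rw [inv_mul_cancel, dlt_one] at h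
  exact (neg_eq_of_add_eq_zero_right h.symm).symm

lemma left_mem (hD : Stmt_DMul) (n : ℕ) (a x : MonoidAlgebra K G) (hx : x ∈ DD K G n) :
    a * x ∈ DD K G n := by
  have := (hD K G).1 0 n a x Submodule.mem_top hx
  rwa [zero_add] at this

lemma right_mem (hD : Stmt_DMul) (n : ℕ) (a x : MonoidAlgebra K G) (hx : x ∈ DD K G n) :
    x * a ∈ DD K G n := by
  have := (hD K G).1 n 0 x a hx Submodule.mem_top
  rwa [add_zero] at this

/-- the dimension subgroup -/
def RR (hD : Stmt_DMul) (K G : Type) [Field K] [Group G] (N : ℕ) : Subgroup G where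
  carrier := {g | dlt K G g ∈ DD K G N}
  one_mem' := by
    change dlt K G 1 ∈ DD K G N
    rw [dlt_one]; exact zero_mem _
  mul_mem' := by
    intro a b ha hb
    change dlt K G (a * b) ∈ DD K G N
    rw [dlt_mul]
    exact add_mem (left_mem hD N _ _ hb) ha
  inv_mem' := by
    intro a ha
    change dlt K G a⁻¹ ∈ DD K G N
    rw [dlt_inv]
    exact neg_mem (left_mem hD N _ _ ha)

lemma mem_RR (hD : Stmt_DMul) (N : ℕ) (g : G) : g ∈ RR hD K G N ↔ dlt K G g ∈ DD K G N := Iff.rfl

lemma normal (hD : Stmt_DMul) (N : ℕ) : (RR hD K G N).Normal := by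
  constructor
  intro n hn g
  rw [mem_RR] at hn ⊢
  have : dlt K G (g * n * g⁻¹) =
      MonoidAlgebra.of K G g * dlt K G n * MonoidAlgebra.of K G g⁻¹ := by
    unfold dlt
    rw [map_mul, map_mul, mul_sub, sub_mul, mul_one, ← map_mul (MonoidAlgebra.of K G) g g⁻¹,
      mul_inv_cancel, map_one]
  rw [this]
  exact right_mem hD N _ _ (left_mem hD N _ _ hn)

/-- additive group generated by the words of length less than `N` -/
noncomputable def MM {r : ℕ} (u : Fin r → MonoidAlgebra K G) (N : ℕ) :
    AddSubgroup (MonoidAlgebra K G) :=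
  AddSubgroup.closure {x | ∃ w : List (Fin r), w.length < N ∧ x = ev u w}

lemma ev_append {r : ℕ} (u : Fin r → MonoidAlgebra K G) (w w' : List (Fin r)) :
    ev u (w ++ w') = ev u w * ev u w' := by
  unfold ev; rw [List.map_append, List.prod_append]

/-- the subring generated by the `u i` is the additive group generated by all words -/
lemma mem_words {r : ℕ} (u : Fin r → MonoidAlgebra K G) (x : MonoidAlgebra K G)
    (hx : x ∈ Subring.closure (Set.range u)) :
    x ∈ AddSubgroup.closure {x | ∃ w : List (Fin r), x = ev u w} := by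
  refine Subring.closure_induction
    (p := fun x _ => x ∈ AddSubgroup.closure {x | ∃ w : List (Fin r), x = ev u w})
    ?_ ?_ ?_ ?_ ?_ ?_ hx
  · rintro _ ⟨i, rfl⟩
    exact AddSubgroup.subset_closure ⟨[i], by simp [ev]⟩
  · exact zero_mem _
  · exact AddSubgroup.subset_closure ⟨[], by simp [ev]⟩
  · intro x y _ _ hx hy; exact add_mem hx hy
  · intro x _ hx; exact neg_mem hx
  · intro x y _ _ hx hy
    refine AddSubgroup.closure_induction
      (p := fun x _ => x * y ∈ AddSubgroup.closure {x | ∃ w : List (Fin r), x = ev u w})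
      ?_ ?_ ?_ ?_ hx
    · rintro _ ⟨w, rfl⟩
      refine AddSubgroup.closure_induction
        (p := fun y _ => ev u w * y ∈ AddSubgroup.closure {x | ∃ w : List (Fin r), x = ev u w})
        ?_ ?_ ?_ ?_ hy
      · rintro _ ⟨w', rfl⟩
        exact AddSubgroup.subset_closure ⟨w ++ w', (ev_append u w w').symm⟩
      · simp
      · intro a b _ _ ha hb; rw [mul_add]; exact add_mem ha hb
      · intro a _ ha; rw [mul_neg]; exact neg_mem ha
    · simp
    · intro a b _ _ ha hb; rw [add_mul]; exact add_mem ha hb
    · intro a _ ha; rw [neg_mul]; exact neg_mem ha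

lemma ev_mem (hD : Stmt_DMul) {r : ℕ} (g : Fin r → G) (w : List (Fin r)) :
    ev (fun i => dlt K G (g i)) w ∈ DD K G w.length := by
  induction w with
  | nil => exact Submodule.mem_top
  | cons i w ih =>
    have h : dlt K G (g i) ∈ DD K G 1 := by
      have : dlt K G (g i) * 1 ∈ DD K G 1 :=
        Submodule.mul_mem_mul (Submodule.subset_span ⟨g i, rfl⟩) Submodule.mem_top
      rwa [mul_one] at this
    have := (hD K G).1 1 w.length _ _ h ih
    rw [add_comm] at this
    simpa [ev] using this

end DSubX

open DSubX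

theorem dsub_proof (hD : Stmt_DMul) : Stmt_DSub := by
  classical
  intro K G _ _ p _ _ hfg hp N
  refine ⟨RR hD K G N, normal hD N, ?_, fun g => mem_RR hD N g⟩
  obtain ⟨S, hS⟩ := hfg.out
  -- generators
  let r := S.card
  let g : Fin r → G := fun i => (S.equivFin.symm i : G)
  have hg : Set.range g = (S : Set G) := by
    ext x
    constructor
    · rintro ⟨i, rfl⟩; exact (S.equivFin.symm i).2
    · intro hx; exact ⟨S.equivFin ⟨x, hx⟩, by simp [g]⟩
  set u : Fin r → MonoidAlgebra K G := fun i => dlt K G (g i) with hu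
  -- all group elements are in the subring
  have hring : ∀ x : G, MonoidAlgebra.of K G x ∈ Subring.closure (Set.range u) := by
    intro x
    have hx : x ∈ Subgroup.closure (S : Set G) := by rw [hS]; exact Subgroup.mem_top x
    refine Subgroup.closure_induction
      (p := fun x _ => MonoidAlgebra.of K G x ∈ Subring.closure (Set.range u)) ?_ ?_ ?_ ?_ hx
    · intro y hy
      rw [← hg] at hy
      obtain ⟨i, rfl⟩ := hy
      have : MonoidAlgebra.of K G (g i) = u i + 1 := by simp [hu, dlt]
      rw [this]
      exact add_mem (Subring.subset_closure ⟨i, rfl⟩) (one_mem _)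
    · rw [map_one]; exact one_mem _
    · intro a b _ _ ha hb; rw [map_mul]; exact mul_mem ha hb
    · intro a _ ha
      have hpp : 1 ≤ p := (Fact.out : p.Prime).one_lt.le
      have : a⁻¹ = a ^ (p - 1) := by
        apply inv_eq_of_mul_eq_one_left
        rw [← pow_succ, Nat.sub_add_cancel hpp]
        exact hp a
      rw [this, map_pow]
      exact pow_mem ha _
  -- modulo `DD N` only short words matter
  have hshort : ∀ x : G, ∃ y ∈ MM u N, MonoidAlgebra.of K G x - y ∈ DD K G N := by
    intro x
    have hx := mem_words u _ (hring x)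
    refine AddSubgroup.closure_induction
      (p := fun z _ => ∃ y ∈ MM u N, z - y ∈ DD K G N) ?_ ?_ ?_ ?_ hx
    · rintro _ ⟨w, rfl⟩
      by_cases hw : w.length < N
      · exact ⟨ev u w, AddSubgroup.subset_closure ⟨w, hw, rfl⟩, by rw [sub_self]; exact zero_mem _⟩
      · refine ⟨0, zero_mem _, ?_⟩
        rw [sub_zero]
        exact (hD K G).2 _ _ (not_lt.1 hw) (ev_mem hD g w)
    · exact ⟨0, zero_mem _, by rw [sub_self]; exact zero_mem _⟩
    · rintro a b _ _ ⟨y, hy, h1⟩ ⟨z, hz, h2⟩
      refine ⟨y + z, add_mem hy hz, ?_⟩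
      have : a + b - (y + z) = (a - y) + (b - z) := by abel
      rw [this]; exact add_mem h1 h2
    · rintro a _ ⟨y, hy, h1⟩
      refine ⟨-y, neg_mem hy, ?_⟩
      have : -a - -y = -(a - y) := by abel
      rw [this]; exact neg_mem h1
  -- `MM` is finite
  have hfin : Finite (MM u N) := by
    have hset : {x | ∃ w : List (Fin r), w.length < N ∧ x = ev u w}.Finite := by
      have h1 : {w : List (Fin r) | w.length < N}.Finite := List.finite_length_lt (Fin r) N
      refine (h1.image (ev u)).subset ?_
      rintro _ ⟨w, hw, rfl⟩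
      exact ⟨w, hw, rfl⟩
    have hFG : (MM u N).FG := by
      refine ⟨hset.toFinset, ?_⟩
      rw [Set.Finite.coe_toFinset]
      rfl
    have : AddGroup.FG (MM u N) := (AddGroup.fg_iff_addSubgroup_fg _).2 hFG
    have : AddMonoid.FG (MM u N) := AddGroup.fg_iff_addMonoid_fg.1 this
    refine AddCommGroup.finite_of_fg_isAddTorsion _ ?_
    intro x
    rw [isOfFinAddOrder_iff_nsmul_eq_zero]
    refine ⟨p, (Fact.out : p.Prime).pos, ?_⟩
    apply Subtype.ext
    rw [AddSubgroup.coe_nsmul, AddSubgroup.coe_zero]
    have hc : CharP (MonoidAlgebra K G) p := charP_of_injective_algebraMap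
      (FaithfulSMul.algebraMap_injective K (MonoidAlgebra K G)) p
    rw [nsmul_eq_mul, CharP.cast_eq_zero, zero_mul]
  choose y hy hy' using hshort
  -- the quotient is finite
  have hinj : Function.Injective (fun q : G ⧸ RR hD K G N => (⟨y q.out, hy q.out⟩ : MM u N)) := by
    intro q q' h
    have h1 : y q.out = y q'.out := congrArg Subtype.val h
    rw [← QuotientGroup.out_eq' q, ← QuotientGroup.out_eq' q', QuotientGroup.eq, mem_RR]
    have h2 : MonoidAlgebra.of K G q'.out - MonoidAlgebra.of K G q.out ∈ DD K G N := by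
      have := sub_mem (hy' q'.out) (hy' q.out)
      rw [h1] at this
      have e : MonoidAlgebra.of K G q'.out - y q'.out - (MonoidAlgebra.of K G q.out - y q'.out) =
        MonoidAlgebra.of K G q'.out - MonoidAlgebra.of K G q.out := by abel
      rwa [e] at this
    have h3 := left_mem hD N (MonoidAlgebra.of K G (q.out)⁻¹) _ h2
    rw [mul_sub, ← map_mul, ← map_mul, inv_mul_cancel, map_one] at h3
    exact h3
  have : Finite (G ⧸ RR hD K G N) := Finite.of_injective _ hinj
  exact Subgroup.finiteIndex_of_finite_quotient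

end Pool.Agent.KOS
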