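import Pool.Agent.KOS.StmtsA

set_option autoImplicit false

namespace Pool.Agent.KOS

namespace ExtX

variable {K L : Type} [Field K] [LieRing L] [LieAlgebra K L] {r : ℕ} (x : Fin r → L)

/-- `ad` of the generators. -/
abbrev ga (K : Type) {L : Type} [Field K] [LieRing L] [LieAlgebra K L] {r : ℕ} (x : Fin r → L) :
    Fin r → Module.End K L := fun i => adE K L (x i)

/-- spanned by the left normed commutators of weight `m`. -/
def WL (K : Type) {L : Type} [Field K] [LieRing L] [LieAlgebra K L] {r : ℕ} (x : Fin r → L)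
    (m : ℕ) : Submodule K L :=
  Submodule.span K {z | ∃ (w : List (Fin r)) (j : Fin r), w.length + 1 = m ∧ z = ev (ga K x) w (x j)}

theorem ev_cons {R : Type} [Monoid R] (g : Fin r → R) (i : Fin r) (w : List (Fin r)) :
    ev g (i :: w) = g i * ev g w := by simp [ev]

theorem ev_append {R : Type} [Monoid R] (g : Fin r → R) (v w : List (Fin r)) :
    ev g (v ++ w) = ev g v * ev g w := by simp [ev]

theorem WL_gen (i : Fin r) (n : ℕ) (b : L) (hb : b ∈ WL K x n) : ⁅x i, b⁆ ∈ WL K x (n + 1) := by
  induction hb using Submodule.span_induction with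
  | mem b hb =>
    obtain ⟨w, j, hw, rfl⟩ := hb
    refine Submodule.subset_span ⟨i :: w, j, ?_, ?_⟩
    · simp only [List.length_cons]; omega
    · rw [ev_cons]; rfl
  | zero => simp
  | add a b _ _ ha hb => rw [lie_add]; exact Submodule.add_mem _ ha hb
  | smul k a _ ha => rw [lie_smul]; exact Submodule.smul_mem _ _ ha

theorem WL_lie : ∀ (m n : ℕ) (a b : L), a ∈ WL K x m → b ∈ WL K x n → ⁅a, b⁆ ∈ WL K x (m + n) := by
  intro m
  induction m with
  | zero =>
    intro n a b ha hb
    have h0 : WL K x 0 = ⊥ := by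
      unfold WL
      rw [Submodule.span_eq_bot]
      rintro z ⟨w, j, hw, -⟩
      omega
    rw [h0, Submodule.mem_bot] at ha
    subst ha
    simp
  | succ m ih =>
    intro n a b ha hb
    induction ha using Submodule.span_induction with
    | mem a ha =>
      obtain ⟨w, j, hw, rfl⟩ := ha
      cases w with
      | nil =>
        have hm : m = 0 := by simpa using hw.symm
        subst hm
        have h1 := WL_gen (K := K) x j n b hb
        rw [show 0 + 1 + n = n + 1 by omega]
        exact h1
      | cons i w =>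
        have hw' : w.length + 1 = m := by simpa using hw
        have ha' : ev (ga K x) w (x j) ∈ WL K x m := Submodule.subset_span ⟨w, j, hw', rfl⟩
        have e : ev (ga K x) (i :: w) (x j) = ⁅x i, ev (ga K x) w (x j)⁆ := by
          rw [ev_cons]; rfl
        rw [e]
        set z := ev (ga K x) w (x j) with hz
        have h1 := WL_gen (K := K) x i _ _ (ih n z b ha' hb)
        have h2 := ih (n + 1) z ⁅x i, b⁆ ha' (WL_gen (K := K) x i n b hb)
        have e2 : ⁅⁅x i, z⁆, b⁆ = ⁅x i, ⁅z, b⁆⁆ - ⁅z, ⁅x i, b⁆⁆ := lie_lie (x i) z b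
        rw [e2]
        refine Submodule.sub_mem _ ?_ ?_
        · rw [show m + 1 + n = m + n + 1 by omega]; exact h1
        · rw [show m + 1 + n = m + (n + 1) by omega]; exact h2
    | zero => simp
    | add a a' _ _ ha ha' => rw [add_lie]; exact Submodule.add_mem _ ha ha'
    | smul k a _ ha => rw [smul_lie]; exact Submodule.smul_mem _ _ ha

theorem comW_WL {m : ℕ} {a : Module.End K L} (h : ComW (ga K x) m a) :
    ∃ u ∈ WL K x m, adE K L u = a := by
  induction h with
  | gen i => exact ⟨x i, Submodule.subset_span ⟨[], i, rfl, by simp [ev]⟩, rfl⟩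
  | br m n a b _ _ iha ihb =>
    obtain ⟨u, hu, rfl⟩ := iha
    obtain ⟨v, hv, rfl⟩ := ihb
    refine ⟨⁅u, v⁆, WL_lie x m n u v hu hv, ?_⟩
    ext y
    simp

theorem com_ad {a : Module.End K L} (h : Com (ga K x) a) : ∃ u, adE K L u = a := by
  induction h with
  | gen i => exact ⟨x i, rfl⟩
  | br a b _ _ iha ihb =>
    obtain ⟨u, rfl⟩ := iha
    obtain ⟨v, rfl⟩ := ihb
    refine ⟨⁅u, v⁆, ?_⟩
    ext y
    simp

/-- combinations of long words. -/
def AA (K : Type) {L : Type} [Field K] [LieRing L] [LieAlgebra K L] {r : ℕ} (x : Fin r → L)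
    (m : ℕ) : Submodule K (Module.End K L) :=
  Submodule.span K {f | ∃ w : List (Fin r), m ≤ w.length ∧ f = ev (ga K x) w}

theorem AA_mono {m n : ℕ} (h : m ≤ n) : AA K x n ≤ AA K x m :=
  Submodule.span_mono (by rintro f ⟨w, hw, rfl⟩; exact ⟨w, h.trans hw, rfl⟩)

theorem AA_mul {m n : ℕ} {f f' : Module.End K L} (h : f ∈ AA K x m) (h' : f' ∈ AA K x n) :
    f * f' ∈ AA K x (m + n) := by
  induction h, h' using Submodule.span_induction₂ with
  | mem_mem a b ha hb =>
    obtain ⟨w, hw, rfl⟩ := ha
    obtain ⟨w', hw', rfl⟩ := hb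
    refine Submodule.subset_span ⟨w ++ w', ?_, (ev_append _ w w').symm⟩
    rw [List.length_append]; omega
  | zero_left y hy => simp
  | zero_right x hx => simp
  | add_left a b z _ _ _ ha hb => rw [add_mul]; exact Submodule.add_mem _ ha hb
  | add_right a b z _ _ _ ha hb => rw [mul_add]; exact Submodule.add_mem _ ha hb
  | smul_left k a b _ _ h => rw [smul_mul_assoc]; exact Submodule.smul_mem _ _ h
  | smul_right k a b _ _ h => rw [mul_smul_comm]; exact Submodule.smul_mem _ _ h

theorem ad_AA (hx : LieSubalgebra.lieSpan K L (Set.range x) = ⊤) (u : L) :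
    adE K L u ∈ AA K x 1 := by
  have hu : u ∈ LieSubalgebra.lieSpan K L (Set.range x) := by rw [hx]; trivial
  induction hu using LieSubalgebra.lieSpan_induction with
  | mem u hu =>
    obtain ⟨i, rfl⟩ := hu
    exact Submodule.subset_span ⟨[i], le_rfl, by simp [ev]⟩
  | zero => simp
  | add a b _ _ ha hb =>
    change LieAlgebra.ad K L (a + b) ∈ _
    rw [map_add]; exact Submodule.add_mem _ ha hb
  | smul k a _ ha =>
    change LieAlgebra.ad K L (k • a) ∈ _
    rw [map_smul]; exact Submodule.smul_mem _ _ ha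
  | lie a b _ _ ha hb =>
    have e : adE K L ⁅a, b⁆ = adE K L a * adE K L b - adE K L b * adE K L a := by
      ext y
      simp [lie_lie]
    rw [e]
    exact Submodule.sub_mem _ (AA_mono x (by omega) (AA_mul x ha hb))
      (AA_mono x (by omega) (AA_mul x hb ha))

theorem adP_AA (hx : LieSubalgebra.lieSpan K L (Set.range x) = ⊤) (l : List L) :
    adP K L l ∈ AA K x l.length := by
  induction l with
  | nil => exact Submodule.subset_span ⟨[], le_rfl, by simp [ev, adP]⟩
  | cons a l ih =>
    have e : adP K L (a :: l) = adE K L a * adP K L l := by simp [adP]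
    rw [e, List.length_cons, add_comm]
    exact AA_mul x (ad_AA x hx a) ih

theorem nil_of_words (hx : LieSubalgebra.lieSpan K L (Set.range x) = ⊤) (N : ℕ)
    (h : ∀ w : List (Fin r), w.length = N → ev (ga K x) w = 0) : NilLie K L := by
  refine ⟨N, fun l hl => ?_⟩
  have h1 := adP_AA x hx l
  rw [hl] at h1
  have h2 : AA K x N = ⊥ := by
    unfold AA
    rw [Submodule.span_eq_bot]
    rintro f ⟨w, hw, rfl⟩
    rw [← List.take_append_drop N w, ev_append, h (w.take N) (by simp [hw]), zero_mul]
  rwa [h2, Submodule.mem_bot] at h1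

/-- the descending chain. -/
def MM (I : LieIdeal K L) : ℕ → LieSubmodule K L L
  | 0 => ⊤
  | j + 1 => ⁅I, MM I j⁆

theorem MM_span (I : LieIdeal K L) (j : ℕ) : ∀ z ∈ MM I j, z ∈
    Submodule.span K {z | ∃ (l : List L) (y : L), l.length = j ∧ (∀ u ∈ l, u ∈ I) ∧
      z = adP K L l y} := by
  induction j with
  | zero =>
    intro z _
    exact Submodule.subset_span ⟨[], z, rfl, by simp, by simp [adP]⟩
  | succ j ih =>
    intro z hz
    have hz' : z ∈ (⁅I, MM I j⁆ : LieSubmodule K L L) := hz
    rw [← LieSubmodule.mem_toSubmodule, LieSubmodule.lieIdeal_oper_eq_linear_span'] at hz'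
    refine (Submodule.span_le.2 ?_ : Submodule.span K _ ≤ _) hz'
    rintro z ⟨u, hu, n, hn, rfl⟩
    have h1 := ih n hn
    change ⁅u, n⁆ ∈ _
    clear hn hz hz'
    induction h1 using Submodule.span_induction with
    | mem n hn =>
      obtain ⟨l, y, hl, hI, rfl⟩ := hn
      refine Submodule.subset_span ⟨u :: l, y, by simp [hl], ?_, by simp [adP]⟩
      intro v hv
      rcases List.mem_cons.1 hv with rfl | hv
      · exact hu
      · exact hI v hv
    | zero => simp
    | add a b _ _ ha hb => rw [lie_add]; exact Submodule.add_mem _ ha hb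
    | smul k a _ ha => rw [lie_smul]; exact Submodule.smul_mem _ _ ha

/-- operators preserving two submodules. -/
def SS (A B : Submodule K L) : Subring (Module.End K L) where
  carrier := {f | (∀ y ∈ A, f y ∈ A) ∧ ∀ y ∈ B, f y ∈ B}
  mul_mem' := by
    rintro f f' ⟨h1, h2⟩ ⟨h3, h4⟩
    exact ⟨fun y hy => h1 _ (h3 y hy), fun y hy => h2 _ (h4 y hy)⟩
  one_mem' := ⟨fun y hy => hy, fun y hy => hy⟩
  add_mem' := by
    rintro f f' ⟨h1, h2⟩ ⟨h3, h4⟩
    exact ⟨fun y hy => A.add_mem (h1 _ hy) (h3 y hy), fun y hy => B.add_mem (h2 _ hy) (h4 y hy)⟩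
  zero_mem' := ⟨fun y _ => A.zero_mem, fun y _ => B.zero_mem⟩
  neg_mem' := by
    rintro f ⟨h1, h2⟩
    exact ⟨fun y hy => A.neg_mem (h1 _ hy), fun y hy => B.neg_mem (h2 _ hy)⟩

/-- operators mapping `A` to `B`. -/
def JJ (A B : Submodule K L) : AddSubgroup (Module.End K L) where
  carrier := {f | ∀ y ∈ A, f y ∈ B}
  add_mem' := by
    intro f f' h1 h2 y hy
    exact B.add_mem (h1 _ hy) (h2 y hy)
  zero_mem' := fun y _ => B.zero_mem
  neg_mem' := by
    intro f h1 y hy
    exact B.neg_mem (h1 _ hy)

end ExtX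

open ExtX in
theorem ext_proof (hN : Stmt_Nil) : Stmt_Ext := by
  classical
  intro K L _ _ _ hFG hpow I hI hM
  obtain ⟨S, hS⟩ := hFG
  obtain ⟨n, hn⟩ := hpow
  obtain ⟨N, hN0⟩ := hI
  obtain ⟨M, hM⟩ := hM
  let x : Fin S.card → L := fun i => (S.equivFin.symm i : L)
  have hx : LieSubalgebra.lieSpan K L (Set.range x) = ⊤ := by
    have h1 : Set.range x = (S : Set L) := by
      ext z
      constructor
      · rintro ⟨i, rfl⟩; exact (S.equivFin.symm i).2
      · intro hz
        exact ⟨S.equivFin ⟨z, hz⟩, by simp [x]⟩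
    rw [h1, hS]
  -- one step
  have hstep : ∀ j : ℕ, ∃ N' : ℕ, ∀ w : List (Fin S.card), w.length = N' →
      ∀ y ∈ MM I j, ev (ga K x) w y ∈ MM I (j + 1) := by
    intro j
    have hgI : ∀ u : L, u ∈ I → ∀ y ∈ MM I j, ⁅u, y⁆ ∈ MM I (j + 1) := by
      intro u hu y hy
      exact LieSubmodule.lie_mem_lie hu hy
    obtain ⟨N', hN'⟩ := hN (Module.End K L)
      (SS ((MM I j : LieSubmodule K L L) : Submodule K L)
        ((MM I (j + 1) : LieSubmodule K L L) : Submodule K L))
      (JJ ((MM I j : LieSubmodule K L L) : Submodule K L)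
        ((MM I (j + 1) : LieSubmodule K L L) : Submodule K L))
      S.card (ga K x) N (n + 1)
      (fun i => ⟨fun y hy => (MM I j).lie_mem hy, fun y hy => (MM I (j + 1)).lie_mem hy⟩)
      (by
        intro s hs f hf
        exact ⟨fun y hy => hs.2 _ (hf y hy), fun y hy => hf _ (hs.1 y hy)⟩)
      (by
        intro m a hm ha
        obtain ⟨u, hu, rfl⟩ := comW_WL x ha
        have huI : u ∈ I := by
          have h1 : WL K x m ≤ (I : Submodule K L) := by
            unfold WL
            rw [Submodule.span_le]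
            rintro z ⟨w, i, hw, rfl⟩
            have h2 := hN0 ((w.take N).map x) (by simp; omega) (ev (ga K x) (w.drop N) (x i))
            have h3 : adP K L ((w.take N).map x) = ev (ga K x) (w.take N) := by
              simp [adP, ev, Function.comp_def]
            rw [h3, ← Module.End.mul_apply, ← ev_append, List.take_append_drop] at h2
            exact h2
          exact h1 hu
        exact fun y hy => hgI u huI y hy)
      (by
        intro a ha
        obtain ⟨u, rfl⟩ := com_ad x ha
        rw [pow_succ, hn, zero_mul]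
        exact AddSubgroup.zero_mem _)
    exact ⟨N', fun w hw y hy => hN' w hw y hy⟩
  have hall : ∀ j : ℕ, ∃ N' : ℕ, ∀ w : List (Fin S.card), w.length = N' →
      ∀ y : L, ev (ga K x) w y ∈ MM I j := by
    intro j
    induction j with
    | zero => exact ⟨0, fun w _ y => LieSubmodule.mem_top _⟩
    | succ j ih =>
      obtain ⟨N1, h1⟩ := ih
      obtain ⟨N2, h2⟩ := hstep j
      refine ⟨N2 + N1, fun w hw y => ?_⟩
      rw [← List.take_append_drop N2 w, ev_append, Module.End.mul_apply]
      exact h2 _ (by simp; omega) _ (h1 _ (by simp; omega) y)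
  obtain ⟨N', hN'⟩ := hall M
  refine nil_of_words x hx N' ?_
  intro w hw
  ext y
  have h1 := hN' w hw y
  have h2 := MM_span I M _ h1
  have h3 : ev (ga K x) w y ∈ (⊥ : Submodule K L) := by
    refine (Submodule.span_le.2 ?_ : Submodule.span K _ ≤ _) h2
    rintro z ⟨l, y, hl, hlI, rfl⟩
    rw [hM l hl hlI]
    simp
  rw [Submodule.mem_bot] at h3
  rw [h3]
  simp

end Pool.Agent.KOS
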