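import Pool.Agent.KOS.Cod1

set_option autoImplicit false

/-!
Squad KOS, module FGI: in a finitely generated Lie algebra all of whose `ad x` are nilpotent, an
ideal with nilpotent quotient is finitely generated as a Lie algebra.
-/

namespace Pool.Agent.KOS.FgiX

variable {K L : Type} [Field K] [LieRing L] [LieAlgebra K L]

theorem adP_append (l m : List L) : adP K L (l ++ m) = adP K L l * adP K L m := by
  simp [adP]

theorem adP_cons (x : L) (m : List L) : adP K L (x :: m) = adE K L x * adP K L m := by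
  simp [adP]

theorem adP_nil : adP K L ([] : List L) = 1 := by
  simp [adP]

/-- `L` is spanned by the elements `ad_w y`, letters of `w` and `y` in a generating set. -/
theorem span_adP (S : Set L) (hS : LieSubalgebra.lieSpan K L S = ⊤) :
    Submodule.span K {z : L | ∃ l : List L, (∀ x ∈ l, x ∈ S) ∧ ∃ y ∈ S, z = adP K L l y} = ⊤ := by
  set M := Submodule.span K
    {z : L | ∃ l : List L, (∀ x ∈ l, x ∈ S) ∧ ∃ y ∈ S, z = adP K L l y} with hM
  have h1 : ∀ x ∈ S, ∀ z ∈ M, ⁅x, z⁆ ∈ M := by
    intro x hx z hz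
    induction hz using Submodule.span_induction with
    | mem z hz =>
      obtain ⟨l, hl, y, hy, rfl⟩ := hz
      apply Submodule.subset_span
      refine ⟨x :: l, ?_, y, hy, ?_⟩
      · intro u hu
        rcases List.mem_cons.1 hu with rfl | hu
        · exact hx
        · exact hl u hu
      · rw [adP_cons]; rfl
    | zero => simp
    | add u v _ _ hu hv => rw [lie_add]; exact M.add_mem hu hv
    | smul a u _ hu => rw [lie_smul]; exact M.smul_mem _ hu
  have h2 : ∀ x ∈ LieSubalgebra.lieSpan K L S, ∀ z ∈ M, ⁅x, z⁆ ∈ M := by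
    intro x hx
    induction hx using LieSubalgebra.lieSpan_induction with
    | mem x hx => exact h1 x hx
    | zero => intro z _; simp
    | add u v _ _ hu hv => intro z hz; rw [add_lie]; exact M.add_mem (hu z hz) (hv z hz)
    | smul a u _ hu => intro z hz; rw [smul_lie]; exact M.smul_mem _ (hu z hz)
    | lie u v _ _ hu hv =>
      intro z hz
      rw [lie_lie]
      exact M.sub_mem (hu _ (hv z hz)) (hv _ (hu z hz))
  have h3 : ∀ x ∈ LieSubalgebra.lieSpan K L S, x ∈ M := by
    intro x hx
    induction hx using LieSubalgebra.lieSpan_induction with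
    | mem x hx => exact Submodule.subset_span ⟨[], by simp, x, hx, by simp [adP_nil]⟩
    | zero => exact M.zero_mem
    | add u v _ _ hu hv => exact M.add_mem hu hv
    | smul a u _ hu => exact M.smul_mem _ hu
    | lie u v hu' _ _ hv => exact h2 u hu' v hv
  rw [eq_top_iff]
  intro x _
  exact h3 x (by rw [hS]; exact LieSubalgebra.mem_top x)

/-- a nilpotent quotient of a finitely generated Lie algebra is finite dimensional. -/
theorem finite_quot (hL : FG K L) (I : LieIdeal K L) (hI : NilMod K L I) :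
    Module.Finite K (L ⧸ I.toSubmodule) := by
  classical
  obtain ⟨S, hS⟩ := hL
  obtain ⟨N, hN⟩ := hI
  have hspan := span_adP (K := K) (S : Set L) hS
  -- the finite set
  let f : List (S : Set L) × (S : Set L) → L := fun p => adP K L (p.1.map (fun x => x.1)) p.2.1
  have hfin : (({l : List (S : Set L) | l.length < N} ×ˢ (Set.univ : Set (S : Set L)))).Finite :=
    (List.finite_length_lt _ N).prod Set.finite_univ
  have hfin2 : (I.toSubmodule.mkQ '' (f '' ({l : List (S : Set L) | l.length < N} ×ˢ
      (Set.univ : Set (S : Set L))))).Finite := (hfin.image f).image _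
  refine ⟨⟨hfin2.toFinset, ?_⟩⟩
  rw [Set.Finite.coe_toFinset, eq_top_iff]
  have h1 : (⊤ : Submodule K (L ⧸ I.toSubmodule)) = Submodule.map I.toSubmodule.mkQ ⊤ := by
    rw [Submodule.map_top, Submodule.range_mkQ]
  rw [h1, ← hspan, Submodule.map_span, Submodule.span_le]
  rintro _ ⟨z, ⟨l, hl, y, hy, rfl⟩, rfl⟩
  by_cases hlN : l.length < N
  · apply Submodule.subset_span
    obtain ⟨l', rfl⟩ : ∃ l' : List (S : Set L), l'.map (fun x => x.1) = l := by
      refine ⟨l.pmap (fun x hx => (⟨x, hx⟩ : (S : Set L))) hl, ?_⟩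
      rw [List.map_pmap]
      simp
    refine ⟨adP K L (l'.map (fun x => x.1)) y, ⟨(l', ⟨y, hy⟩), ?_, rfl⟩, rfl⟩
    simpa using hlN
  · have : adP K L l y ∈ I := by
      rw [← List.take_append_drop N l, adP_append]
      exact hN _ (by simp; omega) _
    have h0 : I.toSubmodule.mkQ (adP K L l y) = 0 := by
      rw [Submodule.mkQ_apply, Submodule.Quotient.mk_eq_zero]
      exact this
    rw [h0]
    exact Submodule.zero_mem _

/-- the induction, in the ambient Lie algebra. -/
theorem fgi_amb (hnil : ∀ x : L, ∃ n : ℕ, adE K L x ^ n = 0) (I : LieIdeal K L)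
    (hI : NilMod K L I) [Module.Finite K (L ⧸ I.toSubmodule)] :
    ∀ (M : Submodule K (L ⧸ I.toSubmodule)) (H : LieSubalgebra K L),
      (I : LieSubalgebra K L) ≤ H → H.toSubmodule.map I.toSubmodule.mkQ = M →
      (∃ T : Finset L, LieSubalgebra.lieSpan K L (T : Set L) = H) →
      ∃ T : Finset L, LieSubalgebra.lieSpan K L (T : Set L) = (I : LieSubalgebra K L) := by
  intro M
  induction M using WellFoundedLT.induction with
  | ind M ih =>
  intro H hIH hM hH
  by_cases hHI : H ≤ (I : LieSubalgebra K L)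
  · rw [le_antisymm hIH hHI]
    exact hH
  -- derived subspace
  set W : Submodule K L := I.toSubmodule ⊔
    Submodule.span K {z | ∃ a ∈ H, ∃ b ∈ H, z = ⁅a, b⁆} with hW
  have hnot : ∃ x ∈ H, x ∉ W := by
    by_contra hcon
    push Not at hcon
    -- then H ≤ I + (words of length k)
    apply hHI
    obtain ⟨N, hN⟩ := hI
    -- every element of H is, for every k, in I + span of adP l y with l, y in H
    have hk : ∀ k : ℕ, ∀ x ∈ H, x ∈ I.toSubmodule ⊔ Submodule.span K
        {z | ∃ l : List L, l.length = k ∧ (∀ u ∈ l, u ∈ H) ∧ ∃ y ∈ H, z = adP K L l y} := by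
      intro k
      induction k with
      | zero =>
        intro x hx
        apply Submodule.mem_sup_right
        exact Submodule.subset_span ⟨[], rfl, by simp, x, hx, by simp [adP_nil]⟩
      | succ k ihk =>
        intro x hx
        have hxW := hcon x hx
        -- show W ≤
        have : W ≤ I.toSubmodule ⊔ Submodule.span K
            {z | ∃ l : List L, l.length = k + 1 ∧ (∀ u ∈ l, u ∈ H) ∧ ∃ y ∈ H,
              z = adP K L l y} := by
          rw [hW]
          apply sup_le le_sup_left
          rw [Submodule.span_le]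
          rintro z ⟨a, ha, b, hb, rfl⟩
          obtain ⟨i, hi, w, hw, hbw⟩ := Submodule.mem_sup.1 (ihk b hb)
          rw [SetLike.mem_coe, ← hbw, lie_add]
          refine Submodule.add_mem _ (Submodule.mem_sup_left ?_) (Submodule.mem_sup_right ?_)
          · exact lie_mem_right K L I a i hi
          · clear hbw
            induction hw using Submodule.span_induction with
            | mem w hw =>
              obtain ⟨l, hl, hlH, y, hy, rfl⟩ := hw
              apply Submodule.subset_span
              refine ⟨a :: l, by simp [hl], ?_, y, hy, ?_⟩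
              · intro u hu
                rcases List.mem_cons.1 hu with rfl | hu
                · exact ha
                · exact hlH u hu
              · rw [adP_cons]; rfl
            | zero => simp
            | add u v _ _ hu hv => rw [lie_add]; exact Submodule.add_mem _ hu hv
            | smul r u _ hu => rw [lie_smul]; exact Submodule.smul_mem _ _ hu
        exact this hxW
    intro x hx
    have h1 := hk N x hx
    have h2 : I.toSubmodule ⊔ Submodule.span K
        {z | ∃ l : List L, l.length = N ∧ (∀ u ∈ l, u ∈ H) ∧ ∃ y ∈ H, z = adP K L l y} ≤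
        I.toSubmodule := by
      apply sup_le le_rfl
      rw [Submodule.span_le]
      rintro z ⟨l, hl, _, y, _, rfl⟩
      exact hN l hl y
    exact h2 h1
  obtain ⟨x, hxH, hxW⟩ := hnot
  obtain ⟨f, hfx, hfW⟩ := Submodule.exists_le_ker_of_notMem hxW
  -- the hyperplane
  let H₁ : LieSubalgebra K L :=
    { carrier := {y | y ∈ H ∧ f y = 0}
      add_mem' := fun {a b} ha hb => ⟨H.add_mem ha.1 hb.1, by rw [map_add, ha.2, hb.2, add_zero]⟩
      zero_mem' := ⟨H.zero_mem, map_zero f⟩
      smul_mem' := fun c a ha => ⟨H.smul_mem c ha.1, by rw [map_smul, ha.2, smul_zero]⟩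
      lie_mem' := fun {a b} ha hb => ⟨H.lie_mem ha.1 hb.1, by
        have : ⁅a, b⁆ ∈ W :=
          Submodule.mem_sup_right (Submodule.subset_span ⟨a, ha.1, b, hb.1, rfl⟩)
        exact LinearMap.mem_ker.1 (hfW this)⟩ }
  have hH₁ : ∀ y, y ∈ H₁ ↔ y ∈ H ∧ f y = 0 := fun y => Iff.rfl
  have hle : H₁ ≤ H := fun y hy => ((hH₁ y).1 hy).1
  have hIH₁ : (I : LieSubalgebra K L) ≤ H₁ := fun y hy =>
    (hH₁ y).2 ⟨hIH hy, LinearMap.mem_ker.1 (hfW (Submodule.mem_sup_left hy))⟩
  have hlt : H₁.toSubmodule.map I.toSubmodule.mkQ < M := by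
    rw [← hM]
    refine lt_of_le_of_ne (Submodule.map_mono hle) ?_
    intro heq
    have hx' : I.toSubmodule.mkQ x ∈ H₁.toSubmodule.map I.toSubmodule.mkQ := by
      rw [heq]; exact Submodule.mem_map_of_mem hxH
    obtain ⟨y, hy, hyx⟩ := hx'
    have hyx' : y - x ∈ I.toSubmodule := (Submodule.Quotient.eq _).1 hyx
    have h1 : f (y - x) = 0 := LinearMap.mem_ker.1 (hfW (Submodule.mem_sup_left hyx'))
    have h2 : f y = 0 := ((hH₁ y).1 hy).2
    rw [map_sub, h2, zero_sub, neg_eq_zero] at h1
    exact hfx h1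
  obtain ⟨T, hT⟩ := hH
  obtain ⟨n, hn⟩ := hnil x
  refine ih _ hlt H₁ hIH₁ rfl (Cod1X.cod1_amb T H H₁ hT hle ?_ x hxH ?_ n hn)
  · intro a ha b hb
    refine (hH₁ _).2 ⟨H.lie_mem ha (hle hb), ?_⟩
    have : ⁅a, b⁆ ∈ W :=
      Submodule.mem_sup_right (Submodule.subset_span ⟨a, ha, b, hle hb, rfl⟩)
    exact LinearMap.mem_ker.1 (hfW this)
  · intro y hy
    refine ⟨f y / f x, (hH₁ _).2 ⟨H.sub_mem hy (H.smul_mem _ hxH), ?_⟩⟩
    rw [map_sub, map_smul, smul_eq_mul, div_mul_cancel₀ _ hfx, sub_self]

end Pool.Agent.KOS.FgiX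

namespace Pool.Agent.KOS

theorem fgi_proof : Stmt_FGI := by
  intro K L _ _ _ hFG hnil I hI
  have := FgiX.finite_quot hFG I hI
  obtain ⟨T, hT⟩ := hFG
  obtain ⟨T₁, hT₁⟩ := FgiX.fgi_amb hnil I hI _ ⊤ le_top rfl ⟨T, hT⟩
  exact Cod1X.fg_of_lieSpan I T₁ (fun y => by rw [hT₁]; exact Iff.rfl)

end Pool.Agent.KOS
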