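import Pool.Agent.KOS.StmtsA

set_option autoImplicit false

namespace Pool.Agent.KOS

namespace FINPX

variable {K : Type} [Field K]

lemma dd_map {Q Q' : Type} [Group Q] [Group Q'] (f : Q →* Q') (n : ℕ) :
    ∀ x ∈ DD K Q n, MonoidAlgebra.mapDomainAlgHom K K f x ∈ DD K Q' n := by
  induction n with
  | zero => intro x _; exact Submodule.mem_top
  | succ n ih =>
    intro x hx
    have h1 : Aug K Q * DD K Q n ≤
        (DD K Q' (n + 1)).comap (MonoidAlgebra.mapDomainAlgHom K K f).toLinearMap := by
      rw [Submodule.mul_le]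
      intro a ha b hb
      have ha' : (MonoidAlgebra.mapDomainAlgHom K K f) a ∈ Aug K Q' := by
        have : Aug K Q ≤ (Aug K Q').comap (MonoidAlgebra.mapDomainAlgHom K K f).toLinearMap := by
          refine Submodule.span_le.mpr ?_
          rintro _ ⟨g, rfl⟩
          refine Submodule.subset_span ⟨f g, ?_⟩
          simp [dlt, MonoidAlgebra.of_apply, MonoidAlgebra.mapDomain_single, map_sub]
        exact this ha
      show (MonoidAlgebra.mapDomainAlgHom K K f) (a * b) ∈ Aug K Q' * DD K Q' n
      rw [map_mul]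
      exact Submodule.mul_mem_mul ha' (ih b hb)
    exact h1 hx

lemma dd_shift {Q : Type} [Group Q] (w : MonoidAlgebra K Q) (hw : ∀ x, Commute w x) (n : ℕ)
    (hn : ∀ x ∈ DD K Q n, ∃ y, x = w * y) (m : ℕ) :
    ∀ x ∈ DD K Q (m + n), ∃ y ∈ DD K Q m, x = w * y := by
  induction m with
  | zero =>
    intro x hx
    rw [Nat.zero_add] at hx
    obtain ⟨y, hy⟩ := hn x hx
    exact ⟨y, Submodule.mem_top, hy⟩
  | succ m ih =>
    intro x hx
    have e : m + 1 + n = (m + n) + 1 := by ring
    rw [e] at hx
    have h1 : Aug K Q * DD K Q (m + n) ≤ (DD K Q (m + 1)).map (LinearMap.mulLeft K w) := by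
      rw [Submodule.mul_le]
      intro a ha b hb
      obtain ⟨y, hy, rfl⟩ := ih b hb
      refine ⟨a * y, Submodule.mul_mem_mul ha hy, ?_⟩
      show w * (a * y) = a * (w * y)
      rw [← mul_assoc, (hw a).eq, mul_assoc]
    obtain ⟨y, hy, e2⟩ := h1 hx
    exact ⟨y, hy, e2.symm⟩

lemma ker_sub {Q : Type} [Group Q] (z : Q) (hz : ∀ g : Q, z * g = g * z) (N : Subgroup Q)
    [N.Normal] (hN : ∀ g ∈ N, ∃ n : ℕ, z ^ n = g) (x : MonoidAlgebra K Q)
    (hx : MonoidAlgebra.mapDomainAlgHom K K (QuotientGroup.mk' N) x = 0) :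
    ∃ y, x = dlt K Q z * y := by
  classical
  have hzc : ∀ x : MonoidAlgebra K Q, Commute (MonoidAlgebra.of K Q z) x := by
    intro x
    induction x using MonoidAlgebra.induction_on with
    | of g =>
      show MonoidAlgebra.of K Q z * MonoidAlgebra.of K Q g
        = MonoidAlgebra.of K Q g * MonoidAlgebra.of K Q z
      rw [← map_mul, ← map_mul, hz]
    | add f g hf hg => exact hf.add_right hg
    | smul r f hf => exact hf.smul_right r
  let s : Q → Q := fun g => (QuotientGroup.mk' N g).out
  have hs : ∀ g : Q, ∃ y, MonoidAlgebra.of K Q g - MonoidAlgebra.of K Q (s g) = dlt K Q z * y := by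
    intro g
    have h1 : (s g)⁻¹ * g ∈ N := by
      rw [← QuotientGroup.eq]
      exact Quotient.out_eq _
    obtain ⟨n, hn⟩ := hN _ h1
    have h2 : g = s g * z ^ n := by rw [hn]; group
    refine ⟨MonoidAlgebra.of K Q (s g) * ∑ i ∈ Finset.range n, (MonoidAlgebra.of K Q z) ^ i, ?_⟩
    have h3 : dlt K Q z * ∑ i ∈ Finset.range n, (MonoidAlgebra.of K Q z) ^ i
        = (MonoidAlgebra.of K Q z) ^ n - 1 := by
      unfold dlt
      exact mul_geom_sum _ _
    have h4 : dlt K Q z * MonoidAlgebra.of K Q (s g) = MonoidAlgebra.of K Q (s g) * dlt K Q z := by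
      unfold dlt
      rw [sub_mul, mul_sub, (hzc _).eq, one_mul, mul_one]
    rw [← mul_assoc, h4, mul_assoc, h3, mul_sub, mul_one, ← map_pow, ← map_mul, ← h2]
  have key : ∀ x : MonoidAlgebra K Q, ∃ y, x - MonoidAlgebra.mapDomain s x = dlt K Q z * y := by
    intro x
    induction x using MonoidAlgebra.induction_on with
    | of g =>
      obtain ⟨y, hy⟩ := hs g
      refine ⟨y, ?_⟩
      rw [← hy]
      simp [MonoidAlgebra.of_apply, MonoidAlgebra.mapDomain_single]
    | add f g hf hg =>
      obtain ⟨y1, h1⟩ := hf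
      obtain ⟨y2, h2⟩ := hg
      refine ⟨y1 + y2, ?_⟩
      rw [mul_add, ← h1, ← h2, MonoidAlgebra.mapDomain_add]
      abel
    | smul r f hf =>
      obtain ⟨y, h⟩ := hf
      refine ⟨r • y, ?_⟩
      rw [mul_smul_comm, ← h, MonoidAlgebra.mapDomain_smul, smul_sub]
  obtain ⟨y, hy⟩ := key x
  refine ⟨y, ?_⟩
  rw [← hy]
  have h5 : MonoidAlgebra.mapDomain s x = 0 := by
    have h6 : MonoidAlgebra.mapDomain (QuotientGroup.mk' N) x = 0 := hx
    have h7 : MonoidAlgebra.mapDomain s x
        = MonoidAlgebra.mapDomain Quotient.out (MonoidAlgebra.mapDomain (QuotientGroup.mk' N) x) := by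
      ext
      simp [MonoidAlgebra.mapDomain, ← Finsupp.mapDomain_comp, s, Function.comp_def]
    rw [h7, h6]
    exact MonoidAlgebra.mapDomain_zero _
  rw [h5, sub_zero]

lemma main (p : ℕ) [Fact p.Prime] [CharP K p] : ∀ (k : ℕ) (Q : Type) [Group Q] [Finite Q],
    Nat.card Q ≤ k → IsPGroup p Q → ∃ M : ℕ, DD K Q M = ⊥ := by
  intro k
  induction k with
  | zero =>
    intro Q _ _ h _
    exact absurd (Nat.card_pos (α := Q)) (by omega)
  | succ k ih =>
    intro Q _ _ hcard hp
    by_cases hnt : Nontrivial Q
    · have hc := hp.center_nontrivial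
      obtain ⟨⟨z, hzc⟩, hz1⟩ := exists_ne (1 : Subgroup.center Q)
      have hz1' : z ≠ 1 := fun h => hz1 (Subtype.ext h)
      have hzg : ∀ g : Q, z * g = g * z := fun g => ((Subgroup.mem_center_iff.mp hzc) g).symm
      let N : Subgroup Q := Subgroup.zpowers z
      haveI : N.Normal := by
        constructor
        intro n hn g
        have h1 : g * n * g⁻¹ = n := by
          obtain ⟨i, rfl⟩ := Subgroup.mem_zpowers_iff.mp hn
          have : Commute z g := hzg g
          have h2 : Commute (z ^ i) g := this.zpow_left i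
          rw [← h2.eq, mul_assoc, mul_inv_cancel, mul_one]
        rw [h1]; exact hn
      have hN : ∀ g ∈ N, ∃ n : ℕ, z ^ n = g := by
        intro g hg
        have h1 : g ∈ Submonoid.powers z := by
          rw [mem_powers_iff_mem_zpowers]; exact hg
        obtain ⟨n, hn⟩ := h1
        exact ⟨n, hn⟩
      have hlt : Nat.card (Q ⧸ N) ≤ k := by
        have h1 := Subgroup.card_eq_card_quotient_mul_card_subgroup N
        have h2 : 1 < Nat.card N := by
          rw [Subgroup.one_lt_card_iff_ne_bot]
          intro h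
          rw [Subgroup.zpowers_eq_bot] at h
          exact hz1' h
        have h3 : 0 < Nat.card (Q ⧸ N) := Nat.card_pos
        nlinarith
      obtain ⟨M, hM⟩ := ih (Q ⧸ N) hlt (hp.to_quotient N)
      have hker : ∀ x ∈ DD K Q M, ∃ y, x = dlt K Q z * y := by
        intro x hx
        apply ker_sub z hzg N hN
        have := dd_map (K := K) (QuotientGroup.mk' N) M x hx
        rw [hM] at this
        exact (Submodule.mem_bot K).mp this
      have hcomm : ∀ x : MonoidAlgebra K Q, Commute (dlt K Q z) x := by
        intro x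
        have : Commute (MonoidAlgebra.of K Q z) x := by
          induction x using MonoidAlgebra.induction_on with
          | of g =>
            show MonoidAlgebra.of K Q z * MonoidAlgebra.of K Q g
              = MonoidAlgebra.of K Q g * MonoidAlgebra.of K Q z
            rw [← map_mul, ← map_mul, hzg]
          | add f g hf hg => exact hf.add_right hg
          | smul r f hf => exact hf.smul_right r
        exact this.sub_left (Commute.one_left x)
      have hpow : ∀ j : ℕ, ∀ x ∈ DD K Q (j * M), ∃ y, x = (dlt K Q z) ^ j * y := by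
        intro j
        induction j with
        | zero => intro x _; exact ⟨x, by simp⟩
        | succ j ihj =>
          intro x hx
          have e : (j + 1) * M = M + j * M := by ring
          rw [e] at hx
          obtain ⟨y, hy, rfl⟩ := dd_shift ((dlt K Q z) ^ j)
            (fun x => (hcomm x).pow_left j) (j * M) ihj M x hx
          obtain ⟨y', rfl⟩ := hker y hy
          exact ⟨y', by rw [pow_succ, mul_assoc]⟩
      obtain ⟨n, hn⟩ := hp z
      refine ⟨p ^ n * M, ?_⟩
      rw [Submodule.eq_bot_iff]
      intro x hx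
      obtain ⟨y, rfl⟩ := hpow (p ^ n) x hx
      have h0 : (dlt K Q z) ^ (p ^ n) = 0 := by
        haveI : CharP (MonoidAlgebra K Q) p := by
          exact charP_of_injective_algebraMap (R := K) (A := MonoidAlgebra K Q)
            (algebraMap K (MonoidAlgebra K Q)).injective p
        unfold dlt
        rw [sub_pow_char_pow_of_commute p n (Commute.one_right _), one_pow, ← map_pow, hn, map_one, sub_self]
      rw [h0, zero_mul]
    · rw [not_nontrivial_iff_subsingleton] at hnt
      refine ⟨1, ?_⟩
      have h1 : Aug K Q = ⊥ := by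
        rw [Submodule.eq_bot_iff]
        intro x hx
        have : Aug K Q ≤ ⊥ := by
          refine Submodule.span_le.mpr ?_
          rintro _ ⟨g, rfl⟩
          have hg : g = 1 := Subsingleton.elim _ _
          show dlt K Q g ∈ (⊥ : Submodule K (MonoidAlgebra K Q))
          rw [Submodule.mem_bot, dlt, hg, map_one, sub_self]
        exact (Submodule.mem_bot K).mp (this hx)
      show Aug K Q * DD K Q 0 = ⊥
      rw [h1, Submodule.bot_mul]

end FINPX

theorem finp_proof : Stmt_FinP := by
  intro K Q _ _ _ p _ _ hp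
  exact FINPX.main p (Nat.card Q) Q le_rfl hp

end Pool.Agent.KOS
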