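import Pool.Agent.KOS.StmtsA

set_option autoImplicit false

/-!
Squad KOS, module FINAL: the final assembly for groups of exponent `p`.
-/

namespace Pool.Agent.KOS

namespace FinalX

variable {K G Q : Type} [Field K] [Group G] [Group Q]

/-- The map of group algebras induced by a homomorphism of groups. -/
noncomputable def mp (K : Type) [Field K] (f : G →* Q) : MonoidAlgebra K G →ₐ[K] MonoidAlgebra K Q :=
  MonoidAlgebra.mapDomainAlgHom K K f

lemma mp_dlt (f : G →* Q) (g : G) : mp K f (dlt K G g) = dlt K Q (f g) := by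
  unfold dlt mp
  rw [map_sub, map_one]
  congr 1
  simp [MonoidAlgebra.of_apply, MonoidAlgebra.mapDomainAlgHom_apply]

lemma mp_aug (f : G →* Q) (a : MonoidAlgebra K G) (ha : a ∈ Aug K G) : mp K f a ∈ Aug K Q := by
  have h : Aug K G ≤ (Aug K Q).comap (mp K f).toLinearMap := by
    unfold Aug
    rw [Submodule.span_le]
    rintro _ ⟨g, rfl⟩
    rw [SetLike.mem_coe, Submodule.mem_comap]
    apply Submodule.subset_span
    exact ⟨f g, (mp_dlt f g).symm⟩
  exact h ha

lemma mp_DD (f : G →* Q) (n : ℕ) (a : MonoidAlgebra K G) (ha : a ∈ DD K G n) :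
    mp K f a ∈ DD K Q n := by
  induction n generalizing a with
  | zero => exact Submodule.mem_top
  | succ n ih =>
    rw [DD] at ha ⊢
    induction ha using Submodule.mul_induction_on' with
    | mem_mul_mem x hx y hy =>
      rw [map_mul]
      exact Submodule.mul_mem_mul (mp_aug f x hx) (ih y hy)
    | add x _ y _ hx hy =>
      rw [map_add]
      exact Submodule.add_mem _ hx hy

lemma dlt_eq_zero {g : G} (h : dlt K G g = 0) : g = 1 := by
  unfold dlt at h
  rw [sub_eq_zero, ← map_one (MonoidAlgebra.of K G)] at h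
  exact MonoidAlgebra.of_injective h

lemma exists_fin_gen (h : Group.FG G) : ∃ (r : ℕ) (g : Fin r → G),
    Subgroup.closure (Set.range g) = ⊤ := by
  obtain ⟨n, S, hS, hc⟩ := Group.fg_iff'.1 h
  refine ⟨S.card, fun i => (S.equivFin.symm i : G), ?_⟩
  have : Set.range (fun i => (S.equivFin.symm i : G)) = (S : Set G) := by
    ext x
    constructor
    · rintro ⟨i, rfl⟩
      exact (S.equivFin.symm i).2
    · intro hx
      exact ⟨S.equivFin ⟨x, hx⟩, by simp⟩
  rw [this, hc]

end FinalX

open FinalX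

theorem final_proof (hRees : Stmt_Rees) (hDGen : Stmt_DGen) (hFinP : Stmt_FinP)
    (hDSub : Stmt_DSub) (hDMul : Stmt_DMul) : Stmt_Kostrikin := by
  intro p hp hp5 G _ hfg hexp
  haveI : Fact p.Prime := ⟨hp⟩
  set K : Type := AlgebraicClosure (ZMod p) with hK
  haveI : CharP K p := charP_of_injective_algebraMap (algebraMap (ZMod p) K).injective p
  obtain ⟨r, g, hg⟩ := exists_fin_gen hfg
  obtain ⟨N, hN⟩ := hRees K G p hp5 hexp r g
  have hst := hDGen K G r g hg N hN
  obtain ⟨R, hRn, hRf, hR⟩ := hDSub K G p hfg hexp N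
  refine ⟨R, hRn, hRf, ?_⟩
  intro H hHn hHf x hx
  have hfin : Finite (G ⧸ H) := Subgroup.finite_quotient_of_finiteIndex
  have hpg : IsPGroup p (G ⧸ H) := by
    intro y
    obtain ⟨z, rfl⟩ := QuotientGroup.mk_surjective y
    refine ⟨1, ?_⟩
    rw [pow_one, ← QuotientGroup.mk_pow, hexp z, QuotientGroup.mk_one]
  obtain ⟨M, hM⟩ := hFinP K (G ⧸ H) p hpg
  have h1 : dlt K G x ∈ DD K G N := (hR x).1 hx
  have h2 : dlt K G x ∈ DD K G M := by
    have h3 : DD K G (max N M) = DD K G N := hst _ (le_max_left _ _)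
    rw [← h3] at h1
    exact (hDMul K G).2 M (max N M) (le_max_right _ _) h1
  have h4 := mp_DD (QuotientGroup.mk' H) M _ h2
  rw [mp_dlt, hM, Submodule.mem_bot] at h4
  have h5 := dlt_eq_zero h4
  rw [QuotientGroup.mk'_apply, QuotientGroup.eq_one_iff] at h5
  exact h5

end Pool.Agent.KOS
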