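import Pool.Agent.KOS.StmtsA

set_option autoImplicit false

/-! Squad KOS, module JNN: a just non-nilpotent quotient. -/

namespace Pool.Agent.KOS

namespace JNNX

variable {K L M : Type*} [Field K] [LieRing L] [LieAlgebra K L] [LieRing M] [LieAlgebra K M]

lemma adP_cons (x : L) (l : List L) (y : L) : adP K L (x :: l) y = ⁅x, adP K L l y⁆ := by
  simp [adP, adE]

lemma adP_nil (y : L) : adP K L [] y = y := by
  simp [adP]

lemma adP_map (f : L →ₗ⁅K⁆ M) (l : List L) (y : L) :
    adP K M (l.map f) (f y) = f (adP K L l y) := by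
  induction l with
  | nil => rw [List.map_nil, adP_nil, adP_nil]
  | cons x l ih => rw [List.map_cons, adP_cons, adP_cons, ih, LieHom.map_lie]

/-- the quotient map as a homomorphism of Lie algebras -/
def qm (J : LieIdeal K L) : L →ₗ⁅K⁆ (L ⧸ J) :=
  { J.toSubmodule.mkQ with
    toFun := LieSubmodule.Quotient.mk
    map_lie' := fun {_ _} => rfl }

lemma qm_surj (J : LieIdeal K L) : Function.Surjective (qm J) := Quot.mk_surjective

lemma qm_eq_zero (J : LieIdeal K L) (x : L) : qm J x = 0 ↔ x ∈ J :=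
  Submodule.Quotient.mk_eq_zero J.toSubmodule

lemma fg_of_surj (f : L →ₗ⁅K⁆ M) (hf : Function.Surjective f) (h : FG K L) : FG K M := by
  classical
  obtain ⟨S, hS⟩ := h
  refine ⟨S.image f, ?_⟩
  rw [eq_top_iff]
  intro y _
  obtain ⟨x, rfl⟩ := hf y
  have hx : x ∈ LieSubalgebra.lieSpan K L (S : Set L) := by rw [hS]; exact LieSubalgebra.mem_top x
  have hle : LieSubalgebra.lieSpan K L (S : Set L) ≤
      (LieSubalgebra.lieSpan K M ((S.image f : Finset M) : Set M)).comap f := by
    rw [LieSubalgebra.lieSpan_le]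
    intro s hs
    change f s ∈ LieSubalgebra.lieSpan K M ((S.image f : Finset M) : Set M)
    apply LieSubalgebra.subset_lieSpan
    rw [Finset.coe_image]
    exact ⟨s, hs, rfl⟩
  exact hle hx

end JNNX

open JNNX in
theorem jnn_proof (hZ : Stmt_Zorn) : Stmt_JNN := by
  intro K L _ _ _ hFG hnil
  obtain ⟨J, hJ, hmax⟩ := hZ K L hFG hnil
  refine ⟨L ⧸ J, inferInstance, inferInstance, qm J, qm_surj J, fg_of_surj _ (qm_surj J) hFG,
    ?_, ?_⟩
  · rintro ⟨N, hN⟩
    apply hJ
    refine ⟨N, fun l hl y => ?_⟩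
    rw [← qm_eq_zero, ← adP_map, hN _ (by rw [List.length_map, hl]), LinearMap.zero_apply]
  · intro J' hJ'
    have hlt : J < J'.comap (qm J) := by
      refine lt_of_le_of_ne (fun x hx => ?_) ?_
      · rw [LieIdeal.mem_comap, (qm_eq_zero J x).2 hx]
        exact zero_mem _
      · intro he
        apply hJ'
        rw [eq_bot_iff]
        intro y hy
        obtain ⟨x, rfl⟩ := qm_surj J y
        have hx : x ∈ J := by
          rw [he, LieIdeal.mem_comap]
          exact hy
        rw [LieSubmodule.mem_bot]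
        exact (qm_eq_zero J x).2 hx
    obtain ⟨N, hN⟩ := hmax _ hlt
    refine ⟨N, fun l hl y => ?_⟩
    obtain ⟨l', rfl⟩ := (List.map_surjective_iff.2 (qm_surj J)) l
    obtain ⟨x, rfl⟩ := qm_surj J y
    rw [adP_map]
    have := hN l' (by rw [← hl, List.length_map]) x
    rwa [LieIdeal.mem_comap] at this

end Pool.Agent.KOS
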