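import Pool.Agent.KOS.StmtsB

set_option autoImplicit false

namespace Pool.Agent.KOS

open Finset in
theorem jet_proof : Stmt_Jet := by
  intro K V _ _ _ _ S d c h i hi
  have hq : ∀ φ : Module.Dual K (V ⧸ S), φ (S.mkQ (c i)) = 0 := by
    intro φ
    let P : Polynomial K := ∑ j ∈ range d, Polynomial.C (φ (S.mkQ (c j))) * Polynomial.X ^ j
    have hP : P = 0 := by
      apply Polynomial.funext
      intro t
      have h1 : S.mkQ (∑ j ∈ range d, t ^ j • c j) = 0 := by
        rw [← LinearMap.mem_ker, Submodule.ker_mkQ]
        exact h t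
      have h2 := congrArg φ h1
      simp only [map_sum, map_smul, map_zero, smul_eq_mul] at h2
      simp only [P, Polynomial.eval_finset_sum, Polynomial.eval_mul, Polynomial.eval_C,
        Polynomial.eval_pow, Polynomial.eval_X, Polynomial.eval_zero]
      rw [← h2]
      apply sum_congr rfl
      intro j _
      ring
    have h3 := congrArg (fun Q => Polynomial.coeff Q i) hP
    simp only [P, Polynomial.finset_sum_coeff, Polynomial.coeff_C_mul, Polynomial.coeff_X_pow,
      Polynomial.coeff_zero] at h3
    rw [sum_eq_single i] at h3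
    · simpa using h3
    · intro j _ hj
      simp [hj.symm]
    · intro h4
      exact absurd (mem_range.mpr hi) h4
  have := (Module.forall_dual_apply_eq_zero_iff K (S.mkQ (c i))).mp hq
  rw [← LinearMap.mem_ker, Submodule.ker_mkQ] at this
  exact this

theorem sSpan_proof (hJ : Stmt_Jet) : Stmt_SSpan := by
  intro K L _ _ _ _ V hV z hz y
  refine Submodule.span_induction (p := fun z _ => ⁅y, z⁆ ∈ Submodule.span K V) ?_ ?_ ?_ ?_ hz
  · intro v hv
    obtain ⟨q, hq, d, c, hd, hc0, hc1, hqt⟩ := hV v hv y
    have h := hJ K L (Submodule.span K V) d c (fun t => by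
      rw [← hqt t]; exact Submodule.subset_span (hq t)) 1 (by omega)
    rw [hc1] at h
    rw [← lie_skew]
    exact Submodule.neg_mem _ h
  · simp
  · intro a b _ _ ha hb
    rw [lie_add]; exact Submodule.add_mem _ ha hb
  · intro c x _ hx
    rw [lie_smul]; exact Submodule.smul_mem _ _ hx

end Pool.Agent.KOS
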