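import Pool.Agent.KOS.StmtsA

set_option autoImplicit false

/-! Module LYN: bracketing of Lyndon words. -/

namespace Pool.Agent.KOS

namespace LynX

theorem lt_append {r : ℕ} : ∀ (u u' x y : List (Fin r)), u.length = u'.length → u < u' →
    u ++ x < u' ++ y
  | [], [], _, _, _, h => absurd h (lt_irrefl _)
  | [], _ :: _, _, _, hl, _ => by simp at hl
  | _ :: _, [], _, _, hl, _ => by simp at hl
  | a :: u, b :: u', x, y, hl, h => by
    rw [List.cons_lt_cons_iff] at h
    rw [List.cons_append, List.cons_append, List.cons_lt_cons_iff]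
    rcases h with h | ⟨h1, h2⟩
    · exact Or.inl h
    · refine Or.inr ⟨h1, lt_append u u' x y (by simpa using hl) h2⟩

theorem append_lt {r : ℕ} : ∀ (u x y : List (Fin r)), x < y → u ++ x < u ++ y
  | [], _, _, h => h
  | a :: u, x, y, h => by
    rw [List.cons_append, List.cons_append, List.cons_lt_cons_iff]
    exact Or.inr ⟨rfl, append_lt u x y h⟩

theorem ev_append {R : Type*} [Monoid R] {r : ℕ} (g : Fin r → R) (u v : List (Fin r)) :
    ev g (u ++ v) = ev g u * ev g v := by
  simp [ev]

section
variable (K : Type*) {R : Type*} [Field K] [Ring R] [Algebra K R] {r : ℕ} (g : Fin r → R)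

/-- span of all words of length `n`. -/
def Sp (n : ℕ) : Submodule K R :=
  Submodule.span K {x | ∃ w' : List (Fin r), w'.length = n ∧ x = ev g w'}

theorem up_le_sp (w : List (Fin r)) : Up K g w ≤ Sp K g w.length := by
  apply Submodule.span_mono
  rintro x ⟨w', h1, _, h3⟩
  exact ⟨w', h1, h3⟩

theorem ev_mem_sp (w : List (Fin r)) : ev g w ∈ Sp K g w.length :=
  Submodule.subset_span ⟨w, rfl, rfl⟩

theorem up_mul_sp (u v : List (Fin r)) (x y : R) (hx : x ∈ Up K g u)
    (hy : y ∈ Sp K g v.length) : x * y ∈ Up K g (u ++ v) := by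
  induction hx using Submodule.span_induction with
  | mem x hx =>
    obtain ⟨u', h1, h2, rfl⟩ := hx
    induction hy using Submodule.span_induction with
    | mem y hy =>
      obtain ⟨v', h3, rfl⟩ := hy
      rw [← ev_append]
      refine Submodule.subset_span ⟨u' ++ v', ?_, ?_, rfl⟩
      · simp [h1, h3]
      · exact lt_append u u' v v' h1.symm h2
    | zero => rw [mul_zero]; exact Submodule.zero_mem _
    | add a b _ _ ha hb => rw [mul_add]; exact Submodule.add_mem _ ha hb
    | smul c a _ ha => rw [mul_smul_comm]; exact Submodule.smul_mem _ _ ha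
  | zero => rw [zero_mul]; exact Submodule.zero_mem _
  | add a b _ _ ha hb => rw [add_mul]; exact Submodule.add_mem _ ha hb
  | smul c a _ ha => rw [smul_mul_assoc]; exact Submodule.smul_mem _ _ ha

theorem ev_mul_up (u v : List (Fin r)) (y : R) (hy : y ∈ Up K g v) :
    ev g u * y ∈ Up K g (u ++ v) := by
  induction hy using Submodule.span_induction with
  | mem y hy =>
    obtain ⟨v', h3, h4, rfl⟩ := hy
    rw [← ev_append]
    refine Submodule.subset_span ⟨u ++ v', ?_, ?_, rfl⟩
    · simp [h3]
    · exact append_lt u v v' h4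
  | zero => rw [mul_zero]; exact Submodule.zero_mem _
  | add a b _ _ ha hb => rw [mul_add]; exact Submodule.add_mem _ ha hb
  | smul c a _ ha => rw [mul_smul_comm]; exact Submodule.smul_mem _ _ ha

theorem mul_sub_ev (u v : List (Fin r)) (a b : R) (ha : a - ev g u ∈ Up K g u)
    (hb : b - ev g v ∈ Up K g v) : a * b - ev g (u ++ v) ∈ Up K g (u ++ v) := by
  have hb' : b ∈ Sp K g v.length := by
    have h1 := Submodule.add_mem _ (up_le_sp K g v hb) (ev_mem_sp K g v)
    rwa [sub_add_cancel] at h1
  have h2 := Submodule.add_mem _ (up_mul_sp K g u v _ _ ha hb') (ev_mul_up K g u v _ hb)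
  have h3 : (a - ev g u) * b + ev g u * (b - ev g v) = a * b - ev g (u ++ v) := by
    rw [ev_append]; noncomm_ring
  rwa [h3] at h2

theorem up_mono (w w' : List (Fin r)) (hl : w'.length = w.length) (h : w < w') :
    Up K g w' ≤ Up K g w := by
  apply Submodule.span_mono
  rintro x ⟨v, h1, h2, h3⟩
  exact ⟨v, h1.trans hl, h.trans h2, h3⟩

end

end LynX

open LynX in
theorem lyn_proof (hF : Stmt_LynF) : Stmt_Lyn := by
  intro K R _ _ _ r g w
  induction hn : w.length using Nat.strong_induction_on generalizing w with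
  | _ n ih =>
  subst hn
  intro hw
  by_cases h2 : 2 ≤ w.length
  · obtain ⟨u, v, rfl, hu, hv, huv⟩ := hF r w hw h2
    have hu0 : 0 < u.length := List.length_pos_iff.mpr hu.1
    have hv0 : 0 < v.length := List.length_pos_iff.mpr hv.1
    obtain ⟨a, ha, ha'⟩ := ih u.length (by simp; omega) u rfl hu
    obtain ⟨b, hb, hb'⟩ := ih v.length (by simp; omega) v rfl hv
    refine ⟨a * b - b * a, Com.br a b ha hb, ?_⟩
    have hl : (v ++ u).length = (u ++ v).length := by simp [Nat.add_comm]
    have e1 := mul_sub_ev K g u v a b ha' hb'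
    have e2 := up_mono K g (u ++ v) (v ++ u) hl huv (mul_sub_ev K g v u b a hb' ha')
    have e3 : ev g (v ++ u) ∈ Up K g (u ++ v) :=
      Submodule.subset_span ⟨v ++ u, hl, huv, rfl⟩
    have e4 := Submodule.sub_mem _ (Submodule.sub_mem _ e1 e2) e3
    have e5 : a * b - ev g (u ++ v) - (b * a - ev g (v ++ u)) - ev g (v ++ u) =
        a * b - b * a - ev g (u ++ v) := by abel
    rwa [e5] at e4
  · have h0 : 0 < w.length := List.length_pos_iff.mpr hw.1
    have h1 : w.length = 1 := by omega
    obtain ⟨x, rfl⟩ := List.length_eq_one_iff.mp h1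
    refine ⟨g x, Com.gen x, ?_⟩
    have : ev g [x] = g x := by simp [ev]
    rw [this, sub_self]
    exact Submodule.zero_mem _

end Pool.Agent.KOS
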