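import Pool.Agent.KOS.StmtsA

set_option autoImplicit false

namespace Pool.Agent.KOS

theorem mainE_proof (hJNN : Stmt_JNN) (hChain : Stmt_Chain) (hFGI : Stmt_FGI) (hSub : Stmt_Sub)
    (hExt : Stmt_Ext) : Stmt_MainE := by
  intro K L _ _ _ _ n hn h2 h3 hfg hEng
  by_contra hnil
  obtain ⟨M, iM, iMA, f, hf, hfgM, hnilM, hJ⟩ := hJNN K L hfg hnil
  have hpow : ∀ (x : L) (k : ℕ) (z : L), f (((adE K L x) ^ k) z) = ((adE K M (f x)) ^ k) (f z) := by
    intro x k
    induction k with
    | zero => intro z; simp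
    | succ k ih =>
      intro z
      rw [pow_succ, pow_succ, Module.End.mul_apply, Module.End.mul_apply, ih]
      congr 1
      simp
  have hEngM : ∀ y : M, adE K M y ^ n = 0 := by
    intro y
    obtain ⟨x, rfl⟩ := hf y
    ext w
    obtain ⟨z, rfl⟩ := hf w
    rw [← hpow, hEng x]
    simp
  have hnt : Nontrivial M := by
    by_contra hns
    rw [not_nontrivial_iff_subsingleton] at hns
    apply hnilM
    refine ⟨0, fun l _ => ?_⟩
    ext z
    exact Subsingleton.elim _ _
  obtain ⟨I, hI0, hIs⟩ := hChain K M n hn h2 h3 hEngM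
  have hNM := hJ I hI0
  obtain ⟨S, hS⟩ := hFGI K M hfgM (fun x => ⟨n, hEngM x⟩) I hNM
  have hfin : ∀ s : I, ∃ T : Finset M, (∀ t ∈ T, t ∈ I ∧ adE K M t ^ 2 = 0) ∧
      (s : M) ∈ Submodule.span K (T : Set M) := by
    intro s
    obtain ⟨T, hT, hs⟩ := Submodule.mem_span_finite_of_mem_span (hIs s s.2)
    exact ⟨T, fun t ht => hT (by exact_mod_cast ht), hs⟩
  choose T hT hTs using hfin
  classical
  set T' : Finset M := S.biUnion T with hT'
  have hT'sand : ∀ t ∈ T', adE K M t ^ 2 = 0 := by
    intro t ht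
    rw [hT', Finset.mem_biUnion] at ht
    obtain ⟨s, _, hts⟩ := ht
    exact (hT s t hts).2
  obtain ⟨M0, hM0⟩ := hSub K M h2 T' hT'sand
  have hmem : ∀ x ∈ I, x ∈ LieSubalgebra.lieSpan K M (T' : Set M) := by
    have hle : LieSubalgebra.lieSpan K I (S : Set I) ≤
        (LieSubalgebra.lieSpan K M (T' : Set M)).comap (LieIdeal.incl I) := by
      rw [LieSubalgebra.lieSpan_le]
      intro s hs
      change ((s : I) : M) ∈ LieSubalgebra.lieSpan K M (T' : Set M)
      have h1 : (s : M) ∈ Submodule.span K (T' : Set M) := by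
        apply Submodule.span_mono _ (hTs s)
        intro t ht
        have ht' : t ∈ T s := by exact_mod_cast ht
        have : t ∈ T' := by
          rw [hT', Finset.mem_biUnion]
          exact ⟨s, by exact_mod_cast hs, ht'⟩
        exact_mod_cast this
      have h2 : Submodule.span K (T' : Set M) ≤
          (LieSubalgebra.lieSpan K M (T' : Set M)).toSubmodule :=
        Submodule.span_le.mpr LieSubalgebra.subset_lieSpan
      exact h2 h1
    intro x hx
    have hx' : (⟨x, hx⟩ : I) ∈ LieSubalgebra.lieSpan K I (S : Set I) := by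
      rw [hS]; trivial
    exact hle hx'
  apply hnilM
  exact hExt K M hfgM ⟨n, hEngM⟩ I hNM ⟨M0, fun l hl hx => hM0 l hl (fun x hxl => hmem x (hx x hxl))⟩

end Pool.Agent.KOS
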