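import Pool.Agent.KOS.StmtsA

set_option autoImplicit false

/-! Module MULTI. -/

namespace Pool.Agent.KOS

namespace MultiX

variable {K G : Type} [Field K] [Group G]

lemma one_mem_DD : (1 : MonoidAlgebra K G) ∈ DD K G 0 := Submodule.mem_top

lemma prod_mem (hD : Stmt_DMul) {ι : Type} (l : List ι) (x : ι → MonoidAlgebra K G) (e : ι → ℕ)
    (h : ∀ i, x i ∈ DD K G (e i)) : (l.map x).prod ∈ DD K G ((l.map e).sum) := by
  induction l with
  | nil => exact one_mem_DD
  | cons a l ih =>
    simp only [List.map_cons, List.prod_cons, List.sum_cons]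
    exact (hD K G).1 _ _ _ _ (h a) ih

lemma ofFn_mem (hD : Stmt_DMul) {n : ℕ} (x : Fin n → MonoidAlgebra K G) (e : Fin n → ℕ)
    (h : ∀ i, x i ∈ DD K G (e i)) : (List.ofFn x).prod ∈ DD K G (∑ i, e i) := by
  have := prod_mem hD (List.finRange n) x e h
  rw [← List.ofFn_eq_map, ← List.ofFn_eq_map, List.sum_ofFn] at this
  exact this

/-- ordered product of the `u i`, `i ∈ s` -/
noncomputable def uu {n : ℕ} (u : Fin n → MonoidAlgebra K G) (s : Finset (Fin n)) :
    MonoidAlgebra K G := (List.ofFn (fun i => if i ∈ s then u i else 1)).prod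

lemma uu_mem (hD : Stmt_DMul) {n : ℕ} (u : Fin n → MonoidAlgebra K G) (d : Fin n → ℕ)
    (h : ∀ i, u i ∈ DD K G (d i)) (s : Finset (Fin n)) :
    uu u s ∈ DD K G (∑ i ∈ s, d i) := by
  have := ofFn_mem hD (fun i => if i ∈ s then u i else 1) (fun i => if i ∈ s then d i else 0)
    (by
      intro i
      by_cases hi : i ∈ s
      · simp only [hi, if_true]; exact h i
      · simp only [hi, if_false]; exact one_mem_DD)
  rw [Finset.sum_ite_mem, Finset.univ_inter] at this
  exact this

lemma prod_single {R ι : Type} [Monoid R] [DecidableEq ι] (l : List ι) (hl : l.Nodup) (a : ι)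
    (ha : a ∈ l) (f : ι → R) : (l.map (fun i => if i = a then f i else 1)).prod = f a := by
  induction l with
  | nil => exact absurd ha List.not_mem_nil
  | cons b l ih =>
    rw [List.map_cons, List.prod_cons]
    rw [List.nodup_cons] at hl
    by_cases hb : b = a
    · subst hb
      have : (l.map (fun i => if i = b then f i else 1)).prod = 1 := by
        apply List.prod_eq_one
        intro x hx
        obtain ⟨i, hi, rfl⟩ := List.mem_map.1 hx
        have : i ≠ b := fun h => hl.1 (h ▸ hi)
        simp [this]
      rw [this]; simp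
    · have ha' : a ∈ l := by
        rcases List.mem_cons.1 ha with h | h
        · exact absurd h.symm hb
        · exact h
      rw [ih hl.2 ha']; simp [hb]

lemma uu_singleton {n : ℕ} (u : Fin n → MonoidAlgebra K G) (a : Fin n) : uu u {a} = u a := by
  unfold uu
  rw [List.ofFn_eq_map]
  simp only [Finset.mem_singleton]
  exact prod_single _ (List.nodup_finRange n) a (List.mem_finRange a) u

lemma uu_empty {n : ℕ} (u : Fin n → MonoidAlgebra K G) : uu u ∅ = 1 := by
  unfold uu
  apply List.prod_eq_one
  intro x hx
  obtain ⟨i, rfl⟩ := List.mem_ofFn.1 hx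
  simp

/-- expansion of a product of `1 + u i`, `i ∈ T` -/
lemma expand {n : ℕ} (u : Fin n → MonoidAlgebra K G) (T : Finset (Fin n)) :
    (List.ofFn (fun i => if i ∈ T then 1 + u i else 1)).prod = ∑ s ∈ T.powerset, uu u s := by
  have h := (MultilinearMap.mkPiAlgebraFin K n (MonoidAlgebra K G)).map_add_univ
    (fun i => if i ∈ T then u i else 0) (fun _ => 1)
  rw [MultilinearMap.mkPiAlgebraFin_apply] at h
  have e1 : (List.ofFn (fun i => if i ∈ T then 1 + u i else 1)) =
      List.ofFn ((fun i => if i ∈ T then u i else 0) + (fun _ => (1 : MonoidAlgebra K G))) := by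
    congr 1
    funext i
    by_cases hi : i ∈ T
    · simp [hi, add_comm]
    · simp [hi]
  rw [e1, h]
  symm
  rw [← Finset.sum_subset (Finset.subset_univ T.powerset)]
  · refine Finset.sum_congr rfl fun s hs => ?_
    rw [MultilinearMap.mkPiAlgebraFin_apply]
    unfold uu
    congr 2
    funext i
    by_cases hi : i ∈ s
    · simp [hi, Finset.piecewise, Finset.mem_powerset.1 hs hi]
    · simp [hi, Finset.piecewise]
  · intro s _ hs
    rw [Finset.mem_powerset, Finset.not_subset] at hs
    obtain ⟨i, his, hiT⟩ := hs
    apply MultilinearMap.map_coord_zero _ i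
    simp [Finset.piecewise, his, hiT]

end MultiX

open MultiX

theorem multi_proof (hD : Stmt_DMul) : Stmt_Multi := by
  classical
  intro K G _ _ p _ _ hp h d hd1 hd
  set u : Fin p → MonoidAlgebra K G := fun i => dlt K G (h i) with hu
  -- the p-th powers vanish
  have hP : ∀ T : Finset (Fin p), (∑ s ∈ T.powerset.erase ∅, uu u s) ^ p = 0 := by
    intro T
    have e1 := expand u T
    rw [← Finset.add_sum_erase _ _ (Finset.empty_mem_powerset T), uu_empty] at e1
    have e2 : ∑ s ∈ T.powerset.erase ∅, uu u s =
        (List.ofFn (fun i => if i ∈ T then 1 + u i else 1)).prod - 1 := by rw [e1]; simp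
    have e3 : (List.ofFn (fun i => if i ∈ T then 1 + u i else 1)).prod =
        MonoidAlgebra.of K G (List.ofFn (fun i => if i ∈ T then h i else 1)).prod := by
      rw [map_list_prod, List.map_ofFn]
      congr 2
      funext i
      by_cases hi : i ∈ T
      · simp [hi, hu, dlt]
      · simp only [hi, if_false, Function.comp]
        exact (map_one _).symm
    rw [e2, e3]
    have : CharP (MonoidAlgebra K G) p := charP_of_injective_algebraMap
      (FaithfulSMul.algebraMap_injective K (MonoidAlgebra K G)) p
    rw [sub_pow_char_of_commute p (Commute.one_right _), ← map_pow, hp, map_one, one_pow,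
      sub_self]
  -- Moebius inversion
  let φ : Finset (Fin p) → MonoidAlgebra K G := fun R =>
    ∑ r ∈ Finset.univ.filter (fun r : Fin p → Finset (Fin p) =>
      (∀ j, (r j).Nonempty) ∧ Finset.univ.biUnion r = R), (List.ofFn (fun j => uu u (r j))).prod
  have hsum : ∀ T : Finset (Fin p), ∑ R ∈ T.powerset, φ R = 0 := by
    intro T
    have h1 := hP T
    rw [← MultilinearMap.mkPiAlgebraFin_apply_const (R := K), MultilinearMap.map_sum_finset] at h1
    rw [← h1]
    simp only [φ, MultilinearMap.mkPiAlgebraFin_apply]
    rw [← Finset.sum_biUnion]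
    · apply Finset.sum_congr _ fun _ _ => rfl
      ext r
      simp only [Finset.mem_biUnion, Finset.mem_powerset, Finset.mem_filter, Finset.mem_univ,
        true_and, Fintype.mem_piFinset, Finset.mem_erase]
      constructor
      · rintro ⟨R, hR, h2, rfl⟩ j
        exact ⟨(h2 j).ne_empty, (Finset.subset_biUnion_of_mem r (Finset.mem_univ j)).trans hR⟩
      · intro h2
        exact ⟨_, Finset.biUnion_subset.2 fun j _ => (h2 j).2,
          fun j => Finset.nonempty_iff_ne_empty.2 (h2 j).1, rfl⟩
    · intro R _ R' _ hne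
      apply Finset.disjoint_left.2
      intro r hr hr'
      rw [Finset.mem_filter] at hr hr'
      exact hne (hr.2.2.symm.trans hr'.2.2)
  have hφ : ∀ T : Finset (Fin p), φ T = 0 := by
    intro T
    induction T using Finset.strongInduction with
    | H T ih =>
      have h1 := hsum T
      rw [← Finset.add_sum_erase _ _ (Finset.mem_powerset_self T), Finset.sum_eq_zero] at h1
      · simpa using h1
      · intro R hR
        rw [Finset.mem_erase, Finset.mem_powerset] at hR
        exact ih R (hR.2.ssubset_of_ne hR.1)
  have h0 := hφ Finset.univ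
  -- split
  set X := Finset.univ.filter (fun r : Fin p → Finset (Fin p) =>
      (∀ j, (r j).Nonempty) ∧ Finset.univ.biUnion r = Finset.univ) with hX
  have hsplit := Finset.sum_filter_add_sum_filter_not X
    (fun r => ∀ j, (r j).card = 1) (fun r => (List.ofFn (fun j => uu u (r j))).prod)
  have h0' : ∑ r ∈ X, (List.ofFn (fun j => uu u (r j))).prod = 0 := h0
  rw [h0'] at hsplit
  have hA : ∑ r ∈ X.filter (fun r => ∀ j, (r j).card = 1),
      (List.ofFn (fun j => uu u (r j))).prod =
      ∑ σ : Equiv.Perm (Fin p), (List.ofFn (fun i => u (σ i))).prod := by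
    symm
    apply Finset.sum_bij (fun (σ : Equiv.Perm (Fin p)) _ => (fun j => ({σ j} : Finset (Fin p))))
    · intro σ _
      simp only [hX, Finset.mem_filter, Finset.mem_univ, true_and, Finset.card_singleton,
        implies_true, and_true, Finset.singleton_nonempty]
      ext a
      simp only [Finset.mem_biUnion, Finset.mem_univ, true_and, Finset.mem_singleton, iff_true]
      exact ⟨σ.symm a, by simp⟩
    · intro σ _ τ _ hστ
      ext j
      have := congrFun hστ j
      rw [Finset.singleton_inj] at this
      rw [this]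
    · intro r hr
      simp only [hX, Finset.mem_filter, Finset.mem_univ, true_and] at hr
      obtain ⟨⟨-, h2⟩, h3⟩ := hr
      choose s hs using fun j => Finset.card_eq_one.1 (h3 j)
      have hsurj : Function.Surjective s := by
        intro a
        have ha : a ∈ Finset.univ.biUnion r := by rw [h2]; exact Finset.mem_univ a
        obtain ⟨j, -, hj⟩ := Finset.mem_biUnion.1 ha
        rw [hs j, Finset.mem_singleton] at hj
        exact ⟨j, hj.symm⟩
      refine ⟨Equiv.ofBijective s (Finite.injective_iff_surjective.2 hsurj |>.bijective_of_finite),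
        Finset.mem_univ _, ?_⟩
      funext j
      simp [hs j]
    · intro σ _
      congr 2
      funext j
      exact (uu_singleton u (σ j)).symm
  have hB : ∀ r ∈ X.filter (fun r => ¬ ∀ j, (r j).card = 1),
      (List.ofFn (fun j => uu u (r j))).prod ∈ DD K G ((∑ i, d i) + 1) := by
    intro r hr
    simp only [hX, Finset.mem_filter, Finset.mem_univ, true_and] at hr
    obtain ⟨⟨h1, h2⟩, h3⟩ := hr
    have hm := ofFn_mem hD (fun j => uu u (r j)) (fun j => ∑ i ∈ r j, d i)
      (fun j => uu_mem hD u d hd (r j))
    refine (hD K G).2 _ _ ?_ hm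
    have e1 : ∑ j, ∑ i ∈ r j, d i = ∑ i, (Finset.univ.filter (fun j => i ∈ r j)).card * d i := by
      have : ∀ j, ∑ i ∈ r j, d i = ∑ i, if i ∈ r j then d i else 0 := by
        intro j; rw [Finset.sum_ite_mem, Finset.univ_inter]
      simp only [this]
      rw [Finset.sum_comm]
      refine Finset.sum_congr rfl fun i _ => ?_
      rw [← Finset.sum_filter, Finset.sum_const, smul_eq_mul]
    have e2 : ∑ i, (Finset.univ.filter (fun j => i ∈ r j)).card = ∑ j, (r j).card := by
      have : ∀ j, (r j).card = ∑ i, if i ∈ r j then 1 else 0 := by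
        intro j; rw [Finset.sum_ite_mem, Finset.univ_inter]; simp
      simp only [this]
      rw [Finset.sum_comm]
      refine Finset.sum_congr rfl fun i _ => ?_
      rw [← Finset.sum_filter]; simp
    have hc1 : ∀ i, 1 ≤ (Finset.univ.filter (fun j => i ∈ r j)).card := by
      intro i
      have hi : i ∈ Finset.univ.biUnion r := by rw [h2]; exact Finset.mem_univ i
      obtain ⟨j, -, hj⟩ := Finset.mem_biUnion.1 hi
      exact Finset.card_pos.2 ⟨j, by simp [hj]⟩
    have h4 : ∑ _i : Fin p, 1 < ∑ i, (Finset.univ.filter (fun j => i ∈ r j)).card := by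
      rw [e2]
      push Not at h3
      obtain ⟨j0, hj0⟩ := h3
      apply Finset.sum_lt_sum
      · intro j _; exact Finset.card_pos.2 (h1 j)
      · exact ⟨j0, Finset.mem_univ _, lt_of_le_of_ne (Finset.card_pos.2 (h1 j0)) (Ne.symm hj0)⟩
    obtain ⟨i0, -, hi0⟩ := Finset.exists_lt_of_sum_lt h4
    rw [e1]
    have h5 : ∑ i, d i < ∑ i, (Finset.univ.filter (fun j => i ∈ r j)).card * d i := by
      apply Finset.sum_lt_sum
      · intro i _
        exact Nat.le_mul_of_pos_left _ (hc1 i)
      · refine ⟨i0, Finset.mem_univ _, ?_⟩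
        have := hd1 i0
        nlinarith
    exact h5
  have hBs := Submodule.sum_mem (DD K G ((∑ i, d i) + 1)) hB
  rw [hA] at hsplit
  have : ∑ σ : Equiv.Perm (Fin p), (List.ofFn (fun i => u (σ i))).prod =
      - ∑ r ∈ X.filter (fun r => ¬ ∀ j, (r j).card = 1),
        (List.ofFn (fun j => uu u (r j))).prod := eq_neg_of_add_eq_zero_left hsplit
  change ∑ σ : Equiv.Perm (Fin p), (List.ofFn (fun i => u (σ i))).prod ∈ _
  rw [this]
  exact Submodule.neg_mem _ hBs

end Pool.Agent.KOS
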