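import Pool.Agent.KOS.StmtsA

set_option autoImplicit false

namespace Pool.Agent.KOS

namespace NilX

variable {R : Type} [Ring R] {r : ℕ} (g : Fin r → R)

theorem comW_com {m : ℕ} {a : R} (h : ComW g m a) : Com g a := by
  induction h with
  | gen i => exact Com.gen i
  | br m n a b _ _ iha ihb => exact Com.br a b iha ihb

theorem com_comW {a : R} (h : Com g a) : ∃ m, ComW g m a := by
  induction h with
  | gen i => exact ⟨1, ComW.gen i⟩
  | br a b _ _ iha ihb =>
    obtain ⟨m, hm⟩ := iha
    obtain ⟨n, hn⟩ := ihb
    exact ⟨m + n, ComW.br m n a b hm hn⟩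

theorem comW_pos {m : ℕ} {a : R} (h : ComW g m a) : 1 ≤ m := by
  induction h with
  | gen i => exact le_rfl
  | br m n a b _ _ iha ihb => omega

theorem comW_finite (m : ℕ) : {a : R | ComW g m a}.Finite := by
  induction m using Nat.strong_induction_on with
  | _ m ih =>
    have hsub : {a : R | ComW g m a} ⊆ Set.range g ∪
        ⋃ k ∈ (Finset.range m : Set ℕ), ⋃ j ∈ (Finset.range m : Set ℕ),
          Set.image2 (fun a b : R => a * b - b * a) {a : R | ComW g k a} {a : R | ComW g j a} := by
      intro a ha
      have ha' : ComW g m a := ha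
      cases ha' with
      | gen i => exact Or.inl ⟨i, rfl⟩
      | br k j a b hka hjb =>
        have h1 := comW_pos g hka
        have h2 := comW_pos g hjb
        refine Or.inr ?_
        simp only [Set.mem_iUnion]
        refine ⟨k, ?_, j, ?_, Set.mem_image2_of_mem hka hjb⟩
        · simp only [Finset.coe_range, Set.mem_Iio]; omega
        · simp only [Finset.coe_range, Set.mem_Iio]; omega
    refine Set.Finite.subset ?_ hsub
    refine Set.Finite.union (Set.finite_range g) ?_
    refine Set.Finite.biUnion (Finset.finite_toSet _) ?_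
    intro k hk
    refine Set.Finite.biUnion (Finset.finite_toSet _) ?_
    intro j hj
    have hk' : k < m := by simpa using hk
    have hj' : j < m := by simpa using hj
    exact Set.Finite.image2 _ (ih k hk') (ih j hj')

/-- all entries are commutators with their weights. -/
def good (l : List (ℕ × R)) : Prop := ∀ x ∈ l, ComW g x.1 x.2

/-- product of a list. -/
def vl (l : List (ℕ × R)) : R := (l.map Prod.snd).prod

/-- total weight. -/
def wt (l : List (ℕ × R)) : ℕ := (l.map Prod.fst).sum

theorem vl_cons (a : ℕ × R) (l : List (ℕ × R)) : vl (a :: l) = a.2 * vl l := by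
  simp [vl]

omit [Ring R] in
theorem wt_cons (a : ℕ × R) (l : List (ℕ × R)) : wt (a :: l) = a.1 + wt l := by
  simp [wt]

theorem vl_append (l l' : List (ℕ × R)) : vl (l ++ l') = vl l * vl l' := by
  simp [vl]

/-- products with one factor less and the same weight. -/
def shorter (l₁ : List (ℕ × R)) : Set R :=
  {x | ∃ l, good g l ∧ l.length + 1 = l₁.length ∧ wt l = wt l₁ ∧ x = vl l}

theorem shorter_perm {l₁ l₂ : List (ℕ × R)} (h : l₁.Perm l₂) :
    shorter g l₁ = shorter g l₂ := by
  have h1 : l₁.length = l₂.length := h.length_eq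
  have h2 : wt l₁ = wt l₂ := (h.map Prod.fst).sum_eq
  unfold shorter
  rw [h1, h2]

theorem perm_aux {l₁ l₂ : List (ℕ × R)} (h : l₁.Perm l₂) :
    good g l₁ → vl l₁ - vl l₂ ∈ AddSubgroup.closure (shorter g l₁) := by
  induction h with
  | nil => intro _; simp
  | cons a hp ih =>
    rename_i l₁ l₂
    intro hg
    have hg' : good g l₁ := fun x hx => hg x (List.mem_cons_of_mem _ hx)
    have h1 := ih hg'
    rw [vl_cons, vl_cons, ← mul_sub]
    have h2 : AddSubgroup.closure (shorter g l₁) ≤
        (AddSubgroup.closure (shorter g (a :: l₁))).comap (AddMonoidHom.mulLeft a.2) := by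
      rw [AddSubgroup.closure_le]
      rintro x ⟨l, hl, hlen, hw, rfl⟩
      refine AddSubgroup.subset_closure ⟨a :: l, ?_, ?_, ?_, ?_⟩
      · intro y hy
        rcases List.mem_cons.1 hy with rfl | hy
        · exact hg _ List.mem_cons_self
        · exact hl y hy
      · simp only [List.length_cons]; omega
      · rw [wt_cons, wt_cons, hw]
      · rw [vl_cons]; rfl
    exact h2 h1
  | swap a b l =>
    intro hg
    refine AddSubgroup.subset_closure ⟨(b.1 + a.1, b.2 * a.2 - a.2 * b.2) :: l, ?_, ?_, ?_, ?_⟩
    · intro y hy
      rcases List.mem_cons.1 hy with rfl | hy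
      · exact ComW.br _ _ _ _ (hg _ List.mem_cons_self)
          (hg _ (List.mem_cons_of_mem _ List.mem_cons_self))
      · exact hg y (List.mem_cons_of_mem _ (List.mem_cons_of_mem _ hy))
    · simp
    · simp only [wt_cons]; omega
    · simp only [vl_cons]; noncomm_ring
  | trans h1 h2 ih1 ih2 =>
    rename_i l₁ l₂ l₃
    intro hg
    have hg2 : good g l₂ := fun x hx => hg x (h1.mem_iff.2 hx)
    have e : vl l₁ - vl l₃ = (vl l₁ - vl l₂) + (vl l₂ - vl l₃) := by abel
    rw [e]
    refine AddSubgroup.add_mem _ (ih1 hg) ?_
    rw [shorter_perm g h1]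
    exact ih2 hg2

end NilX

open NilX in
theorem nil_proof : Stmt_Nil := by
  classical
  intro R _ S J r g c q hS hJ hc hq
  -- the finite set of weighted commutators of weight at most `c`
  have hfin : {x : ℕ × R | x.1 ≤ c ∧ ComW g x.1 x.2}.Finite := by
    have hsub : {x : ℕ × R | x.1 ≤ c ∧ ComW g x.1 x.2} ⊆
        ⋃ k ∈ (Finset.range (c + 1) : Set ℕ), (fun a : R => (k, a)) '' {a : R | ComW g k a} := by
      rintro ⟨k, a⟩ ⟨h1, h2⟩
      simp only [Set.mem_iUnion]
      refine ⟨k, ?_, a, h2, rfl⟩
      simp only [Finset.coe_range, Set.mem_Iio]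
      have : k ≤ c := h1
      omega
    refine Set.Finite.subset ?_ hsub
    refine Set.Finite.biUnion (Finset.finite_toSet _) ?_
    intro k _
    exact (comW_finite g k).image _
  set T := hfin.toFinset with hT
  set B := ∑ x ∈ T, q * x.1 with hB
  have hcomS : ∀ a, Com g a → a ∈ S := by
    intro a ha
    induction ha with
    | gen i => exact hS i
    | br a b _ _ iha ihb => exact S.sub_mem (S.mul_mem iha ihb) (S.mul_mem ihb iha)
  have hvlS : ∀ l : List (ℕ × R), good g l → vl l ∈ S := by
    intro l hl
    refine S.list_prod_mem ?_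
    intro x hx
    rw [List.mem_map] at hx
    obtain ⟨y, hy, rfl⟩ := hx
    exact hcomS _ (comW_com g (hl y hy))
  have key : ∀ f : ℕ, ∀ l : List (ℕ × R), l.length = f → good g l → B < wt l → vl l ∈ J := by
    intro f
    induction f using Nat.strong_induction_on with
    | _ f ih =>
      intro l hlen hg hw
      by_cases hbig : ∃ x ∈ l, c < x.1
      · obtain ⟨x, hx, hcx⟩ := hbig
        obtain ⟨l1, l2, rfl⟩ := List.append_of_mem hx
        rw [vl_append, vl_cons]
        have h1 : good g l1 := fun y hy => hg y (by simp [hy])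
        have h2 : good g l2 := fun y hy => hg y (by simp [hy])
        have h3 : x.2 ∈ J := hc x.1 x.2 hcx (hg x hx)
        exact (hJ _ (hvlS l1 h1) _ ((hJ _ (hvlS l2 h2) _ h3).2)).1
      · push Not at hbig
        have hcount : ∃ x ∈ l, q ≤ @List.count (ℕ × R) instBEqOfDecidableEq x l := by
          by_contra hcon
          push Not at hcon
          have h1 : wt l = ∑ x ∈ l.toFinset,
              @List.count (ℕ × R) instBEqOfDecidableEq x l • x.1 := by
            unfold wt
            exact Finset.sum_list_map_count l Prod.fst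
          have h2 : l.toFinset ⊆ T := by
            intro x hx
            rw [List.mem_toFinset] at hx
            rw [hT, Set.Finite.mem_toFinset]
            exact ⟨hbig x hx, hg x hx⟩
          have h3 : wt l ≤ B := by
            rw [h1, hB]
            calc ∑ x ∈ l.toFinset, @List.count (ℕ × R) instBEqOfDecidableEq x l • x.1
                ≤ ∑ x ∈ l.toFinset, q * x.1 := by
                  refine Finset.sum_le_sum ?_
                  intro x hx
                  rw [List.mem_toFinset] at hx
                  rw [smul_eq_mul]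
                  exact Nat.mul_le_mul_right _ (hcon x hx).le
              _ ≤ ∑ x ∈ T, q * x.1 := Finset.sum_le_sum_of_subset h2
          omega
        obtain ⟨x, hxl, hx⟩ := hcount
        have hsub : (List.replicate q x).Sublist l :=
          (@List.replicate_sublist_iff (ℕ × R) instBEqOfDecidableEq _ _ _ _).2 hx
        obtain ⟨l', hl'⟩ := hsub.exists_perm_append
        have h1 := perm_aux g hl' hg
        have h2 : AddSubgroup.closure (shorter g l) ≤ J := by
          rw [AddSubgroup.closure_le]
          rintro y ⟨l₀, hl0, hlen0, hw0, rfl⟩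
          exact ih l₀.length (by omega) l₀ rfl hl0 (by omega)
        have hg' : good g l' := fun y hy => hg y (hl'.mem_iff.2 (by simp [hy]))
        have h3 : vl (List.replicate q x ++ l') ∈ J := by
          rw [vl_append]
          have : vl (List.replicate q x) = x.2 ^ q := by simp [vl]
          rw [this]
          exact (hJ _ (hvlS l' hg') _ (hq x.2 (comW_com g (hg x hxl)))).2
        have h4 := J.add_mem (h2 h1) h3
        rwa [sub_add_cancel] at h4
  refine ⟨B + 1, ?_⟩
  intro w hw
  have h1 : vl (w.map (fun i => ((1 : ℕ), g i))) = ev g w := by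
    simp [vl, ev, Function.comp_def]
  have h2 : wt (w.map (fun i => ((1 : ℕ), g i))) = w.length := by
    simp [wt, Function.comp_def]
  rw [← h1]
  refine key w.length _ (by simp) ?_ (by omega)
  intro x hx
  rw [List.mem_map] at hx
  obtain ⟨i, _, rfl⟩ := hx
  exact ComW.gen i

end Pool.Agent.KOS
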