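import Pool.Agent.KOS.StmtsA

set_option autoImplicit false

namespace Pool.Agent.KOS

namespace SW

variable {r : ℕ}

lemma lt_append_left (u : List (Fin r)) {v v' : List (Fin r)} (h : v < v') : u ++ v < u ++ v' := by
  induction u with
  | nil => simpa using h
  | cons a u ih => simpa using ih

lemma lt_append_right (w w' : List (Fin r)) {v v' : List (Fin r)} (hl : v'.length = v.length)
    (h : v < v') : v ++ w < v' ++ w' := by
  induction v generalizing v' with
  | nil =>
    have : v' = [] := by simpa using hl
    subst this
    exact absurd h (lt_irrefl _)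
  | cons a v ih =>
    cases v' with
    | nil => simp at hl
    | cons b v' =>
      simp only [List.cons_append, List.cons_lt_cons_iff] at h ⊢
      rcases h with h | ⟨h, h'⟩
      · exact Or.inl h
      · exact Or.inr ⟨h, ih (by simpa using hl) h'⟩

variable {K R : Type} [Field K] [Ring R] [Algebra K R] (g : Fin r → R)

lemma ev_append (u v : List (Fin r)) : ev g (u ++ v) = ev g u * ev g v := by
  simp [ev]

/-- products of something in `Up V` with something spanned by words -/
lemma mul_mem (a V b : List (Fin r)) (x z : R) (_n : ℕ) (hx : x ∈ Up K g V)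
    (hz : z ∈ Submodule.span K {z | ∃ w' : List (Fin r), w'.length = b.length ∧ z = ev g w'}) :
    ev g a * x * z ∈ Up K g (a ++ V ++ b) := by
  unfold Up at hx ⊢
  induction hx using Submodule.span_induction with
  | mem x hx =>
    obtain ⟨w', hl, hlt, rfl⟩ := hx
    induction hz using Submodule.span_induction with
    | mem z hz =>
      obtain ⟨w'', hl', rfl⟩ := hz
      apply Submodule.subset_span
      refine ⟨a ++ w' ++ w'', by simp [hl, hl'], ?_, by simp [ev_append, mul_assoc]⟩
      rw [List.append_assoc, List.append_assoc]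
      exact lt_append_left _ (lt_append_right _ _ hl hlt)
    | zero => simp
    | add z z' _ _ h1 h2 => rw [mul_add]; exact Submodule.add_mem _ h1 h2
    | smul c z _ h1 => rw [mul_smul_comm]; exact Submodule.smul_mem _ _ h1
  | zero => simp
  | add x x' _ _ h1 h2 => rw [mul_add, add_mul]; exact Submodule.add_mem _ h1 h2
  | smul c x _ h1 => rw [mul_smul_comm, smul_mul_assoc]; exact Submodule.smul_mem _ _ h1

lemma ev_mul_mem (a V : List (Fin r)) (x : R) (hx : x ∈ Up K g V) :
    ev g a * x ∈ Up K g (a ++ V) := by
  have := mul_mem (K := K) g a V [] x 1 0 hx (Submodule.subset_span ⟨[], rfl, by simp [ev]⟩)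
  simpa using this

lemma up_sub (V : List (Fin r)) (x : R) (hx : x ∈ Up K g V) :
    x ∈ Submodule.span K {z | ∃ w' : List (Fin r), w'.length = V.length ∧ z = ev g w'} := by
  unfold Up at hx
  refine Submodule.span_mono ?_ hx
  rintro x ⟨w', h1, _, h3⟩
  exact ⟨w', h1, h3⟩

lemma ev_span (b : List (Fin r)) :
    ev g b ∈ Submodule.span K {z | ∃ w' : List (Fin r), w'.length = b.length ∧ z = ev g w'} :=
  Submodule.subset_span ⟨b, rfl, rfl⟩

lemma span_mul (b b' : List (Fin r)) (x z : R)
    (hx : x ∈ Submodule.span K {z | ∃ w' : List (Fin r), w'.length = b.length ∧ z = ev g w'})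
    (hz : z ∈ Submodule.span K {z | ∃ w' : List (Fin r), w'.length = b'.length ∧ z = ev g w'}) :
    x * z ∈ Submodule.span K {z | ∃ w' : List (Fin r), w'.length = (b ++ b').length ∧
      z = ev g w'} := by
  induction hx using Submodule.span_induction with
  | mem x hx =>
    obtain ⟨w', hl, rfl⟩ := hx
    induction hz using Submodule.span_induction with
    | mem z hz =>
      obtain ⟨w'', hl', rfl⟩ := hz
      exact Submodule.subset_span ⟨w' ++ w'', by simp [hl, hl'], by simp [ev_append]⟩
    | zero => simp
    | add z z' _ _ h1 h2 => rw [mul_add]; exact Submodule.add_mem _ h1 h2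
    | smul c z _ h1 => rw [mul_smul_comm]; exact Submodule.smul_mem _ _ h1
  | zero => simp
  | add x x' _ _ h1 h2 => rw [add_mul]; exact Submodule.add_mem _ h1 h2
  | smul c x _ h1 => rw [smul_mul_assoc]; exact Submodule.smul_mem _ _ h1

end SW

open SW in
theorem sw_proof (hW : Stmt_Word) (hL : Stmt_Lyn) : Stmt_SW := by
  intro K R _ _ _ r g hc hcd
  by_contra hcon
  push Not at hcon
  refine hW r {w | ev g w ∉ Up K g w} ?_ ?_ ?_ ?_ ?_
  · intro u v w huvw hv
    apply huvw
    have := mul_mem (K := K) g u v w (ev g v) (ev g w) 0 hv (ev_span g w)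
    simpa [ev_append, mul_assoc] using this
  · intro N
    by_contra hN
    push Not at hN
    obtain ⟨w, hw, hne⟩ := hcon N
    have hfin : {w : List (Fin r) | w.length = N}.Finite := List.finite_length_eq (Fin r) N
    -- all words of length N vanish
    have key : ∀ w : List (Fin r), w.length = N → ev g w = 0 := by
      by_contra hk
      push Not at hk
      have hne' : ({w : List (Fin r) | w.length = N ∧ ev g w ≠ 0}).Nonempty := hk
      obtain ⟨m, hm, hmax⟩ := Set.exists_max_image {w : List (Fin r) | w.length = N ∧ ev g w ≠ 0}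
        id (hfin.subset fun w hw => hw.1) hne'
      apply hm.2
      have h1 : ev g m ∈ Up K g m := by
        by_contra h2
        exact hN m h2 hm.1
      have h2 : Up K g m ≤ ⊥ := by
        unfold Up
        rw [Submodule.span_le]
        rintro x ⟨w', hl, hlt, rfl⟩
        by_contra hx
        have := hmax w' ⟨hl.trans hm.1, by simpa using hx⟩
        exact absurd hlt (not_lt.mpr this)
      simpa using h2 h1
    exact hne (key w hw)
  · intro y hy
    apply hy
    have : ev g [y, y] = 0 := by
      have := hc _ (Com.gen (g := g) y)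
      simpa [ev] using this
    rw [this]
    exact Submodule.zero_mem _
  · intro y V hV hy
    obtain ⟨c, hcc, hcV⟩ := hL K R r g V hV
    apply hy
    have h1 : g y * c * g y = 0 := hcd _ _ (Com.gen y) hcc
    have h2 : ev g ([y] ++ V ++ [y]) = -(ev g [y] * (c - ev g V) * ev g [y]) := by
      have : ev g [y] = g y := by simp [ev]
      rw [ev_append, ev_append, this]
      rw [mul_sub, sub_mul, h1]
      simp
    rw [h2]
    exact Submodule.neg_mem _ (mul_mem (K := K) g [y] V [y] _ _ 0 hcV (ev_span g [y]))
  · intro y V hV hy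
    obtain ⟨c, hcc, hcV⟩ := hL K R r g V hV
    apply hy
    have h1 : c * g y * c = 0 := hcd _ _ hcc (Com.gen y)
    set δ := c - ev g V with hδ
    have hcd' : c = ev g V + δ := by rw [hδ]; abel
    have hgy : ev g [y] = g y := by simp [ev]
    have h2 : ev g (V ++ [y] ++ V) =
        -(ev g (V ++ [y]) * δ) - ev g [] * δ * (ev g [y] * ev g V) -
          ev g [] * δ * (ev g [y] * δ) := by
      have he : ev g ([] : List (Fin r)) = 1 := by simp [ev]
      rw [ev_append, ev_append, hgy, he]
      rw [hcd'] at h1
      have h3 : (ev g V + δ) * g y * (ev g V + δ) = ev g V * g y * ev g V +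
        ev g V * g y * δ + δ * g y * ev g V + δ * g y * δ := by noncomm_ring
      rw [h3] at h1
      have h4 : ev g V * g y * ev g V = -(ev g V * g y * δ) - (δ * g y * ev g V) -
        (δ * g y * δ) := by
        rw [eq_sub_iff_add_eq, eq_sub_iff_add_eq, eq_neg_iff_add_eq_zero, ← h1]
        abel
      rw [h4]
      noncomm_ring
    rw [h2]
    refine Submodule.sub_mem _ (Submodule.sub_mem _ (Submodule.neg_mem _ ?_) ?_) ?_
    · exact ev_mul_mem (K := K) g (V ++ [y]) V δ hcV
    · have := mul_mem (K := K) g [] V ([y] ++ V) δ (ev g [y] * ev g V) 0 hcV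
        (span_mul g [y] V _ _ (ev_span g [y]) (ev_span g V))
      simpa [List.append_assoc] using this
    · have := mul_mem (K := K) g [] V ([y] ++ V) δ (ev g [y] * δ) 0 hcV
        (span_mul g [y] V _ _ (ev_span g [y]) (up_sub g V δ hcV))
      simpa [List.append_assoc] using this

end Pool.Agent.KOS
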