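import Pool.Agent.KOS.StmtsA

set_option autoImplicit false

namespace Pool.Agent.KOS

namespace SandX

variable {K L : Type} [Field K] [LieRing L] [LieAlgebra K L]

theorem ad_lie (s u : L) : adE K L ⁅s, u⁆ = adE K L s * adE K L u - adE K L u * adE K L s := by
  ext z
  simp [adE]

theorem sandwich (h2 : (2 : K) ≠ 0) (t y : L) (ht : adE K L t * adE K L t = 0) :
    adE K L t * adE K L y * adE K L t = 0 := by
  have h0 : ⁅t, ⁅t, y⁆⁆ = 0 := by
    have := LinearMap.congr_fun ht y
    simpa [adE] using this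
  have h1 : adE K L ⁅t, ⁅t, y⁆⁆ = 0 := by
    rw [h0]; simp [adE]
  rw [ad_lie, ad_lie] at h1
  have h3 : adE K L t * (adE K L t * adE K L y - adE K L y * adE K L t) -
      (adE K L t * adE K L y - adE K L y * adE K L t) * adE K L t =
      (adE K L t * adE K L t) * adE K L y - (2 : K) • (adE K L t * adE K L y * adE K L t)
        + adE K L y * (adE K L t * adE K L t) := by
    rw [two_smul]
    noncomm_ring
  rw [h3, ht] at h1
  simp only [zero_mul, mul_zero, add_zero, zero_sub, neg_eq_zero] at h1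
  exact (smul_eq_zero.mp h1).resolve_left h2

theorem com_ad (h2 : (2 : K) ≠ 0) (r : ℕ) (t : Fin r → L)
    (ht : ∀ i, adE K L (t i) ^ 2 = 0) (c : Module.End K L)
    (hc : Com (fun i => adE K L (t i)) c) : (∃ s : L, c = adE K L s) ∧ c * c = 0 := by
  induction hc with
  | gen i =>
    refine ⟨⟨t i, rfl⟩, ?_⟩
    have := ht i
    rwa [pow_two] at this
  | br a b _ _ iha ihb =>
    obtain ⟨⟨s, hs⟩, ha2⟩ := iha
    obtain ⟨⟨u, hu⟩, hb2⟩ := ihb
    refine ⟨⟨⁅s, u⁆, ?_⟩, ?_⟩
    · rw [ad_lie, hs, hu]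
    · have haba : a * b * a = 0 := by
        rw [hs, hu]
        apply sandwich h2
        rw [← hs]; exact ha2
      have h4 : (a * b - b * a) * (a * b - b * a) =
          (a * b * a) * b - a * (b * b) * a - b * (a * a) * b + b * (a * b * a) := by
        noncomm_ring
      rw [h4, haba, hb2, ha2]
      simp

end SandX

theorem sand_proof (hSW : Stmt_SW) : Stmt_Sand := by
  intro K L _ _ _ h2 r t ht
  apply hSW K (Module.End K L) r (fun i => adE K L (t i))
  · intro c hc
    exact (SandX.com_ad h2 r t ht c hc).2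
  · intro c d hc hd
    obtain ⟨⟨s, hs⟩, hc2⟩ := SandX.com_ad h2 r t ht c hc
    obtain ⟨⟨u, hu⟩, _⟩ := SandX.com_ad h2 r t ht d hd
    rw [hs, hu]
    apply SandX.sandwich h2
    rw [← hs]; exact hc2

end Pool.Agent.KOS
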