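import Pool.Agent.KOS.StmtsA

set_option autoImplicit false

namespace Pool.Agent.KOS

namespace SubM

variable {K : Type} [Field K]

/-- span of the words of length at least `k` -/
def WW {r : ℕ} (K : Type) {R : Type} [Field K] [Ring R] [Algebra K R] (g : Fin r → R) (k : ℕ) :
    Submodule K R := Submodule.span K {x | ∃ w : List (Fin r), k ≤ w.length ∧ x = ev g w}

lemma ww_mul {r : ℕ} {R : Type} [Ring R] [Algebra K R] (g : Fin r → R) (a b : ℕ) (x y : R)
    (hx : x ∈ WW K g a) (hy : y ∈ WW K g b) : x * y ∈ WW K g (a + b) := by
  unfold WW at hx hy ⊢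
  induction hx using Submodule.span_induction with
  | mem x hx =>
    obtain ⟨w', hl, rfl⟩ := hx
    induction hy using Submodule.span_induction with
    | mem z hz =>
      obtain ⟨w'', hl', rfl⟩ := hz
      exact Submodule.subset_span ⟨w' ++ w'', by simp; omega, by simp [ev]⟩
    | zero => simp
    | add z z' _ _ h1 h2 => rw [mul_add]; exact Submodule.add_mem _ h1 h2
    | smul c z _ h1 => rw [mul_smul_comm]; exact Submodule.smul_mem _ _ h1
  | zero => simp
  | add x x' _ _ h1 h2 => rw [add_mul]; exact Submodule.add_mem _ h1 h2
  | smul c x _ h1 => rw [smul_mul_assoc]; exact Submodule.smul_mem _ _ h1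

lemma ww_mono {r : ℕ} {R : Type} [Ring R] [Algebra K R] (g : Fin r → R) {a b : ℕ} (h : a ≤ b) :
    WW K g b ≤ WW K g a := by
  unfold WW
  apply Submodule.span_mono
  rintro x ⟨w, hw, rfl⟩
  exact ⟨w, by omega, rfl⟩

end SubM

open SubM in
theorem sub_proof (hS : Stmt_Sand) : Stmt_Sub := by
  intro K L _ _ _ h2 T hT
  let e := T.equivFin
  let t : Fin T.card → L := fun i => (e.symm i : L)
  obtain ⟨N, hN⟩ := hS K L h2 T.card t (fun i => hT _ (e.symm i).2)
  let g : Fin T.card → Module.End K L := fun i => adE K L (t i)
  have hzero : WW K g N ≤ ⊥ := by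
    unfold WW
    rw [Submodule.span_le]
    rintro x ⟨w, hw, rfl⟩
    have h3 : ev g w = ev g (w.take N) * ev g (w.drop N) := by
      unfold ev
      rw [← List.prod_append, ← List.map_append, List.take_append_drop]
    have h4 : ev g (w.take N) = 0 := hN _ (by simp [hw])
    rw [h3, h4, zero_mul]
    simp
  have hspan : ∀ x ∈ LieSubalgebra.lieSpan K L (T : Set L), adE K L x ∈ WW K g 1 := by
    intro x hx
    let S' : LieSubalgebra K L :=
      { carrier := {x | adE K L x ∈ WW K g 1}
        add_mem' := by
          intro a b ha hb
          have h : adE K L (a + b) ∈ WW K g 1 := by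
            have h0 : adE K L (a + b) = adE K L a + adE K L b := by simp [adE]
            rw [h0]
            exact Submodule.add_mem _ ha hb
          exact h
        zero_mem' := by
          have h : adE K L (0 : L) ∈ WW K g 1 := by
            have h0 : adE K L (0 : L) = 0 := by simp [adE]
            rw [h0]
            exact Submodule.zero_mem _
          exact h
        smul_mem' := by
          intro c a ha
          have h : adE K L (c • a) ∈ WW K g 1 := by
            have h0 : adE K L (c • a) = c • adE K L a := by simp [adE]
            rw [h0]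
            exact Submodule.smul_mem _ _ ha
          exact h
        lie_mem' := by
          intro a b ha hb
          have : adE K L ⁅a, b⁆ = adE K L a * adE K L b - adE K L b * adE K L a := by
            simp [adE, LieRing.of_associative_ring_bracket]
          have h : adE K L ⁅a, b⁆ ∈ WW K g 1 := by
            rw [this]
            exact ww_mono g (by norm_num) (Submodule.sub_mem _ (ww_mul g 1 1 _ _ ha hb)
              (ww_mul g 1 1 _ _ hb ha))
          exact h }
    have hle : LieSubalgebra.lieSpan K L (T : Set L) ≤ S' := by
      rw [LieSubalgebra.lieSpan_le]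
      intro y hy
      change adE K L y ∈ WW K g 1
      unfold WW
      apply Submodule.subset_span
      refine ⟨[e ⟨y, hy⟩], by simp, ?_⟩
      simp [ev, g, t]
    exact hle hx
  refine ⟨N, ?_⟩
  intro l hl hmem
  have key : ∀ l : List L, (∀ x ∈ l, x ∈ LieSubalgebra.lieSpan K L (T : Set L)) →
      adP K L l ∈ WW K g l.length := by
    intro l
    induction l with
    | nil =>
      intro _
      unfold WW
      apply Submodule.subset_span
      exact ⟨[], by simp, by simp [ev, adP]⟩
    | cons a l ih =>
      intro h
      have h5 := ww_mul g 1 l.length _ _ (hspan a (h a (by simp)))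
        (ih (fun x hx => h x (by simp [hx])))
      have h6 : adP K L (a :: l) = adE K L a * adP K L l := by simp [adP]
      rw [h6, List.length_cons, add_comm]
      exact h5
  have := hzero (hl ▸ key l hmem)
  simpa using this

end Pool.Agent.KOS
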