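import Pool.Agent.KOS.StmtsA
import Pool.Agent.SCH.Stmts

set_option autoImplicit false

namespace Pool.Agent.KOS

theorem toSch (hK : Stmt_Kostrikin) (p : ℕ) (hp : p.Prime) (h5 : 5 ≤ p) :
    Pool.Agent.SCH.Stmt_Kos p := by
  have hN : (Pool.Agent.SCH.pw p).Normal := Subgroup.normalClosure_normal
  have hexp : ∀ g : Pool.Agent.SCH.E ⧸ Pool.Agent.SCH.pw p, g ^ p = 1 := by
    intro g
    obtain ⟨x, rfl⟩ := QuotientGroup.mk_surjective g
    rw [← QuotientGroup.mk_pow, QuotientGroup.eq_one_iff]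
    exact Subgroup.subset_normalClosure ⟨x, rfl⟩
  have hfg : Group.FG (Pool.Agent.SCH.E ⧸ Pool.Agent.SCH.pw p) := inferInstance
  obtain ⟨R, hRn, hRf, hR⟩ := hK p hp h5 (Pool.Agent.SCH.E ⧸ Pool.Agent.SCH.pw p) hfg hexp
  refine ⟨R.index, ?_⟩
  intro K hKn hKp hKf
  have hle : Pool.Agent.SCH.pw p ≤ K := by
    apply Subgroup.normalClosure_le_normal
    rintro x ⟨y, rfl⟩
    exact hKp y
  have hsurj := QuotientGroup.mk'_surjective (Pool.Agent.SCH.pw p)
  have hidx : (K.map (QuotientGroup.mk' (Pool.Agent.SCH.pw p))).index = K.index := by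
    apply Subgroup.index_map_eq K hsurj
    rw [QuotientGroup.ker_mk']
    exact hle
  have hHn : (K.map (QuotientGroup.mk' (Pool.Agent.SCH.pw p))).Normal :=
    Subgroup.Normal.map hKn _ hsurj
  have hHf : (K.map (QuotientGroup.mk' (Pool.Agent.SCH.pw p))).FiniteIndex := by
    refine ⟨?_⟩
    rw [hidx]
    exact hKf.index_ne_zero
  have := hR _ hHn hHf
  rw [← hidx]
  have hdvd := Subgroup.index_dvd_of_le this
  exact Nat.le_of_dvd (Nat.pos_of_ne_zero hRf.index_ne_zero) hdvd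

end Pool.Agent.KOS
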