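import Pool.Agent.KOS.StmtsA

set_option autoImplicit false

namespace Pool.Agent.KOS

namespace ZORNX

section
variable {K L : Type} [Field K] [LieRing L] [LieAlgebra K L]

/-- span of the `adP w s` with `w` a list in `S` of length at least `k` -/
def Mk (K : Type) {L : Type} [Field K] [LieRing L] [LieAlgebra K L] (S : Set L) (k : ℕ) :
    Submodule K L :=
  Submodule.span K {x | ∃ w : List L, k ≤ w.length ∧ (∀ z ∈ w, z ∈ S) ∧ ∃ s ∈ S, x = adP K L w s}

lemma Mk_mono (S : Set L) {k l : ℕ} (h : k ≤ l) : Mk K S l ≤ Mk K S k := by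
  apply Submodule.span_mono
  rintro x ⟨w, hw, h1, s, hs, rfl⟩
  exact ⟨w, h.trans hw, h1, s, hs, rfl⟩

lemma adP_cons (x : L) (l : List L) (y : L) : adP K L (x :: l) y = ⁅x, adP K L l y⁆ := by
  simp [adP, Module.End.mul_apply]

lemma adP_append (l l' : List L) (y : L) :
    adP K L (l ++ l') y = adP K L l (adP K L l' y) := by
  simp [adP, Module.End.mul_apply]

lemma gen_step (S : Set L) (x : L) (hx : x ∈ S) (k : ℕ) (m : L) (hm : m ∈ Mk K S k) :
    ⁅x, m⁆ ∈ Mk K S (k + 1) := by
  have : Mk K S k ≤ (Mk K S (k + 1)).comap (LieAlgebra.ad K L x) := by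
    apply Submodule.span_le.2
    rintro y ⟨w, hw, h1, s, hs, rfl⟩
    simp only [Submodule.comap_coe, Set.mem_preimage, LieAlgebra.ad_apply, SetLike.mem_coe]
    apply Submodule.subset_span
    refine ⟨x :: w, by simpa using hw, ?_, s, hs, ?_⟩
    · intro z hz
      rcases List.mem_cons.1 hz with rfl | hz
      · exact hx
      · exact h1 z hz
    · rw [adP_cons]
  have h2 := this hm
  simpa using h2

/-- the subalgebra of elements raising the filtration -/
def raise (K : Type) {L : Type} [Field K] [LieRing L] [LieAlgebra K L] (S : Set L) :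
    LieSubalgebra K L where
  carrier := {x | ∀ k, ∀ m ∈ Mk K S k, ⁅x, m⁆ ∈ Mk K S (k + 1)}
  add_mem' := by
    intro a b ha hb k m hm
    rw [add_lie]
    exact Submodule.add_mem _ (ha k m hm) (hb k m hm)
  zero_mem' := by
    intro k m hm
    rw [zero_lie]
    exact Submodule.zero_mem _
  smul_mem' := by
    intro c a ha k m hm
    rw [smul_lie]
    exact Submodule.smul_mem _ _ (ha k m hm)
  lie_mem' := by
    intro a b ha hb k m hm
    rw [lie_lie]
    apply Submodule.sub_mem
    · exact Mk_mono S (Nat.le_succ _) (ha _ _ (hb k m hm))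
    · exact Mk_mono S (Nat.le_succ _) (hb _ _ (ha k m hm))

lemma raise_all (S : Set L) (hS : LieSubalgebra.lieSpan K L S = ⊤) (x : L) (k : ℕ) (m : L)
    (hm : m ∈ Mk K S k) : ⁅x, m⁆ ∈ Mk K S (k + 1) := by
  have h1 : LieSubalgebra.lieSpan K L S ≤ raise K S := by
    apply LieSubalgebra.lieSpan_le.2
    intro y hy k m hm
    exact gen_step S y hy k m hm
  have h2 : x ∈ raise K S := by
    apply h1
    rw [hS]
    trivial
  exact h2 k m hm

lemma Mk_zero (S : Set L) (hS : LieSubalgebra.lieSpan K L S = ⊤) (x : L) : x ∈ Mk K S 0 := by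
  let A : LieSubalgebra K L :=
    { Mk K S 0 with
      lie_mem' := by
        intro a b ha hb
        exact Mk_mono S (Nat.zero_le _) (raise_all S hS a 0 b hb) }
  have h1 : LieSubalgebra.lieSpan K L S ≤ A := by
    apply LieSubalgebra.lieSpan_le.2
    intro y hy
    change y ∈ Mk K S 0
    apply Submodule.subset_span
    exact ⟨[], by simp, by simp, y, hy, by simp [adP]⟩
  have h2 : x ∈ A := by
    apply h1
    rw [hS]
    trivial
  exact h2

lemma adP_mem_Mk (S : Set L) (hS : LieSubalgebra.lieSpan K L S = ⊤) (l : List L) (y : L) :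
    adP K L l y ∈ Mk K S l.length := by
  induction l with
  | nil => simpa [adP] using Mk_zero S hS y
  | cons a l ih =>
    rw [adP_cons]
    simpa using raise_all S hS a _ _ ih

lemma adP_mem_ideal (J : LieIdeal K L) (l : List L) (y : L) (hy : y ∈ J) : adP K L l y ∈ J := by
  induction l with
  | nil => simpa [adP] using hy
  | cons a l ih =>
    rw [adP_cons]
    exact lie_mem_right K L J _ _ ih

/-- criterion with words in the generators -/
lemma nilMod_of (S : Set L) (hS : LieSubalgebra.lieSpan K L S = ⊤) (J : LieIdeal K L) (N : ℕ)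
    (h : ∀ w : List L, w.length = N → (∀ z ∈ w, z ∈ S) → ∀ s ∈ S, adP K L w s ∈ J) :
    NilMod K L J := by
  refine ⟨N, fun l hl y => ?_⟩
  have h1 : adP K L l y ∈ Mk K S N := by
    have := adP_mem_Mk S hS l y
    rwa [hl] at this
  have h2 : Mk K S N ≤ J.toSubmodule := by
    apply Submodule.span_le.2
    rintro x ⟨w, hw, h3, s, hs, rfl⟩
    have e : w = w.take (w.length - N) ++ w.drop (w.length - N) := (List.take_append_drop _ _).symm
    rw [e, adP_append]
    apply adP_mem_ideal
    apply h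
    · rw [List.length_drop]; omega
    · intro z hz
      exact h3 z (List.mem_of_mem_drop hz)
    · exact hs
  exact h2 h1

/-- union of a nonempty chain of ideals -/
def unionC (c : Set (LieIdeal K L)) (hc : IsChain (· ≤ ·) c) (y : LieIdeal K L) (hy : y ∈ c) :
    LieIdeal K L where
  carrier := {x | ∃ J ∈ c, x ∈ J}
  add_mem' := by
    rintro a b ⟨J, hJ, ha⟩ ⟨J', hJ', hb⟩
    rcases hc.total hJ hJ' with h | h
    · exact ⟨J', hJ', add_mem (h ha) hb⟩
    · exact ⟨J, hJ, add_mem ha (h hb)⟩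
  zero_mem' := ⟨y, hy, zero_mem _⟩
  smul_mem' := by
    rintro t a ⟨J, hJ, ha⟩
    exact ⟨J, hJ, J.smul_mem t ha⟩
  lie_mem := by
    rintro x a ⟨J, hJ, ha⟩
    exact ⟨J, hJ, J.lie_mem ha⟩

lemma finite_chain (c : Set (LieIdeal K L)) (hc : IsChain (· ≤ ·) c) (y : LieIdeal K L)
    (hy : y ∈ c) (T : Set L) (hT : T.Finite) (h : ∀ x ∈ T, ∃ J ∈ c, x ∈ J) :
    ∃ J ∈ c, ∀ x ∈ T, x ∈ J := by
  induction T, hT using Set.Finite.induction_on with
  | empty => exact ⟨y, hy, by simp⟩
  | insert _ _ ih =>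
    rename_i a T _ _
    obtain ⟨J, hJ, h1⟩ := ih (fun x hx => h x (Set.mem_insert_of_mem _ hx))
    obtain ⟨J', hJ', h2⟩ := h a (Set.mem_insert _ _)
    rcases hc.total hJ hJ' with h3 | h3
    · refine ⟨J', hJ', ?_⟩
      intro x hx
      rcases Set.mem_insert_iff.1 hx with rfl | hx
      · exact h2
      · exact h3 (h1 x hx)
    · refine ⟨J, hJ, ?_⟩
      intro x hx
      rcases Set.mem_insert_iff.1 hx with rfl | hx
      · exact h3 h2
      · exact h1 x hx

lemma finite_words (S : Finset L) (N : ℕ) :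
    {x : L | ∃ w : List L, w.length = N ∧ (∀ z ∈ w, z ∈ S) ∧ ∃ s ∈ S, x = adP K L w s}.Finite := by
  have h1 : {w : List L | w.length = N ∧ ∀ z ∈ w, z ∈ S}.Finite := by
    have h2 : (Set.range (fun f : Fin N → S => List.ofFn (fun i => (f i : L)))).Finite :=
      Set.finite_range _
    refine h2.subset ?_
    rintro w ⟨hw, hz⟩
    subst hw
    refine ⟨fun i => ⟨w.get i, hz _ (List.get_mem _ _)⟩, ?_⟩
    simp
  have h3 := (h1.prod S.finite_toSet).image (fun p : List L × L => adP K L p.1 p.2)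
  refine h3.subset ?_
  rintro x ⟨w, hw, hz, s, hs, rfl⟩
  exact ⟨(w, s), ⟨⟨hw, hz⟩, hs⟩, rfl⟩

end

end ZORNX

open ZORNX in
theorem zorn_proof : Stmt_Zorn := by
  intro K L _ _ _ hFG hN
  obtain ⟨S, hS⟩ := hFG
  have key := zorn_le_nonempty₀ {J : LieIdeal K L | ¬ NilMod K L J} (by
    intro c hcs hc y hy
    refine ⟨unionC c hc y hy, ?_, ?_⟩
    · intro hnil
      obtain ⟨N, hN⟩ := hnil
      obtain ⟨J, hJ, h1⟩ := finite_chain c hc y hy _ (finite_words (K := K) S N) (by
        rintro x ⟨w, hw, hz, s, hs, rfl⟩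
        exact hN w hw s)
      exact hcs hJ (nilMod_of (S : Set L) hS J N (fun w hw hz s hs => h1 _ ⟨w, hw, hz, s, hs, rfl⟩))
    · intro z hz x hx
      exact ⟨z, hz, hx⟩) ⊥ (by
    intro h
    apply hN
    obtain ⟨N, h⟩ := h
    refine ⟨N, fun l hl => ?_⟩
    ext y
    have := h l hl y
    simpa using this)
  obtain ⟨m, -, hm⟩ := key
  refine ⟨m, hm.prop, ?_⟩
  intro J' hJ'
  by_contra h
  exact hm.not_gt h hJ'

end Pool.Agent.KOS
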