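import Pool.Agent.KOS.StmtsB
import Pool.Agent.KOS.WMin
import Pool.Agent.KOS.Word
import Pool.Agent.KOS.LynF
import Pool.Agent.KOS.Lyn
import Pool.Agent.KOS.SW
import Pool.Agent.KOS.Sand
import Pool.Agent.KOS.Sub
import Pool.Agent.KOS.Zorn
import Pool.Agent.KOS.JNN
import Pool.Agent.KOS.Fgi
import Pool.Agent.KOS.Nil
import Pool.Agent.KOS.Ext
import Pool.Agent.KOS.MainE
import Pool.Agent.KOS.Assoc
import Pool.Agent.KOS.DMul
import Pool.Agent.KOS.DGen
import Pool.Agent.KOS.Multi
import Pool.Agent.KOS.Rees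
import Pool.Agent.KOS.FinP
import Pool.Agent.KOS.DSub
import Pool.Agent.KOS.Final
import Pool.Agent.KOS.ToSch
import Pool.Agent.KOS.Desc
import Pool.Agent.KOS.Jet
import Pool.Agent.KOS.Chain1

set_option autoImplicit false

/-! Everything except sections 4-6. -/

namespace Pool.Agent.KOS

theorem allSub : Stmt_Sub := sub_proof (sand_proof (sw_proof (word_proof wMin_proof) (lyn_proof lynF_proof)))

theorem allMainE (hC : Stmt_Chain) : Stmt_MainE :=
  mainE_proof (jnn_proof zorn_proof) hC fgi_proof allSub (ext_proof nil_proof)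

theorem allRees (hC : Stmt_Chain) : Stmt_Rees :=
  Rees_proof (assoc_proof (allMainE hC) nil_proof) (multi_proof dmul_proof) dmul_proof

theorem allKostrikin (hC : Stmt_Chain) : Stmt_Kostrikin :=
  final_proof (allRees hC) (dgen_proof dmul_proof) finp_proof (dsub_proof dmul_proof) dmul_proof

theorem allChain (h0 : Stmt_Chain0) (hS : Stmt_Stab) (hJ : Stmt_JLin) : Stmt_Chain :=
  chain_proof (chain1_proof h0 hS hJ) (sSpan_proof jet_proof)

end Pool.Agent.KOS
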