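import Pool.Agent.KOS.StmtsB

set_option autoImplicit false

/-! Module BINOM. -/

namespace Pool.Agent.KOS

namespace BinomX

variable {R : Type*} [Ring R]

theorem iter_eq (A Y : R) (n : ℕ) :
    (fun W : R => A * W - W * A)^[n] Y =
      ∑ j ∈ Finset.range (n + 1), (cc n j) • (A ^ j * Y * A ^ (n - j)) := by
  have hc : Commute (LinearMap.mulLeft ℤ A) (-LinearMap.mulRight ℤ A) :=
    (LinearMap.commute_mulLeft_right (R := ℤ) A A).neg_right
  have h1 : (fun W : R => A * W - W * A)^[n] Y =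
      ((LinearMap.mulLeft ℤ A + -LinearMap.mulRight ℤ A) ^ n) Y := by
    induction n with
    | zero => simp
    | succ n ih =>
      rw [Function.iterate_succ_apply', ih, pow_succ']
      simp [Module.End.mul_apply, sub_eq_add_neg]
  rw [h1, hc.add_pow, LinearMap.sum_apply]
  refine Finset.sum_congr rfl fun j hj => ?_
  have e1 : (-LinearMap.mulRight ℤ A) ^ (n - j) =
      (-1 : ℤ) ^ (n - j) • (LinearMap.mulRight ℤ A) ^ (n - j) := by
    rw [neg_pow, Algebra.smul_def]
    simp
  have e2 : (LinearMap.mulRight ℤ A) ^ (n - j) = LinearMap.mulRight ℤ (A ^ (n - j)) := by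
    rw [LinearMap.pow_mulRight]
  have e3 : (LinearMap.mulLeft ℤ A) ^ j = LinearMap.mulLeft ℤ (A ^ j) := by
    rw [LinearMap.pow_mulLeft]
  rw [e1, e2, e3]
  have e4 : ∀ (f : R →ₗ[ℤ] R) (m : ℕ), (f * (m : R →ₗ[ℤ] R)) Y = (m : ℤ) • f Y := by
    intro f m
    have : (m : R →ₗ[ℤ] R) = (m : ℤ) • (1 : R →ₗ[ℤ] R) := by simp
    rw [this, mul_smul_comm, mul_one]
    rfl
  rw [e4]
  simp only [Module.End.mul_apply, LinearMap.smul_apply, LinearMap.mulLeft_apply,
    LinearMap.mulRight_apply, cc, mul_smul_comm]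
  rw [smul_smul, mul_comm ((-1 : ℤ) ^ (n - j)), mul_assoc (A ^ j)]

end BinomX

theorem binom_proof : Stmt_Binom := by
  intro K L _ _ _ a x k
  rw [← BinomX.iter_eq]
  induction k with
  | zero => simp
  | succ k ih =>
    rw [Function.iterate_succ_apply', ← ih, pow_succ', Module.End.mul_apply]
    ext y
    simp only [adE, LieAlgebra.ad_apply, Module.End.mul_apply, LinearMap.sub_apply]
    rw [lie_lie]

end Pool.Agent.KOS
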