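import Pool.Agent.KOS.StmtsA

set_option autoImplicit false

/-!
Squad KOS, module COD1: an ideal `H` of codimension one in a finitely generated Lie algebra
`L = K x + H` with `ad x` nilpotent is finitely generated.
-/

namespace Pool.Agent.KOS.Cod1X

variable {K L : Type} [Field K] [LieRing L] [LieAlgebra K L]

/-- ambient form of COD1. -/
theorem cod1_amb (T : Finset L) (H H₁ : LieSubalgebra K L)
    (hT : LieSubalgebra.lieSpan K L (T : Set L) = H) (hle : H₁ ≤ H)
    (hid : ∀ a ∈ H, ∀ b ∈ H₁, ⁅a, b⁆ ∈ H₁) (x : L) (hxH : x ∈ H)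
    (hx : ∀ y ∈ H, ∃ c : K, y - c • x ∈ H₁) (n : ℕ) (hn : adE K L x ^ n = 0) :
    ∃ T₁ : Finset L, LieSubalgebra.lieSpan K L (T₁ : Set L) = H₁ := by
  classical
  by_cases hx1 : x ∈ H₁
  · have : H₁ = H := by
      apply le_antisymm hle
      intro y hy
      obtain ⟨c, hc⟩ := hx y hy
      have := H₁.add_mem hc (H₁.smul_mem c hx1)
      simpa using this
    exact ⟨T, by rw [hT, this]⟩
  choose! c hc using hx
  let T₁ : Finset L :=
    (T ×ˢ Finset.range n).image (fun p => (adE K L x ^ p.2) (p.1 - c p.1 • x))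
  refine ⟨T₁, ?_⟩
  have hTH : ∀ t ∈ T, t ∈ H := fun t ht => by
    rw [← hT]; exact LieSubalgebra.subset_lieSpan ht
  have hadj : ∀ j : ℕ, ∀ y ∈ H₁, (adE K L x ^ j) y ∈ H₁ := by
    intro j
    induction j with
    | zero => intro y hy; simpa using hy
    | succ j ih =>
      intro y hy
      rw [pow_succ']
      exact hid x hxH _ (ih y hy)
  have h1 : LieSubalgebra.lieSpan K L (T₁ : Set L) ≤ H₁ := by
    rw [LieSubalgebra.lieSpan_le]
    intro y hy
    simp only [T₁, Finset.coe_image, Set.mem_image] at hy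
    obtain ⟨⟨t, j⟩, htj, rfl⟩ := hy
    have htj' := Finset.mem_product.1 (Finset.mem_coe.1 htj)
    exact hadj j _ (hc t (hTH t htj'.1))
  -- all powers are in the span
  have hall : ∀ t ∈ T, ∀ j : ℕ,
      (adE K L x ^ j) (t - c t • x) ∈ LieSubalgebra.lieSpan K L (T₁ : Set L) := by
    intro t ht j
    by_cases hj : j < n
    · apply LieSubalgebra.subset_lieSpan
      simp only [T₁, Finset.coe_image, Set.mem_image]
      exact ⟨(t, j), Finset.mem_coe.2 (Finset.mem_product.2 ⟨ht, Finset.mem_range.2 hj⟩), rfl⟩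
    · have : adE K L x ^ j = 0 := by
        obtain ⟨k, rfl⟩ := Nat.exists_eq_add_of_le (not_lt.1 hj)
        rw [pow_add, hn, zero_mul]
      rw [this]
      exact LieSubalgebra.zero_mem _
  have h2 : ∀ y ∈ LieSubalgebra.lieSpan K L (T₁ : Set L),
      ⁅x, y⁆ ∈ LieSubalgebra.lieSpan K L (T₁ : Set L) := by
    intro y hy
    induction hy using LieSubalgebra.lieSpan_induction with
    | mem y hy =>
      simp only [T₁, Finset.coe_image, Set.mem_image] at hy
      obtain ⟨⟨t, j⟩, htj, rfl⟩ := hy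
      have htj' := Finset.mem_product.1 (Finset.mem_coe.1 htj)
      have := hall t htj'.1 (j + 1)
      rw [pow_succ'] at this
      exact this
    | zero => simp
    | add u v _ _ hu hv => rw [lie_add]; exact LieSubalgebra.add_mem _ hu hv
    | smul a u _ hu => rw [lie_smul]; exact LieSubalgebra.smul_mem _ _ hu
    | lie u v hu' hv' hu hv =>
      rw [leibniz_lie]
      exact LieSubalgebra.add_mem _ (LieSubalgebra.lie_mem _ hu hv')
        (LieSubalgebra.lie_mem _ hu' hv)
  -- K x + H'
  have h3 : ∀ y ∈ LieSubalgebra.lieSpan K L (T : Set L),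
      ∃ a : K, y - a • x ∈ LieSubalgebra.lieSpan K L (T₁ : Set L) := by
    intro y hy
    induction hy using LieSubalgebra.lieSpan_induction with
    | mem y hy =>
      refine ⟨c y, ?_⟩
      simpa using hall y (Finset.mem_coe.1 hy) 0
    | zero => exact ⟨0, by simp⟩
    | add u v _ _ hu hv =>
      obtain ⟨a, ha⟩ := hu
      obtain ⟨b, hb⟩ := hv
      refine ⟨a + b, ?_⟩
      have := LieSubalgebra.add_mem _ ha hb
      rw [add_smul]
      convert this using 1
      abel
    | smul r u _ hu =>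
      obtain ⟨a, ha⟩ := hu
      refine ⟨r * a, ?_⟩
      have := LieSubalgebra.smul_mem _ r ha
      rwa [smul_sub, ← mul_smul] at this
    | lie u v _ _ hu hv =>
      obtain ⟨a, ha⟩ := hu
      obtain ⟨b, hb⟩ := hv
      refine ⟨0, ?_⟩
      rw [zero_smul, sub_zero]
      have hu' : u = a • x + (u - a • x) := by abel
      have hv' : v = b • x + (v - b • x) := by abel
      rw [hu', hv', add_lie, lie_add, lie_add]
      refine LieSubalgebra.add_mem _ (LieSubalgebra.add_mem _ ?_ ?_)
        (LieSubalgebra.add_mem _ ?_ ?_)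
      · simp
      · rw [smul_lie]; exact LieSubalgebra.smul_mem _ _ (h2 _ hb)
      · rw [lie_smul, ← lie_skew]
        exact LieSubalgebra.smul_mem _ _ (neg_mem (h2 _ ha))
      · exact LieSubalgebra.lie_mem _ ha hb
  apply le_antisymm h1
  intro y hy
  obtain ⟨a, ha⟩ := h3 y (by rw [hT]; exact hle hy)
  have hax : a • x ∈ H₁ := by
    have := H₁.sub_mem hy (h1 ha)
    simpa using this
  by_cases ha0 : a = 0
  · simpa [ha0] using ha
  · exfalso
    apply hx1
    have := H₁.smul_mem a⁻¹ hax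
    rwa [smul_smul, inv_mul_cancel₀ ha0, one_smul] at this

/-- transfer: an ideal which is generated, inside the ambient Lie algebra, by a finite set is
finitely generated as a Lie algebra. -/
theorem fg_of_lieSpan (H : LieIdeal K L) (T : Finset L)
    (hT : ∀ y, y ∈ LieSubalgebra.lieSpan K L (T : Set L) ↔ y ∈ H) : FG K H := by
  classical
  have hTH : ∀ t ∈ T, t ∈ H := fun t ht => (hT t).1 (LieSubalgebra.subset_lieSpan ht)
  refine ⟨T.attach.image (fun t => (⟨t.1, hTH t.1 t.2⟩ : H)), ?_⟩
  rw [eq_top_iff]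
  intro z _
  have key : ∀ y ∈ LieSubalgebra.lieSpan K L (T : Set L), ∀ hy : y ∈ H,
      (⟨y, hy⟩ : H) ∈ LieSubalgebra.lieSpan K H
        ((T.attach.image (fun t => (⟨t.1, hTH t.1 t.2⟩ : H)) : Finset H) : Set H) := by
    intro y hy
    induction hy using LieSubalgebra.lieSpan_induction with
    | mem y hy =>
      intro hyH
      apply LieSubalgebra.subset_lieSpan
      simp only [Finset.coe_image, Set.mem_image]
      exact ⟨⟨y, Finset.mem_coe.1 hy⟩, by simp, rfl⟩
    | zero => intro _; exact LieSubalgebra.zero_mem _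
    | add u v hu' hv' hu hv =>
      intro _
      exact LieSubalgebra.add_mem _ (hu ((hT u).1 hu')) (hv ((hT v).1 hv'))
    | smul a u hu' hu =>
      intro _
      exact LieSubalgebra.smul_mem _ a (hu ((hT u).1 hu'))
    | lie u v hu' hv' hu hv =>
      intro _
      exact LieSubalgebra.lie_mem _ (hu ((hT u).1 hu')) (hv ((hT v).1 hv'))
  exact key z.1 ((hT z.1).2 z.2) z.2

end Pool.Agent.KOS.Cod1X

namespace Pool.Agent.KOS

theorem cod1_proof : Stmt_Cod1 := by
  intro K L _ _ _ hFG H x hx hn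
  obtain ⟨T, hT⟩ := hFG
  obtain ⟨n, hn⟩ := hn
  obtain ⟨T₁, hT₁⟩ := Cod1X.cod1_amb T ⊤ (H : LieSubalgebra K L) hT le_top
    (fun a _ b hb => lie_mem_right K L H a b hb) x (LieSubalgebra.mem_top x)
    (fun y _ => hx y) n hn
  exact Cod1X.fg_of_lieSpan H T₁ (fun y => by rw [hT₁]; exact Iff.rfl)

end Pool.Agent.KOS
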