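import Mathlib

set_option autoImplicit false

/-!
Squad KOS: short proof of Kostrikin's theorem (restricted Burnside problem for prime exponent).
Text: /team-store/KOSTRIKIN.md
-/

namespace Pool.Agent.KOS

/-- strict Lyndon words: every proper nonempty suffix is bigger than the prefix of the same length. -/
def Lyn {r : ℕ} (w : List (Fin r)) : Prop :=
  w ≠ [] ∧ ∀ i, 0 < i → i < w.length → w.take (w.length - i) < w.drop i

/-- product of the `g i` over a word. -/
def ev {R : Type*} [Monoid R] {r : ℕ} (g : Fin r → R) (w : List (Fin r)) : R := (w.map g).prod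

/-- iterated ring commutators in the `g i`. -/
inductive Com {R : Type*} [Ring R] {r : ℕ} (g : Fin r → R) : R → Prop
  | gen (i : Fin r) : Com g (g i)
  | br (a b : R) : Com g a → Com g b → Com g (a * b - b * a)

/-- iterated ring commutators in the `g i` with their weight. -/
inductive ComW {R : Type*} [Ring R] {r : ℕ} (g : Fin r → R) : ℕ → R → Prop
  | gen (i : Fin r) : ComW g 1 (g i)
  | br (m n : ℕ) (a b : R) : ComW g m a → ComW g n b → ComW g (m + n) (a * b - b * a)

/-- span of the values of the bigger words of the same length. -/
def Up (K : Type*) {R : Type*} [Field K] [Ring R] [Algebra K R] {r : ℕ} (g : Fin r → R)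
    (w : List (Fin r)) : Submodule K R :=
  Submodule.span K {x | ∃ w' : List (Fin r), w'.length = w.length ∧ w < w' ∧ x = ev g w'}

section Lie
variable (K L : Type*) [Field K] [LieRing L] [LieAlgebra K L]

/-- `ad x` as an endomorphism. -/
abbrev adE (x : L) : Module.End K L := LieAlgebra.ad K L x

/-- product of the operators `ad x` over a list. -/
def adP (l : List L) : Module.End K L := (l.map (fun x => adE K L x)).prod

/-- finitely generated as a Lie algebra. -/
def FG : Prop := ∃ S : Finset L, LieSubalgebra.lieSpan K L (S : Set L) = ⊤

/-- nilpotent: all products of `N` operators `ad x` vanish. -/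
def NilLie : Prop := ∃ N : ℕ, ∀ l : List L, l.length = N → adP K L l = 0

/-- `L / J` is nilpotent. -/
def NilMod (J : LieIdeal K L) : Prop := ∃ N : ℕ, ∀ l : List L, l.length = N → ∀ y : L, adP K L l y ∈ J

end Lie

section Grp
variable (K G : Type*) [Field K] [Group G]

/-- `g - 1` in the group algebra. -/
noncomputable def dlt (g : G) : MonoidAlgebra K G := MonoidAlgebra.of K G g - 1

/-- augmentation ideal, as a subspace. -/
noncomputable def Aug : Submodule K (MonoidAlgebra K G) := Submodule.span K (Set.range (dlt K G))

/-- powers of the augmentation ideal, `DD 0 = K[G]`. -/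
noncomputable def DD : ℕ → Submodule K (MonoidAlgebra K G)
  | 0 => ⊤
  | n + 1 => Aug K G * DD n

end Grp

end Pool.Agent.KOS
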