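import Pool.Agent.KOS.StmtsB

set_option autoImplicit false

namespace Pool.Agent.KOS

theorem jc_proof : Stmt_JC := by
  intro R _ v u V P hV0 hV1 hV hP0 hP
  have key : ∀ k, V (k + 1) - v * P (k + 1) + u * P k = 0 := by
    intro k
    induction k with
    | zero => rw [hP, hP0, hV0, hV1]; ring
    | succ k ih =>
      have h1 := hP (k + 1)
      have h2 := hP k
      have h3 := hV k
      linear_combination v * ih + h3 - v * h1 + u * h2
  refine ⟨?_, ?_⟩
  · intro k
    induction k with
    | zero => rw [hP, hP0, hV0, hV1]; ring
    | succ k ih =>
      have h1 := hP (k + 1)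
      have h2 := hP k
      have h3 := hV k
      have h4 := key k
      rw [pow_succ]
      linear_combination u * ih + V (k + 1) * h1 - P (k + 1) * h3 + V (k + 1) * h4
  · intro i d
    have key2 : ∀ i d, V (i + 1) * V (i + d) - V i * V (i + d + 1) =
        u ^ i * (v * V d - V (d + 1)) := by
      intro i
      induction i with
      | zero => intro d; simp [hV0, hV1]
      | succ i ih =>
        intro d
        have h1 := hV i
        have h2 := hV (i + d)
        have h3 := ih d
        have e1 : i + 1 + d = i + d + 1 := by ring
        rw [e1, pow_succ]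
        have e2 : i + d + 1 + 1 = i + d + 2 := by ring
        have e3 : i + 1 + 1 = i + 2 := by ring
        rw [e2, e3]
        linear_combination u * h3 + V (i + d + 1) * h1 - V (i + 1) * h2
    have h := key2 i (d + 1)
    have h0 := hV d
    have e1 : i + 1 + d = i + (d + 1) := by ring
    have e2 : i + 2 + d = i + (d + 1) + 1 := by ring
    have e3 : d + 1 + 1 = d + 2 := by ring
    rw [e3] at h
    rw [e1, e2]
    have e4 : u ^ (i + 1) = u * u ^ i := by ring
    have e5 : u ^ (i + 2) = u * u * u ^ i := by ring
    rw [e4, e5]
    linear_combination u * h - u * u ^ i * h0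
end Pool.Agent.KOS
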