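import Pool.Agent.KOS.StmtsB

set_option autoImplicit false

namespace Pool.Agent.KOS

namespace JFX

section ring
variable {R : Type*} [Ring R]

lemma sq_eq (A U : R) (h3 : A ^ 3 = 0) (h1 : A ^ 2 * U * A ^ 2 = 0)
    (h2 : A ^ 2 * U * A = A * U * A ^ 2) :
    (A ^ 2 * U - (A * U * A + A * U * A) + U * A ^ 2) ^ 2 = A ^ 2 * U * U * A ^ 2 := by
  have e : (A ^ 2 * U - (A * U * A + A * U * A) + U * A ^ 2) ^ 2 =
      (A ^ 2 * U * A ^ 2) * U - (A ^ 2 * U * A) * (U * A) - (A ^ 2 * U * A) * (U * A) +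
      A ^ 2 * U * U * A ^ 2 - A * U * A ^ 3 * U - A * U * A ^ 3 * U +
      (A * U) * (A ^ 2 * U * A) + (A * U) * (A ^ 2 * U * A) + (A * U) * (A ^ 2 * U * A) +
      (A * U) * (A ^ 2 * U * A) - A * U * A * U * A ^ 2 - A * U * A * U * A ^ 2 +
      U * A ^ 3 * A * U - U * A ^ 3 * U * A - U * A ^ 3 * U * A + U * (A ^ 2 * U * A ^ 2) := by
    noncomm_ring
  rw [e, h1, h3, h2]
  have e2 : A * U * A ^ 2 * (U * A) = (A * U) * (A ^ 2 * U * A) := by noncomm_ring
  rw [e2, h2]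
  noncomm_ring

end ring

end JFX

theorem jf_proof : Stmt_JF := by
  intro K L _ _ _ h2 h3 a A hA hA3
  have hbr : ∀ u : L, adE K L ⁅a, u⁆ = A * adE K L u - adE K L u * A := by
    intro u
    rw [hA]
    simp [Ring.lie_def]
  have hA1 : ∀ u : L, A u = ⁅a, u⁆ := by
    intro u; rw [hA]; rfl
  have hAA : ∀ u : L, adE K L ((A ^ 2) u) =
      A ^ 2 * adE K L u - (A * adE K L u * A + A * adE K L u * A) + adE K L u * A ^ 2 := by
    intro u
    rw [pow_two, Module.End.mul_apply, hA1 (A u), hbr, hA1 u, hbr]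
    noncomm_ring
  have hAAA : ∀ u : L, (3 : K) • (A ^ 2 * adE K L u * A) = (3 : K) • (A * adE K L u * A ^ 2) := by
    intro u
    have h0 : adE K L ((A ^ 3) u) = 0 := by rw [hA3]; simp
    have h0' : (A ^ 3) u = ⁅a, (A ^ 2) u⁆ := by
      rw [pow_succ', Module.End.mul_apply, hA1]
    rw [h0', hbr, hAA] at h0
    have e : A * (A ^ 2 * adE K L u - (A * adE K L u * A + A * adE K L u * A) +
        adE K L u * A ^ 2) - (A ^ 2 * adE K L u - (A * adE K L u * A + A * adE K L u * A) +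
        adE K L u * A ^ 2) * A = A ^ 3 * adE K L u - adE K L u * A ^ 3 -
        ((3 : ℤ) • (A ^ 2 * adE K L u * A) - (3 : ℤ) • (A * adE K L u * A ^ 2)) := by
      noncomm_ring
    rw [e, hA3, zero_mul, mul_zero, sub_zero, zero_sub, neg_eq_zero, sub_eq_zero] at h0
    have hz : ∀ z : Module.End K L, (3 : K) • z = (3 : ℤ) • z := by
      intro z
      rw [← Int.cast_smul_eq_zsmul K]
      norm_num
    rw [hz, hz, h0]
  have r2 : ∀ u : L, A ^ 2 * adE K L u * A = A * adE K L u * A ^ 2 := by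
    intro u
    exact smul_right_injective _ h3 (hAAA u)
  have r1 : ∀ u : L, A ^ 2 * adE K L u * A ^ 2 = 0 := by
    intro u
    have : A ^ 2 * adE K L u * A ^ 2 = A ^ 2 * adE K L u * A * A := by noncomm_ring
    rw [this, r2]
    have : A * adE K L u * A ^ 2 * A = A * adE K L u * A ^ 3 := by noncomm_ring
    rw [this, hA3, mul_zero]
  have r5 : ∀ u : L, A ^ 2 * adE K L ⁅a, u⁆ = - (A * adE K L u * A ^ 2) := by
    intro u
    rw [hbr, ← r2]
    have : A ^ 2 * (A * adE K L u - adE K L u * A) = A ^ 3 * adE K L u - A ^ 2 * adE K L u * A := by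
      noncomm_ring
    rw [this, hA3, zero_mul, zero_sub]
  refine ⟨r1, r2, ?_, ?_, r5, ?_, ?_, ?_⟩
  · intro u v
    have h := r1 ⁅u, v⁆
    have e : adE K L ⁅u, v⁆ = adE K L u * adE K L v - adE K L v * adE K L u := by
      simp [Ring.lie_def]
    rw [e] at h
    have e2 : A ^ 2 * (adE K L u * adE K L v - adE K L v * adE K L u) * A ^ 2 =
      A ^ 2 * adE K L u * adE K L v * A ^ 2 - A ^ 2 * adE K L v * adE K L u * A ^ 2 := by
      noncomm_ring
    rw [e2, sub_eq_zero] at h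
    exact h
  · intro u
    rw [hbr]
    have : (A * adE K L u - adE K L u * A) * A ^ 2 = A * adE K L u * A ^ 2 - adE K L u * A ^ 3 := by
      noncomm_ring
    rw [this, hA3, mul_zero, sub_zero]
  · intro u v
    have h1 : (A * adE K L u * A ^ 2) v = - (A ^ 2) ⁅⁅a, u⁆, v⁆ := by
      have := congrArg (fun T : Module.End K L => T v) (r5 u)
      simp only [Module.End.mul_apply, LinearMap.neg_apply] at this
      rw [Module.End.mul_apply, Module.End.mul_apply]
      have h' : adE K L ⁅a, u⁆ v = ⁅⁅a, u⁆, v⁆ := rfl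
      rw [h'] at this
      rw [this, neg_neg]
    have h2' : (A * adE K L v * A ^ 2) u = - (A ^ 2) ⁅⁅a, v⁆, u⁆ := by
      have := congrArg (fun T : Module.End K L => T u) (r5 v)
      simp only [Module.End.mul_apply, LinearMap.neg_apply] at this
      rw [Module.End.mul_apply, Module.End.mul_apply]
      have h' : adE K L ⁅a, v⁆ u = ⁅⁅a, v⁆, u⁆ := rfl
      rw [h'] at this
      rw [this, neg_neg]
    rw [h1, h2', neg_inj]
    have h3' : (A ^ 2) ⁅a, ⁅u, v⁆⁆ = 0 := by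
      have : (A ^ 3) ⁅u, v⁆ = (A ^ 2) ⁅a, ⁅u, v⁆⁆ := by
        rw [pow_succ, Module.End.mul_apply, hA1]
      rw [← this, hA3]; rfl
    have h4 : ⁅a, ⁅u, v⁆⁆ = ⁅⁅a, u⁆, v⁆ - ⁅⁅a, v⁆, u⁆ := by
      rw [leibniz_lie a u v, ← lie_skew ⁅a, v⁆ u]
      abel
    rw [h4, map_sub, sub_eq_zero] at h3'
    exact h3'
  · intro u
    rw [hAA]
    exact JFX.sq_eq A _ hA3 (r1 u) (r2 u)
  · intro u
    rw [hAA]
    have : A * (A ^ 2 * adE K L u - (A * adE K L u * A + A * adE K L u * A) +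
        adE K L u * A ^ 2) = A ^ 3 * adE K L u - A ^ 2 * adE K L u * A -
        A ^ 2 * adE K L u * A + A * adE K L u * A ^ 2 := by noncomm_ring
    rw [this, hA3, ← r2]
    noncomm_ring

end Pool.Agent.KOS
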