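import Pool.Agent.KOS.StmtsA

set_option autoImplicit false

/-! Module REES: the associated graded algebra of the augmentation filtration. -/

namespace Pool.Agent.KOS

namespace Rees

open Polynomial

section
variable {K A : Type} [Field K] [Ring A] [Algebra K A] {D : ℕ → Submodule K A}

/-- multiplicative filtration -/
def MF (D : ℕ → Submodule K A) : Prop :=
  (∀ a, a ∈ D 0) ∧ ∀ m n a b, a ∈ D m → b ∈ D n → a * b ∈ D (m + n)

/-- the Rees algebra -/
def RR (hD : MF D) : Subalgebra K (Polynomial A) where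
  carrier := {P | ∀ i, P.coeff i ∈ D i}
  mul_mem' := by
    intro P Q hP hQ i
    rw [Polynomial.coeff_mul]
    refine Submodule.sum_mem _ ?_
    intro x hx
    rw [Finset.HasAntidiagonal.mem_antidiagonal] at hx
    rw [← hx]
    exact hD.2 _ _ _ _ (hP _) (hQ _)
  add_mem' := by
    intro P Q hP hQ i
    rw [Polynomial.coeff_add]
    exact Submodule.add_mem _ (hP i) (hQ i)
  algebraMap_mem' := by
    intro k i
    rw [Polynomial.algebraMap_apply, Polynomial.coeff_C]
    by_cases hi : i = 0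
    · subst hi; exact hD.1 _
    · rw [if_neg hi]; exact Submodule.zero_mem _

noncomputable instance (hD : MF D) : Ring (RR hD) := Subalgebra.toRing (RR hD)

/-- the ideal of elements of bigger filtration -/
noncomputable def JJ (hD : MF D) : TwoSidedIdeal (RR hD) :=
  TwoSidedIdeal.mk' {P | ∀ i, (P : Polynomial A).coeff i ∈ D (i + 1)}
    (by intro i; simp)
    (by
      intro P Q hP hQ i
      rw [Subalgebra.coe_add, Polynomial.coeff_add]
      exact Submodule.add_mem _ (hP i) (hQ i))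
    (by
      intro P hP i
      rw [NegMemClass.coe_neg, Polynomial.coeff_neg]
      exact Submodule.neg_mem _ (hP i))
    (by
      intro P Q hQ i
      rw [Subalgebra.coe_mul, Polynomial.coeff_mul]
      refine Submodule.sum_mem _ ?_
      intro x hx
      rw [Finset.HasAntidiagonal.mem_antidiagonal] at hx
      rw [← hx, add_assoc]
      exact hD.2 _ _ _ _ (P.2 _) (hQ _))
    (by
      intro P Q hP i
      rw [Subalgebra.coe_mul, Polynomial.coeff_mul]
      refine Submodule.sum_mem _ ?_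
      intro x hx
      rw [Finset.HasAntidiagonal.mem_antidiagonal] at hx
      rw [← hx, add_right_comm]
      exact hD.2 _ _ _ _ (hP _) (Q.2 _))

theorem mem_JJ (hD : MF D) (P : RR hD) :
    P ∈ JJ hD ↔ ∀ i, (P : Polynomial A).coeff i ∈ D (i + 1) := by
  unfold JJ
  exact TwoSidedIdeal.mem_mk' _ _ _ _ _ _ _

abbrev UU (hD : MF D) : Type := (JJ hD).ringCon.Quotient

/-- the quotient map -/
noncomputable def q (hD : MF D) : RR hD →+* UU hD := (JJ hD).ringCon.mk'

theorem q_eq (hD : MF D) (P Q : RR hD) : q hD P = q hD Q ↔ P - Q ∈ JJ hD := by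
  rw [← TwoSidedIdeal.rel_iff]
  exact RingCon.eq _

theorem q_zero (hD : MF D) (P : RR hD) : q hD P = 0 ↔ P ∈ JJ hD := by
  rw [← map_zero (q hD), q_eq, sub_zero]

/-- homogeneous elements -/
noncomputable def mon (hD : MF D) (d : ℕ) (a : A) (ha : a ∈ D d) : RR hD :=
  ⟨monomial d a, by
    intro i
    rw [Polynomial.coeff_monomial]
    by_cases h : d = i
    · subst h; rw [if_pos rfl]; exact ha
    · rw [if_neg h]; exact Submodule.zero_mem _⟩

theorem coe_mon (hD : MF D) (d : ℕ) (a : A) (ha : a ∈ D d) :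
    ((mon hD d a ha : RR hD) : Polynomial A) = monomial d a := rfl

theorem mon_mem_JJ (hD : MF D) (P : RR hD) (d : ℕ) (a : A)
    (h : (P : Polynomial A) = monomial d a) :
    P ∈ JJ hD ↔ a ∈ D (d + 1) := by
  rw [mem_JJ, h]
  constructor
  · intro h1
    have := h1 d
    rwa [Polynomial.coeff_monomial, if_pos rfl] at this
  · intro h1 i
    rw [Polynomial.coeff_monomial]
    by_cases hi : d = i
    · subst hi; rw [if_pos rfl]; exact h1
    · rw [if_neg hi]; exact Submodule.zero_mem _

theorem mon_list_prod (l : List (ℕ × A)) :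
    (l.map (fun x => (monomial x.1 x.2 : Polynomial A))).prod
      = monomial (l.map Prod.fst).sum (l.map Prod.snd).prod := by
  induction l with
  | nil => simp
  | cons x l ih => simp only [List.map_cons, List.prod_cons, List.sum_cons, ih, monomial_mul_monomial]

theorem com_form (hD : MF D) {r : ℕ} (x : Fin r → A) (hx : ∀ i, x i ∈ D 1)
    (S : ℕ → A → Prop) (hS1 : ∀ i, S 1 (x i)) (hSm : ∀ d a, S d a → a ∈ D d)
    (hSb : ∀ d e a b, S d a → S e b → ∃ c, S (d + e) c ∧ a * b - b * a - c ∈ D (d + e + 1))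
    {c : UU hD} (hc : Com (fun i => q hD (mon hD 1 (x i) (hx i))) c) :
    ∃ (d : ℕ) (a : A) (ha : S d a), c = q hD (mon hD d a (hSm d a ha)) := by
  induction hc with
  | gen i => exact ⟨1, x i, hS1 i, rfl⟩
  | br a b _ _ iha ihb =>
    obtain ⟨d, h, hh, rfl⟩ := iha
    obtain ⟨d', h', hh', rfl⟩ := ihb
    obtain ⟨c, hc, hz⟩ := hSb d d' h h' hh hh'
    refine ⟨d + d', c, hc, ?_⟩
    rw [← map_mul, ← map_mul, ← map_sub, q_eq]
    rw [mon_mem_JJ hD _ (d + d') (h * h' - h' * h - c)]
    · exact hz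
    · rw [Subalgebra.coe_sub, Subalgebra.coe_sub, Subalgebra.coe_mul, Subalgebra.coe_mul, coe_mon,
        coe_mon, coe_mon, monomial_mul_monomial, monomial_mul_monomial, map_sub, map_sub,
        add_comm d' d]

theorem gen (hA : Stmt_Assoc) [Infinite K] (p : ℕ) [Fact p.Prime] [CharP K p] (hp5 : 5 ≤ p)
    (hD : MF D) {r : ℕ} (x : Fin r → A) (hx : ∀ i, x i ∈ D 1)
    (S : ℕ → A → Prop) (hS1 : ∀ i, S 1 (x i)) (hSm : ∀ d a, S d a → a ∈ D d)
    (hSb : ∀ d e a b, S d a → S e b → ∃ c, S (d + e) c ∧ a * b - b * a - c ∈ D (d + e + 1))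
    (hSs : ∀ (a : Fin p → A) (d : Fin p → ℕ), (∀ i, S (d i) (a i)) →
      ∑ σ : Equiv.Perm (Fin p), (List.ofFn (fun i => a (σ i))).prod ∈ D ((∑ i, d i) + 1))
    (hSp : ∀ d a, S d a → a ^ p = 0) :
    ∃ N : ℕ, ∀ w : List (Fin r), w.length = N → ev x w ∈ D (N + 1) := by
  have key := hA K (UU hD) p hp5 r (fun i => q hD (mon hD 1 (x i) (hx i))) ?_ ?_
  · obtain ⟨N, hN⟩ := key
    refine ⟨N, fun w hw => ?_⟩
    have h1 := hN w hw
    unfold ev at h1 ⊢
    have e1 : (w.map (fun i => q hD (mon hD 1 (x i) (hx i)))).prod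
        = q hD ((w.map (fun i => mon hD 1 (x i) (hx i))).prod) := by
      rw [map_list_prod, List.map_map]; rfl
    rw [e1, q_zero, mon_mem_JJ hD _ w.length ((w.map x).prod)] at h1
    · rw [hw] at h1; exact h1
    · have e2 : (((w.map (fun i => mon hD 1 (x i) (hx i))).prod : RR hD) : Polynomial A)
          = (w.map (fun i => (monomial 1 (x i) : Polynomial A))).prod := by
        rw [show (((w.map (fun i => mon hD 1 (x i) (hx i))).prod : RR hD) : Polynomial A)
            = (RR hD).val ((w.map (fun i => mon hD 1 (x i) (hx i))).prod) from rfl,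
          map_list_prod, List.map_map]
        rfl
      rw [e2]
      have e3 := mon_list_prod (w.map (fun i => ((1 : ℕ), x i)))
      rw [List.map_map, List.map_map, List.map_map] at e3
      have e4 : (w.map (Prod.fst ∘ fun i => ((1 : ℕ), x i))).sum = w.length := by
        have : (Prod.fst ∘ fun i => ((1 : ℕ), x i)) = fun _ => 1 := rfl
        rw [this]; simp
      rw [e4] at e3
      exact e3
  · intro c hc
    choose d a ha hcd using fun i => com_form hD x hx S hS1 hSm hSb (hc i)
    have hM1 := hSs a d ha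
    have e1 : ∀ σ : Equiv.Perm (Fin p), (List.ofFn (fun i => c (σ i))).prod
        = q hD ((List.ofFn (fun i => mon hD (d (σ i)) (a (σ i)) (hSm _ _ (ha (σ i))))).prod) := by
      intro σ
      rw [map_list_prod, List.map_ofFn]
      congr 2
      funext i
      exact hcd (σ i)
    rw [Finset.sum_congr rfl (fun σ _ => e1 σ), ← map_sum, q_zero,
      mon_mem_JJ hD _ (∑ i, d i) (∑ σ : Equiv.Perm (Fin p), (List.ofFn (fun i => a (σ i))).prod)]
    · exact hM1
    · rw [show ((∑ σ : Equiv.Perm (Fin p), (List.ofFn (fun i => mon hD (d (σ i))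
        (a (σ i)) (hSm _ _ (ha (σ i))))).prod : RR hD) : Polynomial A)
          = (RR hD).val (∑ σ : Equiv.Perm (Fin p),
            (List.ofFn (fun i => mon hD (d (σ i)) (a (σ i)) (hSm _ _ (ha (σ i))))).prod) from rfl,
        map_sum, map_sum]
      refine Finset.sum_congr rfl (fun σ _ => ?_)
      rw [map_list_prod, List.map_ofFn]
      have e3 := mon_list_prod (List.ofFn (fun i => (d (σ i), a (σ i))))
      rw [List.map_ofFn, List.map_ofFn, List.map_ofFn] at e3
      have e4 : (List.ofFn (Prod.fst ∘ fun i => (d (σ i), a (σ i)))).sum = ∑ i, d i := by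
        rw [List.sum_ofFn]
        exact Equiv.sum_comp σ d
      rw [e4] at e3
      exact e3
  · intro c hc
    obtain ⟨d, a, ha, rfl⟩ := com_form hD x hx S hS1 hSm hSb hc
    rw [← map_pow, q_zero]
    have e1 : (mon hD d a (hSm d a ha)) ^ p = 0 := by
      apply Subtype.ext
      rw [SubmonoidClass.coe_pow, coe_mon, monomial_pow, hSp d a ha, map_zero]
      rfl
    rw [e1]
    exact TwoSidedIdeal.zero_mem _

end

section
variable {K G : Type} [Field K] [Group G]

theorem dlt_mem_one (g : G) : dlt K G g ∈ DD K G 1 := by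
  have h1 : dlt K G g ∈ Aug K G := Submodule.subset_span ⟨g, rfl⟩
  have h2 := Submodule.mul_mem_mul h1 (show (1 : MonoidAlgebra K G) ∈ DD K G 0 from Submodule.mem_top)
  rwa [mul_one] at h2

theorem mem_zero (a : MonoidAlgebra K G) : a ∈ DD K G 0 := Submodule.mem_top

/-- group commutators -/
theorem dlt_comm (h h' : G) : dlt K G (h⁻¹ * h'⁻¹ * h * h') =
    MonoidAlgebra.of K G (h⁻¹ * h'⁻¹) * (dlt K G h * dlt K G h' - dlt K G h' * dlt K G h) := by
  unfold dlt
  have e : (MonoidAlgebra.of K G h - 1) * (MonoidAlgebra.of K G h' - 1)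
      - (MonoidAlgebra.of K G h' - 1) * (MonoidAlgebra.of K G h - 1)
      = MonoidAlgebra.of K G (h * h') - MonoidAlgebra.of K G (h' * h) := by
    rw [map_mul, map_mul]; noncomm_ring
  rw [e, mul_sub, ← map_mul, ← map_mul]
  have e2 : h⁻¹ * h'⁻¹ * (h' * h) = 1 := by group
  have e3 : h⁻¹ * h'⁻¹ * (h * h') = h⁻¹ * h'⁻¹ * h * h' := by group
  rw [e2, e3, map_one]

theorem dlt_pow (p : ℕ) [Fact p.Prime] [CharP K p] (h : G) (hh : h ^ p = 1) :
    dlt K G h ^ p = 0 := by
  have : CharP (MonoidAlgebra K G) p :=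
    charP_of_injective_algebraMap (FaithfulSMul.algebraMap_injective K (MonoidAlgebra K G)) p
  unfold dlt
  rw [sub_pow_char_of_commute p (Commute.one_right (MonoidAlgebra.of K G h)), one_pow, ← map_pow, hh,
    map_one, sub_self]

end

end Rees

open Rees in
theorem Rees_proof (hA : Stmt_Assoc) (hM : Stmt_Multi) (hD : Stmt_DMul) : Stmt_Rees := by
  intro K G _ _ _ p _ _ hp5 hexp r g
  refine gen hA p hp5 (D := DD K G) ⟨mem_zero, (hD K G).1⟩ (fun i => dlt K G (g i))
    (fun i => dlt_mem_one _) (fun d a => 1 ≤ d ∧ ∃ h : G, a = dlt K G h ∧ dlt K G h ∈ DD K G d)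
    (fun i => ⟨le_rfl, g i, rfl, dlt_mem_one _⟩) ?_ ?_ ?_ ?_
  · rintro d a ⟨_, h, rfl, hh⟩; exact hh
  · rintro d d' a b ⟨hd, h, rfl, hh⟩ ⟨hd', h', rfl, hh'⟩
    have hz : dlt K G h * dlt K G h' - dlt K G h' * dlt K G h ∈ DD K G (d + d') := by
      refine Submodule.sub_mem _ ((hD K G).1 _ _ _ _ hh hh') ?_
      rw [add_comm]
      exact (hD K G).1 _ _ _ _ hh' hh
    have hc : dlt K G (h⁻¹ * h'⁻¹ * h * h') ∈ DD K G (d + d') := by
      rw [dlt_comm]
      have := (hD K G).1 0 (d + d') _ _ (mem_zero (MonoidAlgebra.of K G (h⁻¹ * h'⁻¹))) hz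
      rwa [zero_add] at this
    refine ⟨dlt K G (h⁻¹ * h'⁻¹ * h * h'), ⟨by omega, _, rfl, hc⟩, ?_⟩
    rw [dlt_comm]
    have e : ∀ z : MonoidAlgebra K G, z - MonoidAlgebra.of K G (h⁻¹ * h'⁻¹) * z
        = - (dlt K G (h⁻¹ * h'⁻¹) * z) := by
      intro z; unfold dlt; noncomm_ring
    rw [e]
    refine Submodule.neg_mem _ ?_
    have := (hD K G).1 1 (d + d') _ _ (dlt_mem_one (K := K) (h⁻¹ * h'⁻¹)) hz
    rwa [add_comm] at this
  · intro a d had
    choose hd h hah hh using had
    have := hM K G p hexp h d hd hh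
    rwa [show a = fun i => dlt K G (h i) from funext hah]
  · rintro d a ⟨_, h, rfl, _⟩
    exact dlt_pow p h (hexp h)

end Pool.Agent.KOS
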